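import Mathlib
import Pool.Agent.Helper96.AL.T4
import Pool.Agent.Helper96.AL.T6

/-!
# Albert's theorem for division algebras of prime degree `n`, characteristic not `n`

Adapted from `Pool.Agent.Helper96.AL` (the case `n = 5`).
-/

set_option autoImplicit false

namespace Pool.Agent.Helper41.CF.Alb

open Pool.Agent.Helper96.AL TensorProduct

theorem dvd_sq {n : ℕ} (hn : n.Prime) {d : ℕ} (h : d ∣ n ^ 2) : d = 1 ∨ d = n ∨ d = n ^ 2 := by
  obtain ⟨i, hi, rfl⟩ := (Nat.dvd_prime_pow hn).1 h
  interval_cases i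
  · left; simp
  · right; left; simp
  · right; right; rfl

theorem comm_D {F D : Type*} [Field F] [DivisionRing D] [Algebra F D] {n : ℕ} (hn : n.Prime)
    (hcen : ∀ x : D, (∀ y, x * y = y * x) → ∃ c : F, algebraMap F D c = x)
    (hdim : Module.finrank F D = n ^ 2) {x : D} (hx : ∀ c : F, x ≠ algebraMap F D c) {a b : D}
    (ha : a * x = x * a) (hb : b * x = x * b) : a * b = b * a := by
  have hn1 : 1 < n := hn.one_lt
  have hnn : n < n ^ 2 := by nlinarith
  haveI : FiniteDimensional F D := FiniteDimensional.of_finrank_pos (by rw [hdim]; positivity)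
  set C : Subalgebra F D := Subalgebra.centralizer F ({x} : Set D) with hC
  have hmemC : ∀ z : D, z ∈ C ↔ z * x = x * z := by
    intro z
    rw [hC, Subalgebra.mem_centralizer_iff]
    constructor
    · intro h
      exact (h x rfl).symm
    · intro h g hg
      rw [Set.mem_singleton_iff] at hg
      rw [hg, h]
  have hCd : Module.finrank F C ∣ n ^ 2 := hdim ▸ t2_dvd C
  have hxi : IsIntegral F x := Algebra.IsIntegral.isIntegral x
  have hdd : (minpoly F x).natDegree ∣ n ^ 2 := hdim ▸
    Pool.Agent.Helper96.CY.natDegree_minpoly_dvd x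
  have hd1 : (minpoly F x).natDegree ≠ 1 := by
    intro h1
    obtain ⟨c, hc⟩ := minpoly.natDegree_eq_one_iff.1 h1
    exact hx c hc.symm
  have hCne : Module.finrank F C ≠ n ^ 2 := by
    intro h25
    have htop : Subalgebra.toSubmodule C = ⊤ := by
      apply Submodule.eq_top_of_finrank_eq
      rw [hdim]
      exact h25
    obtain ⟨c, hc⟩ := hcen x (fun y => by
      have hy : y ∈ Subalgebra.toSubmodule C := by rw [htop]; trivial
      exact ((hmemC y).1 hy).symm)
    exact hx c hc.symm
  have hxC : ∀ i : ℕ, x ^ i ∈ C := by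
    intro i
    rw [hmemC]
    exact (Commute.pow_left (Commute.refl x) i)
  have hli : LinearIndependent F (fun i : Fin (minpoly F x).natDegree => x ^ (i : ℕ)) :=
    linearIndependent_pow x
  set v : Fin (minpoly F x).natDegree → Subalgebra.toSubmodule C :=
    fun i => ⟨x ^ (i : ℕ), hxC i⟩ with hv
  have hliC : LinearIndependent F v := by
    apply LinearIndependent.of_comp (Subalgebra.toSubmodule C).subtype
    exact hli
  have hle : (minpoly F x).natDegree ≤ Module.finrank F (Subalgebra.toSubmodule C) := by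
    have := hliC.fintype_card_le_finrank
    rwa [Fintype.card_fin] at this
  have hCd' : Module.finrank F (Subalgebra.toSubmodule C) = Module.finrank F C := rfl
  rw [hCd'] at hle
  have hd5 : (minpoly F x).natDegree = n ∧ Module.finrank F C = n := by
    rcases dvd_sq hn hCd with h | h | h <;> rcases dvd_sq hn hdd with h' | h' | h' <;> omega
  have hspan : Submodule.span F (Set.range v) = ⊤ := by
    apply hliC.span_eq_top_of_card_eq_finrank'
    rw [Fintype.card_fin, hCd', hd5.1, hd5.2]
  have haC : a ∈ C := (hmemC a).2 ha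
  have hmem : (⟨a, haC⟩ : Subalgebra.toSubmodule C) ∈ Submodule.span F (Set.range v) := by
    rw [hspan]; trivial
  have key : ∀ z : Subalgebra.toSubmodule C, z ∈ Submodule.span F (Set.range v) →
      (z : D) * b = b * (z : D) := by
    intro z hz
    induction hz using Submodule.span_induction with
    | mem z hz =>
      obtain ⟨i, rfl⟩ := hz
      exact (Commute.pow_left (show Commute x b from hb.symm) i)
    | zero => simp
    | add y z _ _ hy hz =>
      rw [Submodule.coe_add, add_mul, mul_add, hy, hz]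
    | smul c z _ hz =>
      rw [Submodule.coe_smul, smul_mul_assoc, mul_smul_comm, hz]
  exact key _ hmem

theorem comm_tensor {F D K : Type*} [Field F] [DivisionRing D] [Algebra F D] [Field K]
    [Algebra F K] [FiniteDimensional F K] {n : ℕ} (hn : n.Prime)
    (hcen : ∀ x : D, (∀ y, x * y = y * x) → ∃ c : F, algebraMap F D c = x)
    (hdim : Module.finrank F D = n ^ 2) {x : D} (hx : ∀ c : F, x ≠ algebraMap F D c)
    {a b : D ⊗[F] K} (ha : a * (x ⊗ₜ 1) = (x ⊗ₜ 1) * a) (hb : b * (x ⊗ₜ 1) = (x ⊗ₜ 1) * b) :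
    a * b = b * a := by
  set e := Module.finBasis F K
  have ha' : ∀ i, t2_phi (e.coord i) a * x = x * t2_phi (e.coord i) a := by
    intro i
    rw [← t2_phi_mul_right, ha, t2_phi_mul_left]
  have hb' : ∀ i, t2_phi (e.coord i) b * x = x * t2_phi (e.coord i) b := by
    intro i
    rw [← t2_phi_mul_right, hb, t2_phi_mul_left]
  rw [t2_rep e a, t2_rep e b, Finset.sum_mul_sum, Finset.sum_mul_sum, Finset.sum_comm]
  refine Finset.sum_congr rfl (fun i _ => Finset.sum_congr rfl (fun j _ => ?_))
  rw [Algebra.TensorProduct.tmul_mul_tmul, Algebra.TensorProduct.tmul_mul_tmul,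
    comm_D hn hcen hdim hx (ha' j) (hb' i), mul_comm (e j) (e i)]

universe u

theorem exists_cyclotomic {n : ℕ} (hn : n.Prime) (F : Type u) [Field F] (h5 : (n : F) ≠ 0) :
    ∃ (K : Type u) (_ : Field K) (_ : Algebra F K) (_ : FiniteDimensional F K) (s : K ≃ₐ[F] K)
      (ζ : K) (m k : ℕ), m = Module.finrank F K ∧ 0 < m ∧ m ∣ n - 1 ∧ ζ ^ n = 1 ∧ ζ ≠ 1 ∧
      s ζ = ζ ^ k ∧ s ^ m = 1 ∧ (k : ZMod n) ^ m = 1 ∧
      (∀ j, 0 < j → j < m → (k : ZMod n) ^ j ≠ 1) ∧
      ∀ κ : K, s κ = κ → ∃ c : F, κ = algebraMap F K c := by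
  have hp : Fact (Nat.Prime n) := ⟨hn⟩
  have hne : NeZero ((n : ℕ) : F) := ⟨h5⟩
  have hfd : FiniteDimensional F (CyclotomicField n F) :=
    IsCyclotomicExtension.finiteDimensional {n} F (CyclotomicField n F)
  have hgal : IsGalois F (CyclotomicField n F) :=
    IsCyclotomicExtension.isGalois {n} F (CyclotomicField n F)
  have hζ := IsCyclotomicExtension.zeta_spec n F (CyclotomicField n F)
  have hinj : Function.Injective (hζ.autToPow F) := hζ.autToPow_injective F
  have hcyc : IsCyclic (CyclotomicField n F ≃ₐ[F] CyclotomicField n F) :=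
    isCyclic_of_injective _ hinj
  obtain ⟨s, hs⟩ := hcyc.exists_generator
  have hord : orderOf s = Module.finrank F (CyclotomicField n F) := by
    rw [orderOf_eq_card_of_forall_mem_zpowers hs, IsGalois.card_aut_eq_finrank]
  have hm0 : 0 < Module.finrank F (CyclotomicField n F) := Module.finrank_pos
  have hunit : ((hζ.autToPow F s : (ZMod n)ˣ) : ZMod n) =
      (((hζ.autToPow F s : (ZMod n)ˣ) : ZMod n).val : ZMod n) := by
    rw [ZMod.natCast_zmod_val]
  have hpow : ∀ j : ℕ, ((((hζ.autToPow F s : (ZMod n)ˣ) : ZMod n).val : ZMod n)) ^ j = 1 ↔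
      s ^ j = 1 := by
    intro j
    rw [← hunit, ← Units.val_pow_eq_pow_val, ← map_pow, Units.val_eq_one]
    constructor
    · intro h
      exact hinj (h.trans (map_one _).symm)
    · intro h
      rw [h, map_one]
  refine ⟨CyclotomicField n F, inferInstance, inferInstance, hfd, s,
    IsCyclotomicExtension.zeta n F (CyclotomicField n F), Module.finrank F (CyclotomicField n F),
    ((hζ.autToPow F s : (ZMod n)ˣ) : ZMod n).val, rfl, hm0, ?_, hζ.pow_eq_one,
    hζ.ne_one hn.one_lt, ?_, ?_, ?_, ?_, ?_⟩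
  · rw [← hord, ← orderOf_injective _ hinj s]
    have h := orderOf_dvd_card (x := hζ.autToPow F s)
    rwa [ZMod.card_units_eq_totient, Nat.totient_prime hp.out] at h
  · exact (hζ.autToPow_spec F s).symm
  · rw [← hord]
    exact pow_orderOf_eq_one s
  · rw [hpow, ← hord]
    exact pow_orderOf_eq_one s
  · intro j hj hjm h
    rw [hpow] at h
    rw [← hord] at hjm
    exact absurd (Nat.le_of_dvd hj (orderOf_dvd_of_pow_eq_one h)) (not_le.2 hjm)
  · intro κ hκ
    have hfix : ∀ f : CyclotomicField n F ≃ₐ[F] CyclotomicField n F, f κ = κ := by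
      intro f
      have hle : Subgroup.zpowers s ≤ MulAction.stabilizer
          (CyclotomicField n F ≃ₐ[F] CyclotomicField n F) κ := by
        rw [Subgroup.zpowers_le]
        exact hκ
      exact hle (hs f)
    obtain ⟨c, hc⟩ := (IsGalois.mem_range_algebraMap_iff_fixed κ).2 hfix
    exact ⟨c, hc.symm⟩

theorem t4_core {n : ℕ} (hn : n.Prime) {A : Type*} [Ring A] [Nontrivial A] (hinv : ∀ a : A, a ≠ 0 → ∃ b, b * a = 1)
    (τ : A ≃+* A) (ζ u : A) (m k : ℕ) (hm : 0 < m) (hmp : m < n) (hk : (k : ZMod n) ^ m = 1)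
    (hkj : ∀ j, 0 < j → j < m → (k : ZMod n) ^ j ≠ 1) (pne : ((n : ℕ) : A) ≠ 0)
    (ζc : ∀ b, ζ * b = b * ζ) (ζp : ζ ^ n = 1) (ζ1 : ζ ≠ 1) (u0 : u ≠ 0)
    (up : ∀ b, u ^ n * b = b * u ^ n) (unc : ¬ ∀ b, u * b = b * u)
    (τm : ∀ a, (τ ^ m) a = a) (τζ : τ ζ = ζ ^ k) (τu : τ u = u)
    (comm : ∀ a b : A, a * u = u * a → b * u = u * b → a * b = b * a) :
    ∃ w v : A, τ w = w ∧ u * w ≠ w * u ∧ v * u = 1 ∧ (u * w * v) * w = w * (u * w * v) := by
  have hU : ∀ a : A, IsUnit a ∨ a = 0 := by
    intro a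
    by_cases ha : a = 0
    · exact Or.inr ha
    · left
      obtain ⟨b, hb⟩ := hinv a ha
      have hb0 : b ≠ 0 := by
        rintro rfl
        rw [zero_mul] at hb
        exact zero_ne_one hb
      obtain ⟨c, hc⟩ := hinv b hb0
      have hca : c = a := by
        calc c = c * (b * a) := by rw [hb, mul_one]
          _ = (c * b) * a := by rw [mul_assoc]
          _ = a := by rw [hc, one_mul]
      rw [hca] at hc
      exact ⟨⟨a, b, hc, hb⟩, rfl⟩
  letI : DivisionRing A := DivisionRing.ofIsUnitOrEqZero hU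
  have h : AD n m k τ ζ u :=
    { hp := hn
      hm := hm
      hmp := hmp
      hk := hk
      hkj := hkj
      pne := pne
      ζc := ζc
      ζp := ζp
      ζ1 := ζ1
      u0 := u0
      up := up
      unc := unc
      τm := τm
      τζ := τζ
      τu := τu
      comm := comm }
  obtain ⟨w, h1, h2, h3⟩ := exists_w h
  exact ⟨w, u⁻¹, h1, h2, inv_mul_cancel₀ u0, h3⟩

theorem albert_ne {n : ℕ} (hn : n.Prime) {F D : Type*} [Field F] [DivisionRing D] [Algebra F D]
    (h5 : (n : F) ≠ 0)
    (hcen : ∀ x : D, (∀ y, x * y = y * x) → ∃ c : F, algebraMap F D c = x)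
    (hdim : Module.finrank F D = n ^ 2) {u : D} (hu : ∀ c : F, u ≠ algebraMap F D c)
    (hu5 : ∃ c : F, u ^ n = algebraMap F D c) :
    ∃ w : D, u * w ≠ w * u ∧ (u * w * u⁻¹) * w = w * (u * w * u⁻¹) := by
  obtain ⟨K, _, _, _, s, ζ, m, k, hm, hm0, hm4, hζ5, hζ1, hsζ, hsm, hkm, hkj, hfix⟩ :=
    exists_cyclotomic hn F h5
  have hn1 : 1 < n := hn.one_lt
  haveI : FiniteDimensional F D := FiniteDimensional.of_finrank_pos (by rw [hdim]; positivity)
  have hmn : m < n := lt_of_le_of_lt (Nat.le_of_dvd (by omega) hm4) (by omega)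
  have hcop : (Module.finrank F K).Coprime (Module.finrank F D) := by
    rw [hdim, ← hm]
    refine Nat.Coprime.pow_right 2 (Nat.Coprime.symm ?_)
    exact (Nat.Prime.coprime_iff_not_dvd hn).mpr (Nat.not_dvd_of_pos_of_lt hm0 hmn)
  have hfr : Module.finrank F (D ⊗[F] K) = n ^ 2 * m := by
    rw [Module.finrank_tensorProduct, hdim, ← hm]
  haveI : Nontrivial (D ⊗[F] K) := by
    by_contra hnt
    rw [not_nontrivial_iff_subsingleton] at hnt
    have := Module.finrank_zero_of_subsingleton (R := F) (M := D ⊗[F] K)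
    rw [hfr] at this
    have h1 : 0 < n ^ 2 * m := by positivity
    omega
  have hinjL : Function.Injective (Algebra.TensorProduct.includeLeft : D →ₐ[F] D ⊗[F] K) :=
    (Algebra.TensorProduct.includeLeft : D →ₐ[F] D ⊗[F] K).toRingHom.injective
  have hinj : ∀ x y : D, x ⊗ₜ[F] (1 : K) = y ⊗ₜ[F] (1 : K) → x = y := fun x y hxy => hinjL hxy
  have hu0 : u ≠ 0 := by
    intro h0
    apply hu 0
    rw [h0, map_zero]
  have hu'0 : u ⊗ₜ[F] (1 : K) ≠ 0 := by
    intro h0
    apply hu0
    apply hinj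
    rw [h0, TensorProduct.zero_tmul]
  have hinjR : Function.Injective (Algebra.TensorProduct.includeRight : K →ₐ[F] D ⊗[F] K) :=
    (Algebra.TensorProduct.includeRight : K →ₐ[F] D ⊗[F] K).toRingHom.injective
  obtain ⟨c5, hc5⟩ := hu5
  obtain ⟨w, v, h1, h2, h3, h4⟩ := t4_core hn (A := D ⊗[F] K)
    (fun a ha => exists_left_inv hcop a ha)
    (Algebra.TensorProduct.congr (AlgEquiv.refl : D ≃ₐ[F] D) s).toRingEquiv
    ((1 : D) ⊗ₜ[F] ζ) (u ⊗ₜ[F] (1 : K)) m k hm0
    hmn hkm hkj
    (by
      intro h0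
      apply h5
      have e1 : algebraMap F (D ⊗[F] K) n = 0 := by
        rw [map_natCast, h0]
      exact (map_eq_zero_iff _ (algebraMap F (D ⊗[F] K)).injective).1 e1)
    (by
      intro b
      induction b using TensorProduct.induction_on with
      | zero => rw [mul_zero, zero_mul]
      | tmul x y =>
        rw [Algebra.TensorProduct.tmul_mul_tmul, Algebra.TensorProduct.tmul_mul_tmul, one_mul,
          mul_one, mul_comm]
      | add x y hx hy => rw [mul_add, add_mul, hx, hy])
    (by rw [Algebra.TensorProduct.tmul_pow, one_pow, hζ5]; rfl)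
    (by
      intro h0
      apply hζ1
      exact hinjR h0)
    hu'0
    (by
      intro b
      have : (u ⊗ₜ[F] (1 : K)) ^ n = algebraMap F (D ⊗[F] K) c5 := by
        rw [Algebra.TensorProduct.tmul_pow, one_pow, hc5]
        rfl
      rw [this]
      exact Algebra.commutes c5 b)
    (by
      intro hall
      obtain ⟨c, hc⟩ := hcen u (by
        intro y
        apply hinj
        have := hall (y ⊗ₜ[F] (1 : K))
        rwa [Algebra.TensorProduct.tmul_mul_tmul, Algebra.TensorProduct.tmul_mul_tmul,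
          one_mul] at this)
      exact hu c hc.symm)
    (by
      have key : ∀ (j : ℕ) (x : D) (y : K),
          ((Algebra.TensorProduct.congr (AlgEquiv.refl : D ≃ₐ[F] D) s).toRingEquiv ^ j)
            (x ⊗ₜ[F] y) = x ⊗ₜ[F] ((s ^ j) y) := by
        intro j
        induction j with
        | zero =>
          intro x y
          rfl
        | succ j ih =>
          intro x y
          rw [pow_succ', pow_succ']
          change (Algebra.TensorProduct.congr (AlgEquiv.refl : D ≃ₐ[F] D) s).toRingEquiv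
            (((Algebra.TensorProduct.congr (AlgEquiv.refl : D ≃ₐ[F] D) s).toRingEquiv ^ j)
              (x ⊗ₜ[F] y)) = x ⊗ₜ[F] (s ((s ^ j) y))
          rw [ih]
          rfl
      intro a
      induction a using TensorProduct.induction_on with
      | zero => exact map_zero _
      | tmul x y =>
        rw [key, hsm]
        rfl
      | add x y hx hy => rw [map_add, hx, hy])
    (by
      change (1 : D) ⊗ₜ[F] (s ζ) = _
      rw [Algebra.TensorProduct.tmul_pow, one_pow, hsζ])
    (by
      change u ⊗ₜ[F] (s 1) = _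
      rw [map_one])
    (fun a b ha hb => comm_tensor hn hcen hdim hu ha hb)
  obtain ⟨d, hd⟩ := fixed_tensor s hfix (a := w) h1
  have hv : v = u⁻¹ ⊗ₜ[F] (1 : K) := by
    have e1 : (u ⊗ₜ[F] (1 : K)) * (u⁻¹ ⊗ₜ[F] (1 : K)) = 1 := by
      rw [Algebra.TensorProduct.tmul_mul_tmul, mul_inv_cancel₀ hu0, one_mul]
      rfl
    calc v = v * ((u ⊗ₜ[F] (1 : K)) * (u⁻¹ ⊗ₜ[F] (1 : K))) := by rw [e1, mul_one]
      _ = _ := by rw [← mul_assoc, h3, one_mul]
  refine ⟨d, ?_, ?_⟩
  · intro hcomm
    apply h2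
    rw [hd, Algebra.TensorProduct.tmul_mul_tmul, Algebra.TensorProduct.tmul_mul_tmul, hcomm]
  · apply hinj
    rw [hd, hv] at h4
    simpa only [Algebra.TensorProduct.tmul_mul_tmul, one_mul, mul_one] using h4

theorem t6_gal {F L : Type*} [Field F] [Field L] [Algebra F L] {n : ℕ} (hn : n.Prime)
    (h5 : Module.finrank F L = n) (s : L →ₐ[F] L) {w : L} (hw : s w ≠ w)
    (hs : ∀ x, (s^[n]) x = x) : IsGalois F L ∧ IsCyclic (L ≃ₐ[F] L) := by
  haveI : FiniteDimensional F L := Module.finite_of_finrank_pos (by rw [h5]; exact hn.pos)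
  have hinj : Function.Injective s := s.toRingHom.injective
  have hsurj : Function.Surjective s := LinearMap.surjective_of_injective (f := s.toLinearMap) hinj
  let t : L ≃ₐ[F] L := AlgEquiv.ofBijective s ⟨hinj, hsurj⟩
  have ht : ∀ x, t x = s x := fun _ => rfl
  have ht1 : t ≠ 1 := by
    intro h
    apply hw
    rw [← ht, h]
    rfl
  have htk : ∀ (k : ℕ) (x : L), (t ^ k) x = (s^[k]) x := by
    intro k x
    induction k with
    | zero => rfl
    | succ k ih =>
      rw [pow_succ', Function.iterate_succ_apply']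
      show t ((t ^ k) x) = _
      rw [ih, ht]
  have ht5 : t ^ n = 1 := by
    ext x
    rw [htk, hs]
    rfl
  haveI : Fact (Nat.Prime n) := ⟨hn⟩
  have hord : orderOf t = n := orderOf_eq_prime ht5 ht1
  have hle : Fintype.card (L ≃ₐ[F] L) ≤ n := by
    rw [← h5]
    exact AlgEquiv.card_le
  have hdv : n ∣ Fintype.card (L ≃ₐ[F] L) := by
    rw [← hord]
    exact orderOf_dvd_card
  have hpos : 0 < Fintype.card (L ≃ₐ[F] L) := Fintype.card_pos
  have hc : Fintype.card (L ≃ₐ[F] L) = n := le_antisymm hle (Nat.le_of_dvd hpos hdv)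
  have hc' : Nat.card (L ≃ₐ[F] L) = n := by rw [Nat.card_eq_fintype_card, hc]
  have hG : IsGalois F L := IsGalois.of_card_aut_eq_finrank F L (by rw [hc', h5])
  exact ⟨hG, isCyclic_of_prime_card hc'⟩

theorem exists_cyclic {F D : Type*} [Field F] [DivisionRing D] [Algebra F D] {n : ℕ}
    (hn : n.Prime) (hcen : ∀ x : D, (∀ y, x * y = y * x) → ∃ c : F, algebraMap F D c = x)
    (hdim : Module.finrank F D = n ^ 2) {u w : D}
    (hu5 : ∃ c : F, u ^ n = algebraMap F D c) (huw : u * w ≠ w * u)
    (hw : (u * w * u⁻¹) * w = w * (u * w * u⁻¹)) :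
    ∃ (L : Subalgebra F D) (hL : IsField L),
      Module.finrank F L = n ∧ w ∈ L ∧ (∀ x ∈ L, u * x * u⁻¹ ∈ L) ∧
      (letI := hL.toField; IsGalois F L ∧ IsCyclic (L ≃ₐ[F] L)) := by
  have hn1 : 1 < n := hn.one_lt
  have : FiniteDimensional F D := Module.finite_of_finrank_pos (by rw [hdim]; positivity)
  have hu0 : u ≠ 0 := by
    rintro rfl
    exact huw (by simp)
  have hui : u⁻¹ * u = 1 := inv_mul_cancel₀ hu0
  have huj : u * u⁻¹ = 1 := mul_inv_cancel₀ hu0
  have hwF : ∀ c : F, w ≠ algebraMap F D c := by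
    rintro c rfl
    exact huw (Algebra.commutes c u).symm
  have hvF : ∀ c : F, u * w * u⁻¹ ≠ algebraMap F D c := by
    intro c hc
    apply hwF c
    have : w = u⁻¹ * (u * w * u⁻¹) * u := by
      rw [show u⁻¹ * (u * w * u⁻¹) * u = (u⁻¹ * u) * w * (u⁻¹ * u) by simp only [mul_assoc], hui]
      simp
    rw [this, hc, ← Algebra.commutes, mul_assoc, hui, mul_one]
  let L : Subalgebra F D := Subalgebra.centralizer F {w}
  have hmem : ∀ x : D, x ∈ L ↔ w * x = x * w := by
    intro x
    simp [L, Subalgebra.mem_centralizer_iff]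
  have hwL : w ∈ L := (hmem w).2 rfl
  have hcomm : ∀ x ∈ L, ∀ y ∈ L, x * y = y * x := fun x hx y hy =>
    comm_D hn hcen hdim hwF ((hmem x).1 hx).symm ((hmem y).1 hy).symm
  have hconj : ∀ x ∈ L, u * x * u⁻¹ ∈ L := by
    intro x hx
    rw [hmem]
    have hx' := (hmem x).1 hx
    have h1 : (u * x * u⁻¹) * (u * w * u⁻¹) = (u * w * u⁻¹) * (u * x * u⁻¹) := by
      rw [show (u * x * u⁻¹) * (u * w * u⁻¹) = u * x * (u⁻¹ * u) * w * u⁻¹ by
        simp only [mul_assoc], show (u * w * u⁻¹) * (u * x * u⁻¹) = u * w * (u⁻¹ * u) * x * u⁻¹ by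
        simp only [mul_assoc], hui]
      simp only [mul_one]
      rw [mul_assoc u x w, mul_assoc u w x, hx']
    exact (comm_D hn hcen hdim hvF h1 hw.symm).symm
  have hL : IsField L := by
    refine ⟨⟨0, 1, zero_ne_one⟩, ?_, ?_⟩
    · intro x y
      exact Subtype.ext (hcomm x x.2 y y.2)
    · intro a ha
      have ha0 : (a : D) ≠ 0 := fun h => ha (Subtype.ext h)
      refine ⟨⟨(a : D)⁻¹, ?_⟩, ?_⟩
      · rw [hmem]
        have h1 := (hmem a).1 a.2
        calc w * (a : D)⁻¹ = (a : D)⁻¹ * ((a : D) * w) * (a : D)⁻¹ := by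
              rw [← mul_assoc, inv_mul_cancel₀ ha0, one_mul]
          _ = (a : D)⁻¹ * w := by
              rw [← h1, mul_assoc, mul_assoc, mul_inv_cancel₀ ha0, mul_one]
      · apply Subtype.ext
        exact mul_inv_cancel₀ ha0
  have hdv : Module.finrank F L ∣ n ^ 2 := by
    letI := hL.toField
    have := t6_dvd (F := F) (D := D) (K := L) L.val
    rwa [hdim] at this
  have h5 : Module.finrank F L = n := by
    rcases dvd_sq hn hdv with h | h | h
    · exfalso
      have hbot : L = ⊥ := Subalgebra.eq_bot_of_finrank_one h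
      rw [hbot] at hwL
      obtain ⟨c, hc⟩ := Algebra.mem_bot.1 hwL
      exact hwF c hc.symm
    · exact h
    · exfalso
      have htop : Subalgebra.toSubmodule L = ⊤ := by
        apply Submodule.eq_top_of_finrank_eq
        rw [hdim]
        exact h
      have hu : u ∈ Subalgebra.toSubmodule L := by rw [htop]; trivial
      exact huw ((hmem u).1 hu).symm
  refine ⟨L, hL, h5, hwL, hconj, ?_⟩
  obtain ⟨c, hc⟩ := hu5
  let s : L →ₐ[F] L :=
    { toFun := fun x => ⟨u * x * u⁻¹, hconj x x.2⟩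
      map_one' := Subtype.ext (by simp [huj])
      map_mul' := fun x y => Subtype.ext (by
        show u * ((x : D) * y) * u⁻¹ = (u * x * u⁻¹) * (u * y * u⁻¹)
        rw [show (u * (x : D) * u⁻¹) * (u * y * u⁻¹) = u * x * (u⁻¹ * u) * y * u⁻¹ by
          simp only [mul_assoc], hui]
        simp only [mul_one, mul_assoc])
      map_zero' := Subtype.ext (by simp)
      map_add' := fun x y => Subtype.ext (by
        show u * ((x : D) + y) * u⁻¹ = u * x * u⁻¹ + u * y * u⁻¹
        rw [mul_add, add_mul])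
      commutes' := fun r => Subtype.ext (by
        show u * algebraMap F D r * u⁻¹ = algebraMap F D r
        rw [← Algebra.commutes, mul_assoc, huj, mul_one]) }
  have hs : ∀ x : L, ((s x : L) : D) = u * x * u⁻¹ := fun _ => rfl
  have hsk : ∀ (k : ℕ) (x : L), (((s^[k]) x : L) : D) = u ^ k * x * (u⁻¹) ^ k := by
    intro k x
    induction k with
    | zero => simp
    | succ k ih =>
      rw [Function.iterate_succ_apply', hs, ih, pow_succ' u k, pow_succ (u⁻¹) k]
      simp only [mul_assoc]
  have hs5 : ∀ x : L, (s^[n]) x = x := by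
    intro x
    apply Subtype.ext
    rw [hsk, hc, Algebra.commutes, ← hc, mul_assoc, inv_pow,
      mul_inv_cancel₀ (pow_ne_zero n hu0), mul_one]
  have hsw : s ⟨w, hwL⟩ ≠ ⟨w, hwL⟩ := by
    intro h
    have h1 := congrArg (fun y : L => (y : D)) h
    have h2 : u * w * u⁻¹ = w := h1
    apply huw
    calc u * w = (u * w * u⁻¹) * u := by rw [mul_assoc, hui, mul_one]
      _ = w * u := by rw [h2]
  letI := hL.toField
  exact t6_gal (F := F) (L := L) hn h5 s (w := ⟨w, hwL⟩) hsw hs5

end Pool.Agent.Helper41.CF.Alb
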