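import Mathlib

/-!
# Crystallographic frames (project CF, MP_5d2531_al): definitions

`L` is a field with a primitive `n`-th root of unity `z`.  We avoid the Brauer group: that the
product of the symbol algebras `(a_i, b_i)` (and of the algebra `A`) splits is expressed by
operators on a vector space of the right dimension.
-/

set_option autoImplicit false

namespace Pool.Agent.Helper41.CF

universe u v

/-- `w = (x, y)` is a frame of type `p = (a, b)`: `x ^ n = a`, `y ^ n = b`, `x y = z y x`. -/
structure IsFr {L : Type u} [Field L] {E : Type v} [Ring E] [Algebra L E] (n : ℕ) (z : L)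
    (p : Lˣ × Lˣ) (w : E × E) : Prop where
  pow_fst : w.1 ^ n = algebraMap L E p.1
  pow_snd : w.2 ^ n = algebraMap L E p.2
  comm : w.1 * w.2 = z • (w.2 * w.1)

/-- the entries of `w` commute with the entries of `w'` -/
def Com {E : Type v} [Mul E] (w w' : E × E) : Prop :=
  Commute w.1 w'.1 ∧ Commute w.1 w'.2 ∧ Commute w.2 w'.1 ∧ Commute w.2 w'.2

/-- The `F`-algebra `A`, together with the symbols `(a_i, b_i)_n` of the list `l`, splits over `L`:
there is an `L`-vector space of dimension `N * n ^ l.length` on which `A` acts and on which the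
symbol algebras act, all these actions commuting with each other.  (`N` is the degree of `A`.) -/
def Spl (n : ℕ) {L : Type u} [Field L] (z : L) (F : Type u) [Field F] [Algebra F L]
    (A : Type u) [Ring A] [Algebra F A] (N : ℕ) (l : List (Lˣ × Lˣ)) : Prop :=
  ∃ (V : Type u) (_ : AddCommGroup V) (_ : Module L V) (ρ : A →+* Module.End L V)
    (w : List (Module.End L V × Module.End L V)),
    Module.Finite L V ∧
    (∀ c : F, ρ (algebraMap F A c) = algebraMap L (Module.End L V) (algebraMap F L c)) ∧
    Module.finrank L V = N * n ^ l.length ∧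
    List.Forall₂ (IsFr n z) l w ∧ w.Pairwise Com ∧
    ∀ p ∈ w, ∀ a : A, Commute p.1 (ρ a) ∧ Commute p.2 (ρ a)

/-- the product of the symbols of the list `l` splits over `L` -/
def Sp (n : ℕ) {L : Type u} [Field L] (z : L) (l : List (Lˣ × Lˣ)) : Prop := Spl n z L L 1 l

/-- `s` is a Steinberg symbol on the field `E` with values in a group, killed by `n`. -/
structure IsSymb {E : Type u} [Field E] {Q : Type v} [AddCommGroup Q] (n : ℕ)
    (s : Eˣ → Eˣ → Q) : Prop where
  mul_left : ∀ a a' b, s (a * a') b = s a b + s a' b
  mul_right : ∀ a b b', s a (b * b') = s a b + s a b'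
  stein : ∀ a b : Eˣ, (a : E) + b = 1 → s a b = 0
  tors : ∀ a b, n • s a b = 0

end Pool.Agent.Helper41.CF
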