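import Mathlib
import Pool.Agent.Helper41.CF.Defs

/-!
# Steinberg symbols killed by an odd number: basic rules
-/

set_option autoImplicit false

namespace Pool.Agent.Helper41.CF

universe u v

namespace IsSymb

variable {E : Type u} [Field E] {Q : Type v} [AddCommGroup Q] {n : ℕ} {s : Eˣ → Eˣ → Q}

theorem one_left (hs : IsSymb n s) (b : Eˣ) : s 1 b = 0 := by
  have := hs.mul_left 1 1 b
  simpa using this

theorem one_right (hs : IsSymb n s) (a : Eˣ) : s a 1 = 0 := by
  have := hs.mul_right a 1 1
  simpa using this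

theorem inv_left (hs : IsSymb n s) (a b : Eˣ) : s a⁻¹ b = -s a b := by
  have := hs.mul_left a⁻¹ a b
  rw [inv_mul_cancel, hs.one_left] at this
  exact eq_neg_of_add_eq_zero_left this.symm

theorem inv_right (hs : IsSymb n s) (a b : Eˣ) : s a b⁻¹ = -s a b := by
  have := hs.mul_right a b⁻¹ b
  rw [inv_mul_cancel, hs.one_right] at this
  exact eq_neg_of_add_eq_zero_left this.symm

theorem div_left (hs : IsSymb n s) (a a' b : Eˣ) : s (a / a') b = s a b - s a' b := by
  rw [div_eq_mul_inv, hs.mul_left, hs.inv_left, sub_eq_add_neg]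

theorem div_right (hs : IsSymb n s) (a b b' : Eˣ) : s a (b / b') = s a b - s a b' := by
  rw [div_eq_mul_inv, hs.mul_right, hs.inv_right, sub_eq_add_neg]

theorem pow_left (hs : IsSymb n s) (a b : Eˣ) (k : ℕ) : s (a ^ k) b = k • s a b := by
  induction k with
  | zero => simpa using hs.one_left b
  | succ k ih => rw [pow_succ, hs.mul_left, ih, succ_nsmul]

theorem pow_right (hs : IsSymb n s) (a b : Eˣ) (k : ℕ) : s a (b ^ k) = k • s a b := by
  induction k with
  | zero => simpa using hs.one_right a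
  | succ k ih => rw [pow_succ, hs.mul_right, ih, succ_nsmul]

theorem zpow_left (hs : IsSymb n s) (a b : Eˣ) (k : ℤ) : s (a ^ k) b = k • s a b := by
  cases k with
  | ofNat k => simpa using hs.pow_left a b k
  | negSucc k => rw [zpow_negSucc, hs.inv_left, hs.pow_left, negSucc_zsmul]

theorem zpow_right (hs : IsSymb n s) (a b : Eˣ) (k : ℤ) : s a (b ^ k) = k • s a b := by
  cases k with
  | ofNat k => simpa using hs.pow_right a b k
  | negSucc k => rw [zpow_negSucc, hs.inv_right, hs.pow_right, negSucc_zsmul]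

theorem eq_zero_of_two (hs : IsSymb n s) (hn : Odd n) {a b : Eˣ} (h : (2 : ℕ) • s a b = 0) :
    s a b = 0 := by
  obtain ⟨k, rfl⟩ := hn
  have h1 := hs.tors a b
  rw [add_smul, mul_smul, smul_comm, h, smul_zero, zero_add, one_smul] at h1
  exact h1

theorem neg_one_left (hs : IsSymb n s) (hn : Odd n) (b : Eˣ) : s (-1) b = 0 := by
  refine hs.eq_zero_of_two hn ?_
  rw [← hs.pow_left]
  simpa using hs.one_left b

theorem neg_one_right (hs : IsSymb n s) (hn : Odd n) (a : Eˣ) : s a (-1) = 0 := by
  refine hs.eq_zero_of_two hn ?_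
  rw [← hs.pow_right]
  simpa using hs.one_right a

theorem neg_left (hs : IsSymb n s) (hn : Odd n) (a b : Eˣ) : s (-a) b = s a b := by
  rw [← neg_one_mul, hs.mul_left, hs.neg_one_left hn, zero_add]

theorem neg_right (hs : IsSymb n s) (hn : Odd n) (a b : Eˣ) : s a (-b) = s a b := by
  rw [← neg_one_mul, hs.mul_right, hs.neg_one_right hn, zero_add]

theorem self (hs : IsSymb n s) (hn : Odd n) (a : Eˣ) : s a a = 0 := by
  by_cases ha : a = 1
  · rw [ha, hs.one_left]
  have h1 : (1 : E) - a ≠ 0 := fun h => ha (Units.ext (sub_eq_zero.mp h).symm)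
  have h2 : (1 : E) - (a⁻¹ : Eˣ) ≠ 0 := fun h => by
    have := (Units.ext (sub_eq_zero.mp h).symm : a⁻¹ = 1)
    exact ha (by simpa using this)
  have h3 : s a (Units.mk0 _ h1) = 0 := hs.stein _ _ (by simp)
  have h4 : s a⁻¹ (Units.mk0 _ h2) = 0 := hs.stein _ _ (by simp)
  rw [hs.inv_left, neg_eq_zero] at h4
  have h5 : -a = Units.mk0 _ h1 / Units.mk0 _ h2 := by
    rw [eq_div_iff_mul_eq']
    ext
    simp only [Units.val_mul, Units.val_neg, Units.val_mk0, Units.val_inv_eq_inv_val]
    field_simp
    ring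
  rw [← hs.neg_right hn, h5, hs.div_right, h3, h4, sub_zero]

theorem anti (hs : IsSymb n s) (hn : Odd n) (a b : Eˣ) : s b a = -s a b := by
  have h1 := hs.self hn (a * b)
  rw [hs.mul_left, hs.mul_right, hs.mul_right, hs.self hn, hs.self hn, zero_add, add_zero] at h1
  exact eq_neg_of_add_eq_zero_right h1

/-- The Steinberg relation in homogeneous form. -/
theorem stein3 (hs : IsSymb n s) (hn : Odd n) {a b c : Eˣ} (h : (a : E) + b = c) :
    s a b - s a c - s c b = 0 := by
  have h1 : s (a / c) (b / c) = 0 := by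
    refine hs.stein _ _ ?_
    rw [Units.val_div_eq_div_val, Units.val_div_eq_div_val, ← add_div, h]
    exact div_self c.ne_zero
  rw [hs.div_left, hs.div_right, hs.div_right, hs.self hn] at h1
  rw [← h1]
  abel

end IsSymb

end Pool.Agent.Helper41.CF
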