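import Mathlib
import Pool.Agent.Helper41.CF.Symb

/-!
# A universal identity for `{x, y} + {y, z} + {z, x}`
-/

set_option autoImplicit false

namespace Pool.Agent.Helper41.CF

universe u v

/-- the auxiliary quantities of the cubic identity -/
structure Cub {E : Type u} [Field E] (x y z A B C Q U V : Eˣ) : Prop where
  hA : (A : E) = x - y
  hB : (B : E) = y - z
  hC : (C : E) = z - x
  hQ : (Q : E) = (x : E) ^ 2 + y ^ 2 + z ^ 2 - x * y - y * z - z * x
  hU : (U : E) = (x : E) ^ 2 * y + y ^ 2 * z + z ^ 2 * x - 3 * x * y * z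
  hV : (V : E) = (x : E) * y ^ 2 + y * z ^ 2 + z * x ^ 2 - 3 * x * y * z

theorem Cub.rot {E : Type u} [Field E] {x y z A B C Q U V : Eˣ} (h : Cub x y z A B C Q U V) :
    Cub y z x B C A Q U V :=
  ⟨h.hB, h.hC, h.hA, by rw [h.hQ]; ring, by rw [h.hU]; ring, by rw [h.hV]; ring⟩

namespace IsSymb

variable {E : Type u} [Field E] {Q' : Type v} [AddCommGroup Q'] {n : ℕ} {s : Eˣ → Eˣ → Q'}

theorem cub_step (hs : IsSymb n s) (hn : Odd n) {x y z A B C Q U V : Eˣ}
    (h : Cub x y z A B C Q U V) :
    s x y - (s x U + s Q U - s A U - s A U - s C U) -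
      (s A V + s C V + s C V - s x V - s Q V) + s y A - s x C + s Q A - s Q C = 0 := by
  have e1 := hs.stein3 hn (a := y) (b := A) (c := x) (by rw [h.hA]; ring)
  have e2 := hs.stein3 hn (a := x * Q) (b := -U) (c := -(A ^ 2 * C))
    (by push_cast; rw [h.hA, h.hC, h.hQ, h.hU]; ring)
  have e3 := hs.stein3 hn (a := A * C ^ 2) (b := V) (c := x * Q)
    (by push_cast; rw [h.hA, h.hC, h.hQ, h.hV]; ring)
  simp only [hs.neg_right hn, hs.neg_left hn, hs.mul_left, hs.mul_right, hs.pow_left,
    hs.pow_right] at e2 e3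
  rw [hs.anti hn x y] at e1
  rw [hs.anti hn x A, hs.anti hn Q A, hs.anti hn x C, hs.anti hn Q C] at e3
  linear_combination (norm := module) e1 - e2 - e3

/-- the cubic identity -/
theorem cub_identity (hs : IsSymb n s) (hn : Odd n) {x y z A B C Q U V : Eˣ}
    (h : Cub x y z A B C Q U V) :
    s x y + s y z + s z x = s (x * y * z * Q ^ 3 / (A * B * C) ^ 3) (U / V) := by
  have h1 := hs.cub_step hn h
  have h2 := hs.cub_step hn h.rot
  have h3 := hs.cub_step hn h.rot.rot
  simp only [hs.div_left, hs.div_right, hs.mul_left, hs.pow_left]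
  linear_combination (norm := module) h1 + h2 + h3

theorem cub_cases (hs : IsSymb n s) (hn : Odd n) (h3 : Nat.Coprime 3 n) (x y z : Eˣ) :
    s x y + s y z + s z x = 0 ∨ ∃ A B C Q U V : Eˣ, Cub x y z A B C Q U V := by
  by_cases hA : (x : E) - y = 0
  · left
    have : x = y := Units.ext (sub_eq_zero.mp hA)
    rw [this, hs.self hn, hs.anti hn y z]
    abel
  by_cases hB : (y : E) - z = 0
  · left
    have : y = z := Units.ext (sub_eq_zero.mp hB)
    rw [this, hs.self hn, hs.anti hn x z]
    abel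
  by_cases hC : (z : E) - x = 0
  · left
    have : z = x := Units.ext (sub_eq_zero.mp hC)
    rw [this, hs.self hn, hs.anti hn x y]
    abel
  obtain ⟨A, hA'⟩ : ∃ A : Eˣ, (A : E) = x - y := ⟨Units.mk0 _ hA, rfl⟩
  obtain ⟨B, hB'⟩ : ∃ B : Eˣ, (B : E) = y - z := ⟨Units.mk0 _ hB, rfl⟩
  obtain ⟨C, hC'⟩ : ∃ C : Eˣ, (C : E) = z - x := ⟨Units.mk0 _ hC, rfl⟩
  have e1 := hs.stein3 hn (a := y) (b := A) (c := x) (by rw [hA']; ring)
  have e2 := hs.stein3 hn (a := z) (b := B) (c := y) (by rw [hB']; ring)
  have e3 := hs.stein3 hn (a := x) (b := C) (c := z) (by rw [hC']; ring)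
  rw [hs.anti hn x y] at e1
  rw [hs.anti hn y z] at e2
  rw [hs.anti hn z x] at e3
  have e0 := hs.stein3 hn (a := A) (b := B) (c := -C) (by push_cast; rw [hA', hB', hC']; ring)
  rw [hs.neg_right hn, hs.neg_left hn] at e0
  by_cases hQ : (x : E) ^ 2 + y ^ 2 + z ^ 2 - x * y - y * z - z * x = 0
  · left
    have h4 : A / C = B / A := by
      rw [div_eq_div_iff_mul_eq_mul]
      ext
      push_cast
      rw [hA', hB', hC']
      linear_combination hQ
    have h5 : B / A = C / B := by
      rw [div_eq_div_iff_mul_eq_mul]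
      ext
      push_cast
      rw [hA', hB', hC']
      linear_combination hQ
    have h6 : s x y + s y z + s z x = s (x * y * z) (A / C) := by
      have h7 : s (x * y * z) (A / C) = s x (A / C) + s y (B / A) + s z (C / B) := by
        rw [hs.mul_left, hs.mul_left, ← h5, ← h4]
      rw [h7, hs.div_right, hs.div_right, hs.div_right]
      linear_combination (norm := module) e1 + e2 + e3
    have h8 : (3 : ℕ) • s (x * y * z) (A / C) = 0 := by
      rw [← hs.pow_right]
      have : (A / C) ^ 3 = 1 := by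
        calc (A / C) ^ 3 = (A / C) * (B / A) * (C / B) := by
              rw [← h5, ← h4, pow_succ, pow_succ, pow_one]
          _ = 1 := by
              rw [div_mul_div_comm, div_mul_div_comm, div_eq_one]
              rw [mul_right_comm, mul_comm C A, mul_right_comm]
      rw [this, hs.one_right]
    rw [h6]
    have h9 := hs.tors (x * y * z) (A / C)
    have h10 : addOrderOf (s (x * y * z) (A / C)) ∣ Nat.gcd 3 n :=
      Nat.dvd_gcd (addOrderOf_dvd_of_nsmul_eq_zero h8) (addOrderOf_dvd_of_nsmul_eq_zero h9)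
    rw [h3, Nat.dvd_one, AddMonoid.addOrderOf_eq_one_iff] at h10
    exact h10
  obtain ⟨Q, hQ'⟩ : ∃ Q : Eˣ, (Q : E) = (x : E) ^ 2 + y ^ 2 + z ^ 2 - x * y - y * z - z * x :=
    ⟨Units.mk0 _ hQ, rfl⟩
  have hsc : s x y + s y z + s z x = s (x * Q) (y * Q) + s (y * Q) (z * Q) + s (z * Q) (x * Q) := by
    simp only [hs.mul_left, hs.mul_right, hs.self hn]
    rw [hs.anti hn x Q, hs.anti hn y Q, hs.anti hn z Q]
    abel
  by_cases hU : (x : E) ^ 2 * y + y ^ 2 * z + z ^ 2 * x - 3 * x * y * z = 0
  · left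
    have h4 : x * Q = -(A ^ 2 * C) := by
      ext
      push_cast
      rw [hA', hC', hQ']
      linear_combination hU
    have h5 : y * Q = -(B ^ 2 * A) := by
      ext
      push_cast
      rw [hA', hB', hQ']
      linear_combination hU
    have h6 : z * Q = -(C ^ 2 * B) := by
      ext
      push_cast
      rw [hB', hC', hQ']
      linear_combination hU
    rw [hsc, h4, h5, h6]
    simp only [hs.neg_left hn, hs.neg_right hn, hs.mul_left, hs.mul_right, hs.self hn, hs.pow_left,
      hs.pow_right]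
    rw [hs.anti hn B C, hs.anti hn A B, hs.anti hn A C] at *
    linear_combination (norm := module) (3 : ℤ) • e0
  by_cases hV : (x : E) * y ^ 2 + y * z ^ 2 + z * x ^ 2 - 3 * x * y * z = 0
  · left
    have h4 : x * Q = A * C ^ 2 := by
      ext
      push_cast
      rw [hA', hC', hQ']
      linear_combination hV
    have h5 : y * Q = B * A ^ 2 := by
      ext
      push_cast
      rw [hA', hB', hQ']
      linear_combination hV
    have h6 : z * Q = C * B ^ 2 := by
      ext
      push_cast
      rw [hB', hC', hQ']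
      linear_combination hV
    rw [hsc, h4, h5, h6]
    simp only [hs.mul_left, hs.mul_right, hs.self hn, hs.pow_left,
      hs.pow_right]
    rw [hs.anti hn B C, hs.anti hn A B, hs.anti hn A C] at *
    linear_combination (norm := module) (3 : ℤ) • e0
  exact Or.inr ⟨A, B, C, Q, Units.mk0 _ hU, Units.mk0 _ hV, hA', hB', hC', hQ', rfl, rfl⟩

end IsSymb

end Pool.Agent.Helper41.CF
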