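import Mathlib
import Pool.Agent.Helper41.CF.Symb

/-!
# Two universal identities for Steinberg symbols killed by an odd number

`{a, b} = -{a (b-1)^2 / (b-a)^2, b (a-1)^2 / (b-a)^2}` and
`{a, b} = {((a-1)^2/a) / ((b-1)^2/b), (1-ab)/(b-a)}`.
-/

set_option autoImplicit false

namespace Pool.Agent.Helper41.CF

universe u v

namespace IsSymb

variable {E : Type u} [Field E] {Q : Type v} [AddCommGroup Q] {n : ℕ} {s : Eˣ → Eˣ → Q}

theorem rel0 (hs : IsSymb n s) (hn : Odd n) {a b p q d : Eˣ} (hp : (p : E) = b - 1)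
    (hq : (q : E) = a - 1) (hd : (d : E) = b - a) :
    s a b + s a q + s p b + s p q - s a d - s p d - s d b - s d q = 0 := by
  have h := hs.stein3 hn (a := a * p) (b := -(b * q)) (c := d)
    (by push_cast; rw [hp, hq, hd]; ring)
  simp only [hs.neg_right hn, hs.mul_left, hs.mul_right] at h
  linear_combination (norm := module) h

theorem rel2 (hs : IsSymb n s) (hn : Odd n) {a b p q d : Eˣ} (hp : (p : E) = b - 1)
    (hq : (q : E) = a - 1) (hd : (d : E) = b - a) : s p q - s p d - s d q = 0 := by
  have h := hs.stein3 hn (a := p) (b := -q) (c := d) (by push_cast; rw [hp, hq, hd]; ring)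
  simp only [hs.neg_right hn] at h
  exact h

theorem rel1 (hs : IsSymb n s) (hn : Odd n) {a b p q e : Eˣ} (hp : (p : E) = b - 1)
    (hq : (q : E) = a - 1) (he : (e : E) = 1 - a * b) :
    s b p + s q p - s b e - s q e - s e p = 0 := by
  have h := hs.stein3 hn (a := -(b * q)) (b := -p) (c := e)
    (by push_cast; rw [hp, hq, he]; ring)
  simp only [hs.neg_right hn, hs.neg_left hn, hs.mul_left] at h
  linear_combination (norm := module) h

theorem rel3 (hs : IsSymb n s) (hn : Odd n) {a b p q e : Eˣ} (hp : (p : E) = b - 1)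
    (hq : (q : E) = a - 1) (he : (e : E) = 1 - a * b) :
    s q a + s q p - s q e - s e a - s e p = 0 := by
  have h := hs.stein3 hn (a := -q) (b := -(a * p)) (c := e)
    (by push_cast; rw [hp, hq, he]; ring)
  simp only [hs.neg_right hn, hs.neg_left hn, hs.mul_right] at h
  linear_combination (norm := module) h

/-- the dihedral identity -/
theorem dih_identity (hs : IsSymb n s) (hn : Odd n) {a b p q d : Eˣ} (hp : (p : E) = b - 1)
    (hq : (q : E) = a - 1) (hd : (d : E) = b - a) :
    s a b = s (a * p ^ 2 / d ^ 2) (b * q ^ 2 / d ^ 2)⁻¹ := by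
  have h0 := hs.rel0 hn hp hq hd
  have h2 := hs.rel2 hn hp hq hd
  have h3 := hs.self hn d
  simp only [hs.inv_right, hs.div_left, hs.div_right, hs.mul_left, hs.mul_right, hs.pow_left,
    hs.pow_right, h3]
  linear_combination (norm := module) 2 • h0 + 2 • h2

/-- the quartic identity -/
theorem quart_identity (hs : IsSymb n s) (hn : Odd n) {a b p q d e : Eˣ} (hp : (p : E) = b - 1)
    (hq : (q : E) = a - 1) (hd : (d : E) = b - a) (he : (e : E) = 1 - a * b) :
    s a b = s ((q ^ 2 / a) / (p ^ 2 / b)) (e / d) := by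
  have h0 := hs.rel0 hn hp hq hd
  have h2 := hs.rel2 hn hp hq hd
  have h1 := hs.rel1 hn hp hq he
  have h3 := hs.rel3 hn hp hq he
  simp only [hs.div_left, hs.div_right, hs.pow_left]
  rw [hs.anti hn a q, hs.anti hn p q] at h3
  rw [hs.anti hn p b, hs.anti hn p q] at h1
  rw [hs.anti hn e a, hs.anti hn e p, hs.anti hn d q, hs.anti hn d b]
  linear_combination (norm := module) h0 + h1 + h2 + h3

end IsSymb

end Pool.Agent.Helper41.CF
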