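import Mathlib
import Pool.Agent.Helper41.CF.K24

/-!
# Invariant slots for the types `C_2` and `C_4`
-/

set_option autoImplicit false

namespace Pool.Agent.Helper41.CF

universe u v

variable {E : Type u} [Field E] {Q : Type v} [AddCommGroup Q] {n : ℕ} {s : Eˣ → Eˣ → Q}

theorem fixed_zero (hs : IsSymb n s) (σ : E →+* E) {a b : Eˣ} (h : s a b = 0) :
    ∃ X Y : Eˣ, σ X = X ∧ σ Y = Y ∧ s a b = s X Y :=
  ⟨1, 1, by simp, by simp, by rw [h, hs.one_left]⟩

/-- type `C_2` -/
theorem type_two (hs : IsSymb n s) (hn : Odd n) (σ : E →+* E) (a b : Eˣ)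
    (ha : (a : E) * σ a = 1) (hb : (b : E) * σ b = 1) :
    ∃ X Y : Eˣ, σ X = X ∧ σ Y = Y ∧ s a b = s X Y := by
  by_cases hq : (a : E) - 1 = 0
  · have : a = 1 := Units.ext (sub_eq_zero.mp hq)
    exact fixed_zero hs σ (by rw [this, hs.one_left])
  by_cases hp : (b : E) - 1 = 0
  · have : b = 1 := Units.ext (sub_eq_zero.mp hp)
    exact fixed_zero hs σ (by rw [this, hs.one_right])
  by_cases hd : (b : E) - a = 0
  · have : b = a := Units.ext (sub_eq_zero.mp hd)
    exact fixed_zero hs σ (by rw [this, hs.self hn])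
  have hσa : σ (a : E) = (a : E)⁻¹ := eq_inv_of_mul_eq_one_right ha
  have hσb : σ (b : E) = (b : E)⁻¹ := eq_inv_of_mul_eq_one_right hb
  have ha0 := a.ne_zero
  have hb0 := b.ne_zero
  have hd' : (a : E) - b ≠ 0 := fun h => hd (by rw [← neg_sub, h, neg_zero])
  have hd2 : (b : E)⁻¹ - (a : E)⁻¹ ≠ 0 := by
    rw [inv_sub_inv hb0 ha0]
    exact div_ne_zero hd' (mul_ne_zero hb0 ha0)
  have h1a : 1 - (a : E) ≠ 0 := fun h => hq (by rw [← neg_sub, h, neg_zero])
  have h1b : 1 - (b : E) ≠ 0 := fun h => hp (by rw [← neg_sub, h, neg_zero])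
  refine ⟨a * Units.mk0 _ hp ^ 2 / Units.mk0 _ hd ^ 2,
    (b * Units.mk0 _ hq ^ 2 / Units.mk0 _ hd ^ 2)⁻¹, ?_, ?_,
    hs.dih_identity hn (by simp) (by simp) (by simp)⟩
  · simp only [Units.val_div_eq_div_val, Units.val_mul, Units.val_pow_eq_pow_val, Units.val_mk0,
      map_div₀, map_mul, map_pow, map_sub, map_one, hσa, hσb]
    field_simp
    ring
  · simp only [Units.val_inv_eq_inv_val, Units.val_div_eq_div_val, Units.val_mul,
      Units.val_pow_eq_pow_val, Units.val_mk0, map_inv₀,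
      map_div₀, map_mul, map_pow, map_sub, map_one, hσa, hσb]
    field_simp
    ring

/-- type `C_4` -/
theorem type_four (hs : IsSymb n s) (hn : Odd n) (σ : E →+* E) (a b : Eˣ)
    (hab : σ (a : E) = b) (hb : (a : E) * σ b = 1) :
    ∃ X Y : Eˣ, σ X = X ∧ σ Y = Y ∧ s a b = s X Y := by
  by_cases hq : (a : E) - 1 = 0
  · have : a = 1 := Units.ext (sub_eq_zero.mp hq)
    exact fixed_zero hs σ (by rw [this, hs.one_left])
  by_cases hp : (b : E) - 1 = 0
  · have : b = 1 := Units.ext (sub_eq_zero.mp hp)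
    exact fixed_zero hs σ (by rw [this, hs.one_right])
  by_cases hd : (b : E) - a = 0
  · have : b = a := Units.ext (sub_eq_zero.mp hd)
    exact fixed_zero hs σ (by rw [this, hs.self hn])
  by_cases he : 1 - (a : E) * b = 0
  · have : b = a⁻¹ := by
      rw [eq_inv_iff_mul_eq_one, mul_comm]
      exact Units.ext (by simpa using (sub_eq_zero.mp he).symm)
    exact fixed_zero hs σ (by rw [this, hs.inv_right, hs.self hn, neg_zero])
  have hσb : σ (b : E) = (a : E)⁻¹ := eq_inv_of_mul_eq_one_right hb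
  have ha0 := a.ne_zero
  have hb0 := b.ne_zero
  have hd' : (a : E) - b ≠ 0 := fun h => hd (by rw [← neg_sub, h, neg_zero])
  have h1a : 1 - (a : E) ≠ 0 := fun h => hq (by rw [← neg_sub, h, neg_zero])
  have h1b : 1 - (b : E) ≠ 0 := fun h => hp (by rw [← neg_sub, h, neg_zero])
  have hinv : (a : E)⁻¹ - 1 ≠ 0 := by
    intro h
    apply h1a
    have : (a : E) * ((a : E)⁻¹ - 1) = 0 := by rw [h, mul_zero]
    rwa [mul_sub, mul_inv_cancel₀ ha0, mul_one] at this
  set P := Units.mk0 _ hp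
  set R := Units.mk0 _ hq
  set D := Units.mk0 _ hd
  set G := Units.mk0 _ he
  set A1 : Eˣ := (R ^ 2 / a) / (P ^ 2 / b) with hA1
  have hid : s a b = s A1 (G / D) :=
    hs.quart_identity hn (a := a) (b := b) (p := P) (q := R) (d := D) (e := G) (by simp [P])
      (by simp [R]) (by simp [D]) (by simp [G])
  have hid2 : s a b = s A1 ((G / D) ^ (n + 1)) := by
    rw [hs.pow_right, succ_nsmul, hs.tors, zero_add, hid]
  have hA : (A1 : E) * σ A1 = 1 := by
    simp only [hA1, P, R, Units.val_div_eq_div_val,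
      Units.val_pow_eq_pow_val, Units.val_mk0,
      map_div₀, map_pow, map_sub, map_one, hab, hσb]
    field_simp
    ring
  have hG : ((G / D : Eˣ) : E) * σ (G / D : Eˣ) = -1 := by
    simp only [G, D, Units.val_div_eq_div_val,
      Units.val_mk0,
      map_div₀, map_mul, map_sub, map_one, hab, hσb]
    have h5 : (a : E)⁻¹ - b ≠ 0 := by
      intro h
      apply he
      have : (a : E) * ((a : E)⁻¹ - b) = 0 := by rw [h, mul_zero]
      rwa [mul_sub, mul_inv_cancel₀ ha0] at this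
    field_simp
    ring
  have hG2 : (((G / D) ^ (n + 1) : Eˣ) : E) * σ ((G / D) ^ (n + 1) : Eˣ) = 1 := by
    rw [Units.val_pow_eq_pow_val, map_pow, ← mul_pow, hG]
    exact hn.add_one.neg_one_pow
  obtain ⟨X, Y, hX, hY, hXY⟩ := type_two hs hn σ A1 ((G / D) ^ (n + 1)) hA hG2
  exact ⟨X, Y, hX, hY, hid2.trans hXY⟩

end Pool.Agent.Helper41.CF
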