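import Mathlib
import Pool.Agent.Helper41.CF.K3
import Pool.Agent.Helper41.CF.T24

/-!
# Invariant slots for the types `C_3` and `C_6`
-/

set_option autoImplicit false

namespace Pool.Agent.Helper41.CF

universe u v

variable {E : Type u} [Field E] {Q' : Type v} [AddCommGroup Q'] {n : ℕ} {s : Eˣ → Eˣ → Q'}

theorem cyc_sum (hs : IsSymb n s) (hn : Odd n) (a b x : Eˣ) :
    s a b = s x (x / a) + s (x / a) (x / (a * b)) + s (x / (a * b)) x := by
  simp only [hs.div_left, hs.div_right, hs.mul_left, hs.mul_right, hs.self hn]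
  rw [hs.anti hn x a, hs.anti hn x b]
  abel

/-- type `C_3` -/
theorem type_three (hs : IsSymb n s) (hn : Odd n) (h3 : Nat.Coprime 3 n) (σ : E →+* E) (a b : Eˣ)
    (hab : σ (a : E) = b) (hb : (a : E) * b * σ b = 1) :
    ∃ X Y : Eˣ, σ X = X ∧ σ Y = Y ∧ s a b = s X Y := by
  have hσb : σ (b : E) = (a * b : E)⁻¹ := eq_inv_of_mul_eq_one_right hb
  have ha0 := a.ne_zero
  have hb0 := b.ne_zero
  by_cases hx : 1 + (a : E) + a * b = 0
  · refine fixed_zero hs σ ?_
    have h := hs.stein3 hn (a := 1) (b := a) (c := -(a * b)) (by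
      push_cast
      linear_combination hx)
    rw [hs.one_left, hs.one_left, hs.neg_left hn, hs.mul_left, hs.self hn, hs.anti hn a b] at h
    simpa using h
  set x : Eˣ := Units.mk0 _ hx with hxdef
  have hσx : σ (x : E) = ((x / a : Eˣ) : E) := by
    rw [Units.val_div_eq_div_val, hxdef, Units.val_mk0]
    simp only [map_add, map_mul, map_one, hab, hσb]
    field_simp
    ring
  have hσy : σ ((x / a : Eˣ) : E) = ((x / (a * b) : Eˣ) : E) := by
    rw [Units.val_div_eq_div_val, map_div₀, hσx, hab]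
    simp only [Units.val_div_eq_div_val, Units.val_mul]
    field_simp
  have hσz : σ ((x / (a * b) : Eˣ) : E) = (x : E) := by
    rw [Units.val_div_eq_div_val, map_div₀, hσx]
    simp only [Units.val_div_eq_div_val, Units.val_mul, map_mul, hab, hσb]
    field_simp
  rw [cyc_sum hs hn a b x]
  set y : Eˣ := x / a
  set z : Eˣ := x / (a * b)
  rcases hs.cub_cases hn h3 x y z with h | ⟨A, B, C, R, U, V, h⟩
  · rw [h]
    exact ⟨1, 1, by simp, by simp, by rw [hs.one_left]⟩
  refine ⟨x * y * z * R ^ 3 / (A * B * C) ^ 3, U / V, ?_, ?_, hs.cub_identity hn h⟩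
  · simp only [Units.val_div_eq_div_val, Units.val_mul, Units.val_pow_eq_pow_val, map_div₀, map_mul,
      map_pow, h.hA, h.hB, h.hC, h.hQ, map_sub, map_add, hσx, hσy, hσz]
    congr 1
    · ring
    · ring
  · simp only [Units.val_div_eq_div_val, map_div₀, map_mul,
      map_pow, h.hU, h.hV, map_sub, map_add, hσx, hσy, hσz, map_ofNat]
    congr 1
    · ring
    · ring

/-- type `C_6` -/
theorem type_six (hs : IsSymb n s) (hn : Odd n) (h3 : Nat.Coprime 3 n) (σ : E →+* E) (a b : Eˣ)
    (hab : σ (a : E) = b) (hb : (a : E) * σ b = b) :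
    ∃ X Y : Eˣ, σ X = X ∧ σ Y = Y ∧ s a b = s X Y := by
  have ha0 := a.ne_zero
  have hb0 := b.ne_zero
  have hσb : σ (b : E) = (b : E) / a := by
    rw [eq_div_iff ha0, mul_comm]
    exact hb
  by_cases hx1 : 1 + (a : E) + b = 0
  · refine fixed_zero hs σ ?_
    have h := hs.stein3 hn (a := 1) (b := a) (c := -b) (by
      push_cast
      linear_combination hx1)
    rw [hs.one_left, hs.one_left, hs.neg_left hn, hs.anti hn a b] at h
    simpa using h
  by_cases hx2 : (a : E) * b + a + b = 0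
  · refine fixed_zero hs σ ?_
    have h := hs.stein3 hn (a := 1) (b := a⁻¹) (c := -b⁻¹) (by
      push_cast
      field_simp
      linear_combination hx2)
    rw [hs.one_left, hs.one_left, hs.neg_left hn, hs.inv_left, hs.inv_right, hs.anti hn a b] at h
    simpa using h
  set x : Eˣ := Units.mk0 _ hx2 / Units.mk0 _ hx1 with hxdef
  have hxv : (x : E) = (a * b + a + b) / (1 + a + b) := by
    rw [hxdef, Units.val_div_eq_div_val, Units.val_mk0, Units.val_mk0]
  set y : Eˣ := x / a with hy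
  set z : Eˣ := x / b with hz
  have hx0 := x.ne_zero
  have hy0 := y.ne_zero
  have hz0 := z.ne_zero
  have hyv : (y : E) = x / a := by rw [hy, Units.val_div_eq_div_val]
  have hzv : (z : E) = x / b := by rw [hz, Units.val_div_eq_div_val]
  have hσx : σ (x : E) = (z : E)⁻¹ := by
    have h1 : (a : E) + b + 1 ≠ 0 := by
      intro h
      exact hx1 (by rw [← h]; ring)
    have h2 : (1 : E) + b + b / a ≠ 0 := by
      intro h
      apply hx2
      have : (a : E) * (1 + b + b / a) = 0 := by rw [h, mul_zero]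
      field_simp at this
      linear_combination this
    rw [hzv, hxv]
    simp only [map_add, map_mul, map_div₀, map_one, hab, hσb]
    rw [inv_div, div_div_eq_mul_div, div_eq_div_iff h2 hx2]
    field_simp
    ring
  have hσy : σ (y : E) = (x : E)⁻¹ := by
    rw [hyv, map_div₀, hσx, hab, hzv]
    field_simp
  have hσz : σ (z : E) = (y : E)⁻¹ := by
    rw [hzv, map_div₀, hσx, hσb, hyv, hzv]
    field_simp
  have hD : s a b = s x y + s y z + s z x := by
    have h1 := cyc_sum hs hn a (b / a) x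
    rw [mul_div_cancel, hs.div_right, hs.self hn, sub_zero] at h1
    exact h1
  rcases hs.cub_cases hn h3 x y z with h | ⟨A, B, C, R, U, V, h⟩
  · rw [hD, h]
    exact ⟨1, 1, by simp, by simp, by rw [hs.one_left]⟩
  set m : Eˣ →* Eˣ := Units.map (σ : E →* E) with hm
  have hmv : ∀ u : Eˣ, ((m u : Eˣ) : E) = σ (u : E) := fun u => rfl
  have hmx : m x = z⁻¹ := Units.ext (by rw [hmv, hσx, Units.val_inv_eq_inv_val])
  have hmy : m y = x⁻¹ := Units.ext (by rw [hmv, hσy, Units.val_inv_eq_inv_val])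
  have hmz : m z = y⁻¹ := Units.ext (by rw [hmv, hσz, Units.val_inv_eq_inv_val])
  have h' : Cub (m x) (m y) (m z) (m A) (m B) (m C) (m R) (m U) (m V) := by
    constructor <;> simp only [hmv]
    · rw [h.hA, map_sub]
    · rw [h.hB, map_sub]
    · rw [h.hC, map_sub]
    · rw [h.hQ]
      simp only [map_sub, map_add, map_mul, map_pow]
    · rw [h.hU]
      simp only [map_sub, map_add, map_mul, map_pow, map_ofNat]
    · rw [h.hV]
      simp only [map_sub, map_add, map_mul, map_pow, map_ofNat]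
  set W : Eˣ := x * y * z * R ^ 3 / (A * B * C) ^ 3 with hW
  set X : Eˣ := U / V with hX
  have hD1 : s a b = s W X := hD.trans (hs.cub_identity hn h)
  have hD2 : s a b = s (m W) (m X) := by
    have h4 := hs.cub_identity hn h'
    have h5 : m x * m y * m z * m R ^ 3 / (m A * m B * m C) ^ 3 = m W := by
      rw [hW]
      simp only [map_div, map_mul, map_pow]
    have h6 : m U / m V = m X := by rw [hX, map_div]
    rw [h5, h6] at h4
    rw [← h4, hmx, hmy, hmz, hD]
    simp only [hs.inv_left, hs.inv_right, neg_neg]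
    abel
  have hmX : m X = X⁻¹ := by
    ext
    rw [hmv, hX]
    simp only [Units.val_inv_eq_inv_val, Units.val_div_eq_div_val, map_div₀, h.hU, h.hV, map_sub,
      map_add, map_mul, map_pow, map_ofNat, hσx, hσy, hσz]
    rw [inv_div]
    have e1 : ((z : E)⁻¹ ^ 2 * (x : E)⁻¹ + (x : E)⁻¹ ^ 2 * (y : E)⁻¹ + (y : E)⁻¹ ^ 2 * (z : E)⁻¹ -
        3 * (z : E)⁻¹ * (x : E)⁻¹ * (y : E)⁻¹) = V * ((x * y * z : E)⁻¹ ^ 2) := by
      rw [h.hV]
      field_simp
    have e2 : ((z : E)⁻¹ * (x : E)⁻¹ ^ 2 + (x : E)⁻¹ * (y : E)⁻¹ ^ 2 + (y : E)⁻¹ * (z : E)⁻¹ ^ 2 -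
        3 * (z : E)⁻¹ * (x : E)⁻¹ * (y : E)⁻¹) = U * ((x * y * z : E)⁻¹ ^ 2) := by
      rw [h.hU]
      field_simp
      ring
    rw [e1, e2, ← h.hU, ← h.hV]
    have e3 : ((x * y * z : E)⁻¹ ^ 2) ≠ 0 := by
      apply pow_ne_zero
      apply inv_ne_zero
      exact mul_ne_zero (mul_ne_zero hx0 hy0) hz0
    rw [mul_div_mul_right _ _ e3]
  have hmmW : m (m W) = W := by
    have hmmx : m (m x) = y := by rw [hmx, map_inv, hmz, inv_inv]
    have hmmy : m (m y) = z := by rw [hmy, map_inv, hmx, inv_inv]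
    have hmmz : m (m z) = x := by rw [hmz, map_inv, hmy, inv_inv]
    have kx : σ (σ (x : E)) = y := congrArg Units.val hmmx
    have ky : σ (σ (y : E)) = z := congrArg Units.val hmmy
    have kz : σ (σ (z : E)) = x := congrArg Units.val hmmz
    have hmmA : m (m A) = B := Units.ext (by
      rw [hmv, hmv, h.hA, h.hB, map_sub, map_sub, kx, ky])
    have hmmB : m (m B) = C := Units.ext (by
      rw [hmv, hmv, h.hB, h.hC, map_sub, map_sub, ky, kz])
    have hmmC : m (m C) = A := Units.ext (by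
      rw [hmv, hmv, h.hC, h.hA, map_sub, map_sub, kx, kz])
    have hmmR : m (m R) = R := Units.ext (by
      rw [hmv, hmv, h.hQ]
      simp only [map_sub, map_add, map_mul, map_pow, kx, ky, kz]
      ring)
    rw [hW]
    simp only [map_div, map_mul, map_pow, hmmx, hmmy, hmmz, hmmA, hmmB, hmmC, hmmR]
    rw [← mul_rotate x y z, ← mul_rotate A B C]
  clear_value W X
  obtain ⟨k, hk⟩ := hn
  have hfin : s a b = s ((W / m W) ^ (k + 1)) X := by
    have h7 : (2 : ℕ) • s a b = s (W / m W) X := by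
      rw [hs.div_left, two_nsmul]
      conv_lhs => rw [hD1]
      rw [← hD1]
      conv_lhs =>
        arg 2
        rw [hD2, hmX, hs.inv_right]
      rw [hD1]
      abel
    rw [hs.pow_left, ← h7, smul_smul]
    have h8 : (k + 1) * 2 = n + 1 := by omega
    rw [h8, succ_nsmul, hs.tors, zero_add]
  have hW1 : (((W / m W) ^ (k + 1) : Eˣ) : E) * σ (((W / m W) ^ (k + 1) : Eˣ) : E) = 1 := by
    rw [← hmv, ← Units.val_mul, map_pow, map_div, hmmW, ← mul_pow, div_mul_div_cancel, div_self',
      one_pow, Units.val_one]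
  have hX1 : (X : E) * σ X = 1 := by
    rw [← hmv, hmX, ← Units.val_mul, mul_inv_cancel, Units.val_one]
  obtain ⟨X', Y', hX', hY', hXY⟩ := type_two hs ⟨k, hk⟩ σ _ _ hW1 hX1
  exact ⟨X', Y', hX', hY', hfin.trans hXY⟩

end Pool.Agent.Helper41.CF
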