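import Mathlib
import Pool.Agent.Helper41.CF.T36

/-!
# Stable planes under a cyclic group of order 1, 2, 3, 4 or 6
-/

set_option autoImplicit false

namespace Pool.Agent.Helper41.CF

universe u v

/-- equality modulo `n`-th powers -/
def NP {E : Type u} [Field E] (n : ℕ) (x y : Eˣ) : Prop := ∃ c : Eˣ, x = y * c ^ n

namespace NP

variable {E : Type u} [Field E] {n : ℕ} {x y z w : Eˣ}

theorem refl (x : Eˣ) : NP n x x := ⟨1, by simp⟩

theorem trans (h : NP n x y) (h' : NP n y z) : NP n x z := by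
  obtain ⟨c, rfl⟩ := h
  obtain ⟨d, rfl⟩ := h'
  exact ⟨d * c, by rw [mul_pow, mul_assoc]⟩

theorem mul (h : NP n x y) (h' : NP n z w) : NP n (x * z) (y * w) := by
  obtain ⟨c, rfl⟩ := h
  obtain ⟨d, rfl⟩ := h'
  exact ⟨c * d, by rw [mul_pow, mul_mul_mul_comm]⟩

theorem inv (h : NP n x y) : NP n x⁻¹ y⁻¹ := by
  obtain ⟨c, rfl⟩ := h
  exact ⟨c⁻¹, by rw [mul_inv, inv_pow]⟩

theorem div (h : NP n x y) (h' : NP n z w) : NP n (x / z) (y / w) := by
  rw [div_eq_mul_inv, div_eq_mul_inv]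
  exact h.mul h'.inv

theorem zpow (h : NP n x y) (k : ℤ) : NP n (x ^ k) (y ^ k) := by
  obtain ⟨c, rfl⟩ := h
  exact ⟨c ^ k, by
    rw [mul_zpow, ← zpow_natCast, ← zpow_natCast, ← zpow_mul, ← zpow_mul, mul_comm (n : ℤ) k]⟩

theorem pow (h : NP n x y) (k : ℕ) : NP n (x ^ k) (y ^ k) := by
  have := h.zpow k
  simpa using this

theorem map (h : NP n x y) (φ : Eˣ →* Eˣ) : NP n (φ x) (φ y) := by
  obtain ⟨c, rfl⟩ := h
  exact ⟨φ c, by rw [map_mul, map_pow]⟩

theorem of_dvd {i j : ℤ} (h : (n : ℤ) ∣ i - j) (x : Eˣ) : NP n (x ^ i) (x ^ j) := by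
  obtain ⟨k, hk⟩ := h
  refine ⟨x ^ k, ?_⟩
  have : i = j + k * n := by linarith
  rw [this, zpow_add, zpow_mul, zpow_natCast]

variable {Q : Type v} [AddCommGroup Q] {s : Eˣ → Eˣ → Q}

theorem left (hs : IsSymb n s) (h : NP n x y) (z : Eˣ) : s x z = s y z := by
  obtain ⟨c, rfl⟩ := h
  rw [hs.mul_left, hs.pow_left, hs.tors, add_zero]

theorem right (hs : IsSymb n s) (h : NP n x y) (z : Eˣ) : s z x = s z y := by
  obtain ⟨c, rfl⟩ := h
  rw [hs.mul_right, hs.pow_right, hs.tors, add_zero]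

end NP

variable {E : Type u} [Field E] {n : ℕ}

theorem exists_norm (ψ : Eˣ →* Eˣ) {K : ℕ} (hK : ∀ u, (ψ^[K]) u = u) {a : Eˣ}
    (h : NP n (ψ a) a) : ∃ A : Eˣ, ψ A = A ∧ NP n A (a ^ K) := by
  refine ⟨∏ k ∈ Finset.range K, (ψ^[k]) a, ?_, ?_⟩
  · rw [map_prod]
    have h1 : ∀ k, ψ ((ψ^[k]) a) = (ψ^[k + 1]) a := fun k => by
      rw [Function.iterate_succ_apply']
    simp only [h1]
    have h2 := Finset.prod_range_succ (fun k => (ψ^[k]) a) K
    rw [Finset.prod_range_succ', hK] at h2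
    simpa using h2
  · have h1 : ∀ k, NP n ((ψ^[k]) a) a := by
      intro k
      induction k with
      | zero => exact NP.refl a
      | succ k ih =>
        rw [Function.iterate_succ_apply']
        exact (ih.map ψ).trans h
    clear hK
    induction K with
    | zero => simpa using NP.refl (n := n) (1 : Eˣ)
    | succ K ih =>
      rw [Finset.prod_range_succ, pow_succ]
      exact ih.mul (h1 K)

theorem exists_alt (ψ : Eˣ →* Eˣ) {K : ℕ} (hK : ∀ u, (ψ^[K]) u = u) (hKe : Even K) {a : Eˣ}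
    (h : NP n (ψ a) a⁻¹) : ∃ A : Eˣ, ψ A = A⁻¹ ∧ NP n A (a ^ K) := by
  refine ⟨∏ k ∈ Finset.range K, ((ψ^[k]) a) ^ ((-1 : ℤ) ^ k), ?_, ?_⟩
  · rw [map_prod]
    have h1 : ∀ k, ψ (((ψ^[k]) a) ^ ((-1 : ℤ) ^ k)) = (((ψ^[k + 1]) a) ^ ((-1 : ℤ) ^ (k + 1)))⁻¹ :=
      fun k => by
      rw [Function.iterate_succ_apply', map_zpow, pow_succ, mul_neg_one, zpow_neg, inv_inv]
    simp only [h1]
    rw [Finset.prod_inv_distrib]
    congr 1
    have h2 := Finset.prod_range_succ (fun k => ((ψ^[k]) a) ^ ((-1 : ℤ) ^ k)) K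
    rw [Finset.prod_range_succ', hK, hKe.neg_one_pow] at h2
    simpa using h2
  · have h1 : ∀ k, NP n ((ψ^[k]) a) (a ^ ((-1 : ℤ) ^ k)) := by
      intro k
      induction k with
      | zero => simpa using NP.refl (n := n) a
      | succ k ih =>
        rw [Function.iterate_succ_apply']
        refine (ih.map ψ).trans ?_
        rw [map_zpow]
        refine (h.zpow _).trans ?_
        rw [inv_zpow, ← zpow_neg, pow_succ, mul_neg_one]
        exact NP.refl _
    have h3 : ∀ k, NP n (((ψ^[k]) a) ^ ((-1 : ℤ) ^ k)) a := by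
      intro k
      refine ((h1 k).zpow _).trans ?_
      rw [← zpow_mul, ← mul_pow]
      simpa using NP.refl (n := n) a
    clear hK hKe
    induction K with
    | zero => simpa using NP.refl (n := n) (1 : Eˣ)
    | succ K ih =>
      rw [Finset.prod_range_succ, pow_succ]
      exact ih.mul (h3 K)

section

variable {Q : Type v} [AddCommGroup Q] {s : Eˣ → Eˣ → Q}

/-- `D` is a symbol with `σ`-invariant entries -/
def Inv (s : Eˣ → Eˣ → Q) (σ : E →+* E) (D : Q) : Prop :=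
  ∃ X Y : Eˣ, σ X = X ∧ σ Y = Y ∧ D = s X Y

theorem Inv.zsmul (hs : IsSymb n s) {σ : E →+* E} {D : Q} (h : Inv s σ D) (k : ℤ) :
    Inv s σ (k • D) := by
  obtain ⟨X, Y, hX, hY, rfl⟩ := h
  exact ⟨X ^ k, Y, by rw [Units.val_zpow_eq_zpow_val, map_zpow₀, hX], hY,
    (hs.zpow_left _ _ _).symm⟩

theorem Inv.of_zsmul (hs : IsSymb n s) {σ : E →+* E} {D : Q} (hD : n • D = 0) {k : ℤ}
    (hk : Int.gcd k n = 1) (h : Inv s σ (k • D)) : Inv s σ D := by
  have h1 := Int.gcd_eq_gcd_ab k n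
  rw [hk] at h1
  have h2 : D = (Int.gcdA k n) • (k • D) := by
    have h3 : ((n : ℤ) : ℤ) • D = 0 := by rw [natCast_zsmul, hD]
    calc D = ((1 : ℕ) : ℤ) • D := by simp
      _ = (k * Int.gcdA k n + n * Int.gcdB k n) • D := by rw [h1]
      _ = _ := by
        rw [add_smul, mul_comm (n : ℤ), mul_smul _ (n : ℤ), h3, smul_zero, add_zero, mul_comm,
          mul_smul]
  rw [h2]
  exact h.zsmul hs _

theorem gcd_of_prime {n : ℕ} (hp : n.Prime) (h5 : 5 ≤ n) {k : ℕ} (hk : ∀ p, p.Prime → p ∣ k → p < 5) :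
    Int.gcd (k : ℤ) n = 1 := by
  rw [Int.gcd_natCast_natCast]
  by_contra h
  have h1 : n ∣ k := by
    rcases (Nat.Prime.coprime_iff_not_dvd hp).not.mp (fun h2 => h (h2.symm)) with h3
    exact not_not.mp h3
  exact absurd (hk n hp h1) (by omega)

theorem prime_le_of_dvd_48 {p : ℕ} (hp : p.Prime) (h : p ∣ 2 ^ 4 * 3) : p < 5 := by
  rcases (Nat.Prime.dvd_mul hp).mp h with h | h
  · have := (Nat.prime_dvd_prime_iff_eq hp Nat.prime_two).mp (hp.dvd_of_dvd_pow h)
    omega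
  · have := (Nat.prime_dvd_prime_iff_eq hp Nat.prime_three).mp h
    omega

theorem prime_le_of_dvd_144 {p : ℕ} (hp : p.Prime) (h : p ∣ 2 ^ 4 * 3 ^ 2) : p < 5 := by
  rcases (Nat.Prime.dvd_mul hp).mp h with h | h
  · have := (Nat.prime_dvd_prime_iff_eq hp Nat.prime_two).mp (hp.dvd_of_dvd_pow h)
    omega
  · have := (Nat.prime_dvd_prime_iff_eq hp Nat.prime_three).mp (hp.dvd_of_dvd_pow h)
    omega

variable (hs : IsSymb n s) (hp : n.Prime) (h5 : 5 ≤ n) (σ : E →+* E)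

include hs hp h5

theorem fin_one (h12 : ∀ u, ((Units.map (σ : E →* E))^[12]) u = u) {a b : Eˣ}
    (ha : NP n (Units.map (σ : E →* E) a) a) (hb : NP n (Units.map (σ : E →* E) b) b) :
    Inv s σ (s a b) := by
  obtain ⟨A, hA, hA'⟩ := exists_norm _ h12 ha
  obtain ⟨B, hB, hB'⟩ := exists_norm _ h12 hb
  refine Inv.of_zsmul hs (hs.tors _ _) (k := ((2 ^ 4 * 3 ^ 2 : ℕ) : ℤ))
    (gcd_of_prime hp h5 fun p hp' hd => prime_le_of_dvd_144 hp' hd) ?_
  refine ⟨A, B, congrArg Units.val hA, congrArg Units.val hB, ?_⟩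
  rw [hA'.left hs, hB'.right hs, hs.pow_left, hs.pow_right, smul_smul, natCast_zsmul]
  norm_num

theorem fin_two (h12 : ∀ u, ((Units.map (σ : E →* E))^[12]) u = u) {a b : Eˣ}
    (ha : NP n (Units.map (σ : E →* E) a) a⁻¹) (hb : NP n (Units.map (σ : E →* E) b) b⁻¹) :
    Inv s σ (s a b) := by
  obtain ⟨A, hA, hA'⟩ := exists_alt _ h12 (by decide) ha
  obtain ⟨B, hB, hB'⟩ := exists_alt _ h12 (by decide) hb
  refine Inv.of_zsmul hs (hs.tors _ _) (k := ((2 ^ 4 * 3 ^ 2 : ℕ) : ℤ))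
    (gcd_of_prime hp h5 fun p hp' hd => prime_le_of_dvd_144 hp' hd) ?_
  have hn : Odd n := hp.odd_of_ne_two (by omega)
  have key : Inv s σ (s A B) := by
    refine type_two hs hn σ A B ?_ ?_
    · have : ((Units.map (σ : E →* E) A : Eˣ) : E) = ((A⁻¹ : Eˣ) : E) := congrArg Units.val hA
      have h2 : σ (A : E) = ((A⁻¹ : Eˣ) : E) := this
      rw [h2]
      exact Units.mul_inv A
    · have : ((Units.map (σ : E →* E) B : Eˣ) : E) = ((B⁻¹ : Eˣ) : E) := congrArg Units.val hB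
      have h2 : σ (B : E) = ((B⁻¹ : Eˣ) : E) := this
      rw [h2]
      exact Units.mul_inv B
  have e : ((2 ^ 4 * 3 ^ 2 : ℕ) : ℤ) • s a b = s A B := by
    rw [hA'.left hs, hB'.right hs, hs.pow_left, hs.pow_right, smul_smul, natCast_zsmul]
    norm_num
  rw [e]
  exact key

theorem fin_four (h12 : ∀ u, ((Units.map (σ : E →* E))^[12]) u = u) {a : Eˣ}
    (ha : NP n (Units.map (σ : E →* E) (Units.map (σ : E →* E) a)) a⁻¹) :
    Inv s σ (s a (Units.map (σ : E →* E) a)) := by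
  set φ : Eˣ →* Eˣ := Units.map (σ : E →* E) with hφ
  have hn : Odd n := hp.odd_of_ne_two (by omega)
  obtain ⟨A, hA, hA'⟩ := exists_alt (φ.comp φ) (K := 6) (fun u => h12 u) (by decide) ha
  have key : Inv s σ (s A (φ A)) := by
    refine type_four hs hn σ A (φ A) rfl ?_
    have h1 : A * φ (φ A) = 1 := by
      have : φ (φ A) = A⁻¹ := hA
      rw [this, mul_inv_cancel]
    exact congrArg Units.val h1
  refine Inv.of_zsmul hs (hs.tors _ _) (k := ((6 * 6 : ℕ) : ℤ))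
    (gcd_of_prime hp h5 fun p hp' hd => prime_le_of_dvd_144 hp' (hd.trans (by norm_num))) ?_
  have e : ((6 * 6 : ℕ) : ℤ) • s a (φ a) = s A (φ A) := by
    rw [hA'.left hs, (hA'.map φ).right hs, map_pow, hs.pow_left, hs.pow_right, smul_smul,
      natCast_zsmul]
  rw [e]
  exact key

theorem fin_three (h12 : ∀ u, ((Units.map (σ : E →* E))^[12]) u = u) {a : Eˣ}
    (ha : NP n (Units.map (σ : E →* E) (Units.map (σ : E →* E) a))
      ((Units.map (σ : E →* E) a)⁻¹ * a⁻¹)) :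
    Inv s σ (s a (Units.map (σ : E →* E) a)) := by
  set φ : Eˣ →* Eˣ := Units.map (σ : E →* E) with hφ
  have hn : Odd n := hp.odd_of_ne_two (by omega)
  have h3 : Nat.Coprime 3 n := by
    rw [Nat.coprime_comm, Nat.Prime.coprime_iff_not_dvd hp]
    intro h
    have := Nat.le_of_dvd (by norm_num) h
    omega
  have ha3 : NP n ((φ.comp (φ.comp φ)) a) a := by
    refine (ha.map φ).trans ?_
    rw [map_mul, map_inv, map_inv]
    have h1 := (ha.inv).mul (NP.refl (n := n) (φ a)⁻¹)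
    refine h1.trans ?_
    have : ((φ a)⁻¹ * a⁻¹)⁻¹ * (φ a)⁻¹ = a := by
      rw [mul_inv, inv_inv, inv_inv, mul_comm (φ a) a, mul_inv_cancel_right]
    rw [this]
    exact NP.refl a
  obtain ⟨e, he, he'⟩ := exists_norm (φ.comp (φ.comp φ)) (K := 4) (fun u => h12 u) ha3
  have hee : NP n (φ (φ e)) ((φ e)⁻¹ * e⁻¹) := by
    refine ((he'.map φ).map φ).trans ?_
    rw [map_pow, map_pow]
    refine (ha.pow 4).trans ?_
    have h1 : NP n (((φ a)⁻¹ * a⁻¹) ^ 4) ((φ e)⁻¹ * e⁻¹) := by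
      rw [mul_pow, inv_pow, inv_pow, ← map_pow]
      obtain ⟨c, hc⟩ := he'
      have h2 : NP n (a ^ 4) e := ⟨c⁻¹, by rw [hc, inv_pow, mul_inv_cancel_right]⟩
      exact ((h2.map φ).inv).mul h2.inv
    exact h1
  have key : Inv s σ (s (φ e / e) (φ (φ e / e))) := by
    refine type_three hs hn h3 σ _ _ rfl ?_
    have h1 : (φ e / e) * φ (φ e / e) * φ (φ (φ e / e)) = 1 := by
      have h2 : φ (φ (φ e)) = e := he
      rw [map_div, map_div, h2, div_mul_div_comm, div_mul_div_comm, div_eq_one]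
      rw [mul_comm (φ e) (φ (φ e)), mul_right_comm, mul_comm (φ (φ e)) e, mul_right_comm]
    exact congrArg Units.val h1
  refine Inv.of_zsmul hs (hs.tors _ _) (k := ((2 ^ 4 * 3 : ℕ) : ℤ))
    (gcd_of_prime hp h5 fun p hp' hd => prime_le_of_dvd_48 hp' hd) ?_
  have e1 : s e (φ e) = (16 : ℕ) • s a (φ a) := by
    rw [he'.left hs, (he'.map φ).right hs, map_pow, hs.pow_left, hs.pow_right, smul_smul]
    norm_num
  have e2 : s (φ e / e) (φ (φ e / e)) = (3 : ℕ) • s e (φ e) := by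
    rw [map_div, (hee.div (NP.refl (φ e))).right hs]
    simp only [hs.div_left, hs.div_right, hs.mul_right, hs.inv_right, hs.self hn]
    rw [hs.anti hn e (φ e)]
    module
  have e3 : ((2 ^ 4 * 3 : ℕ) : ℤ) • s a (φ a) = s (φ e / e) (φ (φ e / e)) := by
    rw [e2, e1, smul_smul, natCast_zsmul]
    norm_num
  rw [e3]
  exact key

theorem fin_six (h12 : ∀ u, ((Units.map (σ : E →* E))^[12]) u = u) {a : Eˣ}
    (ha : NP n (Units.map (σ : E →* E) (Units.map (σ : E →* E) a))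
      (Units.map (σ : E →* E) a * a⁻¹)) :
    Inv s σ (s a (Units.map (σ : E →* E) a)) := by
  set φ : Eˣ →* Eˣ := Units.map (σ : E →* E) with hφ
  have hn : Odd n := hp.odd_of_ne_two (by omega)
  have h3 : Nat.Coprime 3 n := by
    rw [Nat.coprime_comm, Nat.Prime.coprime_iff_not_dvd hp]
    intro h
    have := Nat.le_of_dvd (by norm_num) h
    omega
  have ha3 : NP n ((φ.comp (φ.comp φ)) a) a⁻¹ := by
    refine (ha.map φ).trans ?_
    rw [map_mul, map_inv]
    have h1 := ha.mul (NP.refl (n := n) (φ a)⁻¹)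
    refine h1.trans ?_
    have : φ a * a⁻¹ * (φ a)⁻¹ = a⁻¹ := by
      rw [mul_comm (φ a), mul_inv_cancel_right]
    rw [this]
    exact NP.refl _
  obtain ⟨e, he, he'⟩ := exists_alt (φ.comp (φ.comp φ)) (K := 4) (fun u => h12 u) (by decide) ha3
  have hee : NP n (φ (φ e)) (φ e * e⁻¹) := by
    refine ((he'.map φ).map φ).trans ?_
    rw [map_pow, map_pow]
    refine (ha.pow 4).trans ?_
    rw [mul_pow, inv_pow, ← map_pow]
    obtain ⟨c, hc⟩ := he'
    have h2 : NP n (a ^ 4) e := ⟨c⁻¹, by rw [hc, inv_pow, mul_inv_cancel_right]⟩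
    exact (h2.map φ).mul h2.inv
  have key : Inv s σ (s (e * φ e) (φ (e * φ e))) := by
    refine type_six hs hn h3 σ _ _ rfl ?_
    have h1 : (e * φ e) * φ (φ (e * φ e)) = φ (e * φ e) := by
      have h2 : φ (φ (φ e)) = e⁻¹ := he
      rw [map_mul, map_mul, h2, mul_comm (φ (φ e)) e⁻¹, mul_mul_mul_comm, mul_inv_cancel, one_mul]
    exact congrArg Units.val h1
  refine Inv.of_zsmul hs (hs.tors _ _) (k := ((2 ^ 4 * 3 : ℕ) : ℤ))
    (gcd_of_prime hp h5 fun p hp' hd => prime_le_of_dvd_48 hp' hd) ?_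
  have e1 : s e (φ e) = (16 : ℕ) • s a (φ a) := by
    rw [he'.left hs, (he'.map φ).right hs, map_pow, hs.pow_left, hs.pow_right, smul_smul]
    norm_num
  have e2 : s (e * φ e) (φ (e * φ e)) = (3 : ℕ) • s e (φ e) := by
    rw [map_mul, ((NP.refl (φ e)).mul hee).right hs]
    simp only [hs.mul_left, hs.mul_right, hs.inv_right, hs.self hn]
    rw [hs.anti hn e (φ e)]
    module
  have e3 : ((2 ^ 4 * 3 : ℕ) : ℤ) • s a (φ a) = s (e * φ e) (φ (e * φ e)) := by
    rw [e2, e1, smul_smul, natCast_zsmul]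
    norm_num
  rw [e3]
  exact key

end

end Pool.Agent.Helper41.CF
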