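import Mathlib
import Pool.Agent.Helper41.CF.Stable

/-!
# The case analysis for stable planes
-/

set_option autoImplicit false

namespace Pool.Agent.Helper41.CF

universe u v

/-- Chebyshev-type sequence -/
def Us (t : ℤ) : ℕ → ℤ
  | 0 => 0
  | 1 => 1
  | (k + 2) => t * Us t (k + 1) - Us t k

section

variable {E : Type u} [Field E] {n : ℕ} {Q : Type v} [AddCommGroup Q] {s : Eˣ → Eˣ → Q}

theorem dvd_of_zsmul (hs : IsSymb n s) (hp : n.Prime) {x y : Eˣ} (hne : s x y ≠ 0) {z : ℤ}
    (h : z • s x y = 0) : (n : ℤ) ∣ z := by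
  have := Fact.mk hp
  have h1 : addOrderOf (s x y) = n := addOrderOf_eq_prime (hs.tors x y) hne
  rw [← h1]
  exact addOrderOf_dvd_iff_zsmul_eq_zero.mpr h

theorem symb_seq (hs : IsSymb n s) (hp : n.Prime) (h5 : 5 ≤ n) (φ : Eˣ →* Eˣ) {v : Eˣ} {t : ℤ}
    (hv : NP n (φ (φ v)) ((φ v) ^ t * v⁻¹)) (k : ℕ) :
    s v ((φ^[k]) v) = Us t k • s v (φ v) ∧ s v ((φ^[k + 1]) v) = Us t (k + 1) • s v (φ v) := by
  have hn : Odd n := hp.odd_of_ne_two (by omega)
  have hstep : ∀ k, NP n ((φ^[k + 2]) v) (((φ^[k + 1]) v) ^ t * ((φ^[k]) v)⁻¹) := by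
    intro k
    induction k with
    | zero => exact hv
    | succ k ih =>
      have h := ih.map φ
      simp only [Function.iterate_succ_apply'] at h ⊢
      rwa [map_mul, map_zpow, map_inv] at h
  induction k with
  | zero => exact ⟨by simp [Us, hs.self hn], by simp [Us]⟩
  | succ k ih =>
    refine ⟨ih.2, ?_⟩
    rw [(hstep k).right hs, hs.mul_right, hs.zpow_right, hs.inv_right, ih.1, ih.2, smul_smul,
      ← neg_smul, ← add_smul]
    rfl

theorem fin_t (hs : IsSymb n s) (hp : n.Prime) (h5 : 5 ≤ n) (σ : E →+* E) {m : ℕ}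
    (hm : m = 1 ∨ m = 2 ∨ m = 3 ∨ m = 4 ∨ m = 6)
    (hσ : ∀ u, ((Units.map (σ : E →* E))^[m]) u = u) {v : Eˣ} {t : ℤ}
    (hv : NP n (Units.map (σ : E →* E) (Units.map (σ : E →* E) v))
      ((Units.map (σ : E →* E) v) ^ t * v⁻¹))
    (hne : s v (Units.map (σ : E →* E) v) ≠ 0)
    (h12 : ∀ u, ((Units.map (σ : E →* E))^[12]) u = u) :
    Inv s σ (s v (Units.map (σ : E →* E) v)) := by
  set φ : Eˣ →* Eˣ := Units.map (σ : E →* E) with hφ
  have hn : Odd n := hp.odd_of_ne_two (by omega)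
  have := Fact.mk hp
  have hz2 : (2 : ZMod n) ≠ 0 := by
    intro h
    have h1 : ((2 : ℕ) : ZMod n) = 0 := by exact_mod_cast h
    rw [ZMod.natCast_eq_zero_iff] at h1
    have := Nat.le_of_dvd (by norm_num) h1
    omega
  have h1 : (Us t m : ZMod n) = 0 := by
    have h := (symb_seq hs hp h5 φ hv m).1
    rw [hσ, hs.self hn] at h
    exact (ZMod.intCast_zmod_eq_zero_iff_dvd _ _).mpr (dvd_of_zsmul hs hp hne h.symm)
  have h2 : (Us t (m + 1) : ZMod n) = 1 := by
    have h := (symb_seq hs hp h5 φ hv m).2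
    rw [Function.iterate_succ_apply', hσ] at h
    have h3 : (Us t (m + 1) - 1) • s v (φ v) = 0 := by
      rw [sub_smul, one_smul, ← h, sub_self]
    have h4 := (ZMod.intCast_zmod_eq_zero_iff_dvd _ _).mpr (dvd_of_zsmul hs hp hne h3)
    push_cast at h4
    exact sub_eq_zero.mp h4
  have red : ∀ r : ℤ, (t : ZMod n) = r →
      NP n (φ (φ v)) ((φ v) ^ r * v⁻¹) := by
    intro r hr
    refine hv.trans ((NP.of_dvd ?_ _).mul (NP.refl _))
    rw [← ZMod.intCast_zmod_eq_zero_iff_dvd]
    push_cast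
    rw [hr, sub_self]
  have c3 : (t : ZMod n) = -1 → Inv s σ (s v (φ v)) := by
    intro h
    have := red (-1) (by push_cast; exact h)
    rw [zpow_neg_one] at this
    exact fin_three hs hp h5 σ h12 this
  have c4 : (t : ZMod n) = 0 → Inv s σ (s v (φ v)) := by
    intro h
    have := red 0 (by push_cast; exact h)
    rw [zpow_zero, one_mul] at this
    exact fin_four hs hp h5 σ h12 this
  have c6 : (t : ZMod n) = 1 → Inv s σ (s v (φ v)) := by
    intro h
    have := red 1 (by push_cast; exact h)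
    rw [zpow_one] at this
    exact fin_six hs hp h5 σ h12 this
  rcases hm with rfl | rfl | rfl | rfl | rfl
  · simp [Us] at h1
  · simp only [Us] at h1 h2
    push_cast at h1 h2
    exfalso
    apply hz2
    linear_combination (t : ZMod n) * h1 - h2
  · simp only [Us] at h1 h2
    push_cast at h1 h2
    apply c3
    linear_combination (t : ZMod n) * h1 - h2
  · simp only [Us] at h1 h2
    push_cast at h1 h2
    have h3 : (t : ZMod n) * (t ^ 2 - 2) = 0 := by linear_combination h1
    rcases mul_eq_zero.mp h3 with h4 | h4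
    · exact c4 h4
    · exfalso
      apply hz2
      linear_combination ((t : ZMod n) ^ 2 - 1) * h4 - h2
  · simp only [Us] at h1 h2
    push_cast at h1 h2
    have h3 : ((t : ZMod n) - 1) * (t + 1) * (t ^ 4 - 4 * t ^ 2 + 2) = 0 := by
      linear_combination h2
    rcases mul_eq_zero.mp h3 with h4 | h4
    · rcases mul_eq_zero.mp h4 with h6 | h6
      · exact c6 (sub_eq_zero.mp h6)
      · exact c3 (eq_neg_of_add_eq_zero_left h6)
    · exfalso
      have h6 : (t : ZMod n) * (t ^ 2 - 1) * (t ^ 2 - 3) = 0 := by linear_combination h1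
      rcases mul_eq_zero.mp h6 with h7 | h7
      · rcases mul_eq_zero.mp h7 with h8 | h8
        · apply hz2
          linear_combination h4 - ((t : ZMod n) ^ 3 - 4 * t) * h8
        · have : (1 : ZMod n) = 0 := by
            linear_combination -h4 + ((t : ZMod n) ^ 2 - 3) * h8
          exact one_ne_zero this
      · have : (1 : ZMod n) = 0 := by
          linear_combination -h4 + ((t : ZMod n) ^ 2 - 1) * h7
        exact one_ne_zero this

theorem stable_inv (hs : IsSymb n s) (hp : n.Prime) (h5 : 5 ≤ n) (σ : E →+* E) {m : ℕ}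
    (hm : m = 1 ∨ m = 2 ∨ m = 3 ∨ m = 4 ∨ m = 6)
    (hσ : ∀ u, ((Units.map (σ : E →* E))^[m]) u = u) {a b : Eˣ} {i j k l : ℤ}
    (ha : NP n (Units.map (σ : E →* E) a) (a ^ i * b ^ j))
    (hb : NP n (Units.map (σ : E →* E) b) (a ^ k * b ^ l))
    (hinv : s (Units.map (σ : E →* E) a) (Units.map (σ : E →* E) b) = s a b) :
    Inv s σ (s a b) := by
  set φ : Eˣ →* Eˣ := Units.map (σ : E →* E) with hφ
  have hn : Odd n := hp.odd_of_ne_two (by omega)
  by_cases hne : s a b = 0
  · rw [hne]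
    exact ⟨1, 1, by simp, by simp, (hs.one_left 1).symm⟩
  have h12 : ∀ u, (φ^[12]) u = u := by
    intro u
    rcases hm with rfl | rfl | rfl | rfl | rfl
    · exact Function.iterate_fixed (hσ u) 12
    · rw [show 12 = 2 * 6 from rfl, Function.iterate_mul]
      exact Function.iterate_fixed (hσ u) 6
    · rw [show 12 = 3 * 4 from rfl, Function.iterate_mul]
      exact Function.iterate_fixed (hσ u) 4
    · rw [show 12 = 4 * 3 from rfl, Function.iterate_mul]
      exact Function.iterate_fixed (hσ u) 3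
    · rw [show 12 = 6 * 2 from rfl, Function.iterate_mul]
      exact Function.iterate_fixed (hσ u) 2
  have hdet : (n : ℤ) ∣ i * l - j * k - 1 := by
    refine dvd_of_zsmul hs hp hne ?_
    rw [ha.left hs, hb.right hs] at hinv
    simp only [hs.mul_left, hs.mul_right, hs.zpow_left, hs.zpow_right, hs.self hn] at hinv
    rw [hs.anti hn a b] at hinv
    rw [sub_smul, sub_smul, one_smul]
    conv_lhs =>
      arg 2
      rw [← hinv]
    module
  have hCa : NP n (φ (φ a)) ((φ a) ^ (i + l) * a⁻¹) := by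
    have h1 : NP n (φ (φ a)) ((a ^ i * b ^ j) ^ i * (a ^ k * b ^ l) ^ j) := by
      refine (ha.map φ).trans ?_
      rw [map_mul, map_zpow, map_zpow]
      exact (ha.zpow i).mul (hb.zpow j)
    have h2 : NP n ((a ^ i * b ^ j) ^ (i + l) * a⁻¹) ((φ a) ^ (i + l) * a⁻¹) := by
      obtain ⟨c, hc⟩ := ha
      have h3 : NP n (a ^ i * b ^ j) (φ a) := ⟨c⁻¹, by rw [hc, inv_pow, mul_inv_cancel_right]⟩
      exact (h3.zpow _).mul (NP.refl _)
    refine (h1.trans ?_).trans h2
    have e1 : (a ^ i * b ^ j) ^ i * (a ^ k * b ^ l) ^ j =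
        a ^ (i * i + k * j) * b ^ (j * i + l * j) := by
      rw [mul_zpow, mul_zpow, ← zpow_mul, ← zpow_mul, ← zpow_mul, ← zpow_mul, mul_mul_mul_comm,
        ← zpow_add, ← zpow_add]
    have e2 : (a ^ i * b ^ j) ^ (i + l) * a⁻¹ = a ^ (i * (i + l) - 1) * b ^ (j * i + l * j) := by
      rw [mul_zpow, ← zpow_mul, ← zpow_mul, mul_right_comm, zpow_sub_one]
      congr 2
      ring
    rw [e1, e2]
    refine (NP.of_dvd ?_ a).mul (NP.refl _)
    obtain ⟨q, hq⟩ := hdet
    exact ⟨-q, by linear_combination -hq⟩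
  have hCb : NP n (φ (φ b)) ((φ b) ^ (i + l) * b⁻¹) := by
    have h1 : NP n (φ (φ b)) ((a ^ i * b ^ j) ^ k * (a ^ k * b ^ l) ^ l) := by
      refine (hb.map φ).trans ?_
      rw [map_mul, map_zpow, map_zpow]
      exact (ha.zpow k).mul (hb.zpow l)
    have h2 : NP n ((a ^ k * b ^ l) ^ (i + l) * b⁻¹) ((φ b) ^ (i + l) * b⁻¹) := by
      obtain ⟨c, hc⟩ := hb
      have h3 : NP n (a ^ k * b ^ l) (φ b) := ⟨c⁻¹, by rw [hc, inv_pow, mul_inv_cancel_right]⟩
      exact (h3.zpow _).mul (NP.refl _)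
    refine (h1.trans ?_).trans h2
    have e1 : (a ^ i * b ^ j) ^ k * (a ^ k * b ^ l) ^ l =
        a ^ (i * k + k * l) * b ^ (j * k + l * l) := by
      rw [mul_zpow, mul_zpow, ← zpow_mul, ← zpow_mul, ← zpow_mul, ← zpow_mul, mul_mul_mul_comm,
        ← zpow_add, ← zpow_add]
    have e2 : (a ^ k * b ^ l) ^ (i + l) * b⁻¹ = a ^ (i * k + k * l) * b ^ (l * (i + l) - 1) := by
      rw [mul_zpow, ← zpow_mul, ← zpow_mul, mul_assoc, zpow_sub_one]
      congr 2
      ring
    rw [e1, e2]
    refine (NP.refl _).mul (NP.of_dvd ?_ b)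
    obtain ⟨q, hq⟩ := hdet
    exact ⟨-q, by linear_combination -hq⟩
  have gcd_of : ∀ z : ℤ, ¬ (n : ℤ) ∣ z → Int.gcd z n = 1 := by
    intro z hz
    have h1 : IsCoprime z (n : ℤ) := ((Nat.prime_iff_prime_int.mp hp).coprime_iff_not_dvd.mpr hz).symm
    exact Int.isCoprime_iff_gcd_eq_one.mp h1
  have sne : ∀ z : ℤ, ¬ (n : ℤ) ∣ z → z • s a b ≠ 0 := fun z hz h => hz (dvd_of_zsmul hs hp hne h)
  have ea : s a (φ a) = j • s a b := by
    rw [ha.right hs]
    simp only [hs.mul_right, hs.zpow_right, hs.self hn, smul_zero, zero_add]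
  have eb : s b (φ b) = (-k) • s a b := by
    rw [hb.right hs]
    simp only [hs.mul_right, hs.zpow_right, hs.self hn, smul_zero, add_zero]
    rw [hs.anti hn a b]
    module
  have eab : s (a * b) (φ (a * b)) = (j + l - i - k) • s a b := by
    rw [map_mul, (ha.mul hb).right hs]
    simp only [hs.mul_left, hs.mul_right, hs.zpow_right, hs.self hn]
    rw [hs.anti hn a b]
    module
  by_cases hj : (n : ℤ) ∣ j
  swap
  · refine Inv.of_zsmul hs (hs.tors _ _) (gcd_of j hj) ?_
    rw [← ea]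
    exact fin_t hs hp h5 σ hm hσ hCa (by rw [← hφ, ea]; exact sne j hj) h12
  by_cases hk : (n : ℤ) ∣ k
  swap
  · have hk' : ¬ (n : ℤ) ∣ -k := fun h => hk ((dvd_neg).mp h)
    refine Inv.of_zsmul hs (hs.tors _ _) (gcd_of (-k) hk') ?_
    rw [← eb]
    exact fin_t hs hp h5 σ hm hσ hCb (by rw [← hφ, eb]; exact sne _ hk') h12
  by_cases hil : (n : ℤ) ∣ j + l - i - k
  swap
  · refine Inv.of_zsmul hs (hs.tors _ _) (gcd_of _ hil) ?_
    rw [← eab]
    refine fin_t hs hp h5 σ hm hσ (t := i + l) ?_ (by rw [← hφ, eab]; exact sne _ hil) h12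
    have h1 := hCa.mul hCb
    rw [← map_mul, ← map_mul] at h1
    have h2 : φ a ^ (i + l) * a⁻¹ * (φ b ^ (i + l) * b⁻¹) = φ (a * b) ^ (i + l) * (a * b)⁻¹ := by
      rw [map_mul, mul_zpow, mul_inv, mul_mul_mul_comm]
    rw [h2] at h1
    exact h1
  have hil2 : (n : ℤ) ∣ l - i := by
    have h1 : l - i = (j + l - i - k) - j + k := by ring
    rw [h1]
    exact dvd_add (dvd_sub hil hj) hk
  have hii : (n : ℤ) ∣ (i - 1) * (i + 1) := by
    have h1 : (i - 1) * (i + 1) = (i * l - j * k - 1) - i * (l - i) + j * k := by ring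
    rw [h1]
    exact dvd_add (dvd_sub hdet (hil2.mul_left i)) (hj.mul_right k)
  rcases (Nat.prime_iff_prime_int.mp hp).dvd_or_dvd hii with h1 | h1
  · refine fin_one hs hp h5 σ h12 ?_ ?_
    · refine ha.trans ?_
      have h2 := (NP.of_dvd (n := n) (i := i) (j := 1) h1 a).mul
        (NP.of_dvd (n := n) (i := j) (j := 0) (by simpa using hj) b)
      simpa using h2
    · refine hb.trans ?_
      have h2 := (NP.of_dvd (n := n) (i := k) (j := 0) (by simpa using hk) a).mul
        (NP.of_dvd (n := n) (i := l) (j := 1)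
          (by have h3 : l - 1 = (l - i) + (i - 1) := by ring
              rw [h3]
              exact dvd_add hil2 h1) b)
      simpa using h2
  · refine fin_two hs hp h5 σ h12 ?_ ?_
    · refine ha.trans ?_
      have h2 := (NP.of_dvd (n := n) (i := i) (j := -1) (by simpa using h1) a).mul
        (NP.of_dvd (n := n) (i := j) (j := 0) (by simpa using hj) b)
      simpa using h2
    · refine hb.trans ?_
      have h2 := (NP.of_dvd (n := n) (i := k) (j := 0) (by simpa using hk) a).mul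
        (NP.of_dvd (n := n) (i := l) (j := -1)
          (by have h3 : l - (-1) = (l - i) + (i + 1) := by ring
              rw [h3]
              exact dvd_add hil2 h1) b)
      simpa using h2

end

end Pool.Agent.Helper41.CF
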