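import Mathlib
import Pool.Agent.Helper41.CF.Albert

/-!
# From the `n`-central element to a cyclic maximal subfield
-/

set_option autoImplicit false

namespace Pool.Agent.Helper41.CF

universe u

theorem cyclic_of_central {F A : Type u} [Field F] [Ring A] [Algebra F A] [Algebra.IsCentral F A]
    {n : ℕ} (hn : n.Prime) (hn0 : (n : F) ≠ 0) (hA : Module.finrank F A = n ^ 2) {u : A}
    (hu : ∀ c : F, u ≠ algebraMap F A c) (hun : ∃ c : F, u ^ n = algebraMap F A c)
    (hdiv : ∀ t : A, t ≠ 0 → IsUnit t) :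
    ∃ (K : Subalgebra F A) (hK : IsField K), Module.finrank F K = n ∧
      (letI := hK.toField; IsGalois F K ∧ IsCyclic (K ≃ₐ[F] K)) ∧
      ∀ t ∈ K, ∃ t' ∈ K, u * t = t' * u := by
  have : Nontrivial A := by
    by_contra hnt
    rw [not_nontrivial_iff_subsingleton] at hnt
    have h := Module.finrank_zero_of_subsingleton (R := F) (M := A)
    rw [hA] at h
    exact hn.pos.ne' (pow_eq_zero_iff (two_ne_zero) |>.mp h)
  have hU : ∀ a : A, IsUnit a ∨ a = 0 := fun a => by
    by_cases ha : a = 0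
    · exact Or.inr ha
    · exact Or.inl (hdiv a ha)
  letI : DivisionRing A := DivisionRing.ofIsUnitOrEqZero hU
  have hcen : ∀ x : A, (∀ y, x * y = y * x) → ∃ c : F, algebraMap F A c = x := by
    intro x hx
    have h1 : x ∈ Subalgebra.center F A := by
      rw [Subalgebra.mem_center_iff]
      exact fun y => (hx y).symm
    have h2 := (inferInstance : Algebra.IsCentral F A).out h1
    rw [Algebra.mem_bot] at h2
    obtain ⟨c, hc⟩ := h2
    exact ⟨c, hc⟩
  obtain ⟨w, hw1, hw2⟩ := Alb.albert_ne hn hn0 hcen hA hu hun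
  obtain ⟨K, hK, hK5, hwK, hst, hgal⟩ := Alb.exists_cyclic hn hcen hA hun hw1 hw2
  have hu0 : u ≠ 0 := by
    rintro rfl
    exact hu 0 (map_zero _).symm
  refine ⟨K, hK, hK5, hgal, fun t ht => ⟨u * t * u⁻¹, hst t ht, ?_⟩⟩
  rw [mul_assoc (u * t), inv_mul_cancel₀ hu0, mul_one]

end Pool.Agent.Helper41.CF
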