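import Mathlib
import Pool.Agent.Helper41.CF.T36

/-!
# Invariant slots for the dihedral types `D_1`, `D_2`, `D_3`, `D_4`, `D_6`
-/

set_option autoImplicit false

namespace Pool.Agent.Helper41.CF

universe u v

variable {E : Type u} [Field E] {Q' : Type v} [AddCommGroup Q'] {n : ℕ} {s : Eˣ → Eˣ → Q'}

theorem slot_zero (hs : IsSymb n s) (σ c : E →+* E) {a b : Eˣ} (h : s a b = 0) :
    ∃ X Y : Eˣ, σ X = X ∧ c X = X ∧ s a b = s X Y :=
  ⟨1, 1, by simp, by simp, by rw [h, hs.one_left]⟩

/-- type `D_2` -/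
theorem dih_two (hs : IsSymb n s) (hn : Odd n) (σ c : E →+* E) (a b : Eˣ)
    (ha : (a : E) * σ a = 1) (hb : (b : E) * σ b = 1) (hca : c (a : E) = a)
    (hcb : (b : E) * c b = 1) :
    ∃ X Y : Eˣ, σ X = X ∧ c X = X ∧ s a b = s X Y := by
  by_cases hq : (a : E) - 1 = 0
  · have : a = 1 := Units.ext (sub_eq_zero.mp hq)
    exact slot_zero hs σ c (by rw [this, hs.one_left])
  by_cases hp : (b : E) - 1 = 0
  · have : b = 1 := Units.ext (sub_eq_zero.mp hp)
    exact slot_zero hs σ c (by rw [this, hs.one_right])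
  by_cases hd : (b : E) - a = 0
  · have : b = a := Units.ext (sub_eq_zero.mp hd)
    exact slot_zero hs σ c (by rw [this, hs.self hn])
  by_cases he : 1 - (a : E) * b = 0
  · have : b = a⁻¹ := by
      rw [eq_inv_iff_mul_eq_one, mul_comm]
      exact Units.ext (by simpa using (sub_eq_zero.mp he).symm)
    exact slot_zero hs σ c (by rw [this, hs.inv_right, hs.self hn, neg_zero])
  have hσa : σ (a : E) = (a : E)⁻¹ := eq_inv_of_mul_eq_one_right ha
  have hσb : σ (b : E) = (b : E)⁻¹ := eq_inv_of_mul_eq_one_right hb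
  have hcb' : c (b : E) = (b : E)⁻¹ := eq_inv_of_mul_eq_one_right hcb
  have ha0 := a.ne_zero
  have hb0 := b.ne_zero
  have h1a : 1 - (a : E) ≠ 0 := fun h => hq (by rw [← neg_sub, h, neg_zero])
  have h1b : 1 - (b : E) ≠ 0 := fun h => hp (by rw [← neg_sub, h, neg_zero])
  refine ⟨(Units.mk0 _ hq ^ 2 / a) / (Units.mk0 _ hp ^ 2 / b), Units.mk0 _ he / Units.mk0 _ hd,
    ?_, ?_, hs.quart_identity hn (by simp) (by simp) (by simp) (by simp)⟩
  · simp only [Units.val_div_eq_div_val, Units.val_pow_eq_pow_val, Units.val_mk0,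
      map_div₀, map_pow, map_sub, map_one, hσa, hσb]
    field_simp
    ring
  · simp only [Units.val_div_eq_div_val, Units.val_pow_eq_pow_val, Units.val_mk0,
      map_div₀, map_pow, map_sub, map_one, hca, hcb']
    field_simp
    ring

/-- type `D_4` -/
theorem dih_four (hs : IsSymb n s) (hn : Odd n) (σ c : E →+* E) (a b : Eˣ)
    (hab : σ (a : E) = b) (hb : (a : E) * σ b = 1) (hca : c (a : E) = a)
    (hcb : (b : E) * c b = 1) :
    ∃ X Y : Eˣ, σ X = X ∧ c X = X ∧ s a b = s X Y := by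
  by_cases hq : (a : E) - 1 = 0
  · have : a = 1 := Units.ext (sub_eq_zero.mp hq)
    exact slot_zero hs σ c (by rw [this, hs.one_left])
  by_cases hp : (b : E) - 1 = 0
  · have : b = 1 := Units.ext (sub_eq_zero.mp hp)
    exact slot_zero hs σ c (by rw [this, hs.one_right])
  by_cases hd : (b : E) - a = 0
  · have : b = a := Units.ext (sub_eq_zero.mp hd)
    exact slot_zero hs σ c (by rw [this, hs.self hn])
  by_cases he : 1 - (a : E) * b = 0
  · have : b = a⁻¹ := by
      rw [eq_inv_iff_mul_eq_one, mul_comm]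
      exact Units.ext (by simpa using (sub_eq_zero.mp he).symm)
    exact slot_zero hs σ c (by rw [this, hs.inv_right, hs.self hn, neg_zero])
  have hσb : σ (b : E) = (a : E)⁻¹ := eq_inv_of_mul_eq_one_right hb
  have hcb' : c (b : E) = (b : E)⁻¹ := eq_inv_of_mul_eq_one_right hcb
  have ha0 := a.ne_zero
  have hb0 := b.ne_zero
  have hd' : (a : E) - b ≠ 0 := fun h => hd (by rw [← neg_sub, h, neg_zero])
  have h1a : 1 - (a : E) ≠ 0 := fun h => hq (by rw [← neg_sub, h, neg_zero])
  have h1b : 1 - (b : E) ≠ 0 := fun h => hp (by rw [← neg_sub, h, neg_zero])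
  have hinv : (a : E)⁻¹ - 1 ≠ 0 := by
    intro h
    apply h1a
    have : (a : E) * ((a : E)⁻¹ - 1) = 0 := by rw [h, mul_zero]
    rwa [mul_sub, mul_inv_cancel₀ ha0, mul_one] at this
  set P := Units.mk0 _ hp
  set R := Units.mk0 _ hq
  set D := Units.mk0 _ hd
  set G := Units.mk0 _ he
  set A1 : Eˣ := (R ^ 2 / a) / (P ^ 2 / b) with hA1
  have hid : s a b = s A1 (G / D) :=
    hs.quart_identity hn (a := a) (b := b) (p := P) (q := R) (d := D) (e := G) (by simp [P])
      (by simp [R]) (by simp [D]) (by simp [G])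
  have hid2 : s a b = s A1 ((G / D) ^ (n + 1)) := by
    rw [hs.pow_right, succ_nsmul, hs.tors, zero_add, hid]
  have hA : (A1 : E) * σ A1 = 1 := by
    simp only [hA1, P, R, Units.val_div_eq_div_val,
      Units.val_pow_eq_pow_val, Units.val_mk0,
      map_div₀, map_pow, map_sub, map_one, hab, hσb]
    field_simp
    ring
  have hcA : c (A1 : E) = A1 := by
    simp only [hA1, P, R, Units.val_div_eq_div_val,
      Units.val_pow_eq_pow_val, Units.val_mk0,
      map_div₀, map_pow, map_sub, map_one, hca, hcb']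
    field_simp
    ring
  have hG : ((G / D : Eˣ) : E) * σ (G / D : Eˣ) = -1 := by
    simp only [G, D, Units.val_div_eq_div_val,
      Units.val_mk0,
      map_div₀, map_mul, map_sub, map_one, hab, hσb]
    have h5 : (a : E)⁻¹ - b ≠ 0 := by
      intro h
      apply he
      have : (a : E) * ((a : E)⁻¹ - b) = 0 := by rw [h, mul_zero]
      rwa [mul_sub, mul_inv_cancel₀ ha0] at this
    field_simp
    ring
  have hcG : ((G / D : Eˣ) : E) * c (G / D : Eˣ) = 1 := by
    simp only [G, D, Units.val_div_eq_div_val,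
      Units.val_mk0,
      map_div₀, map_mul, map_sub, map_one, hca, hcb']
    have h5 : (b : E)⁻¹ - a ≠ 0 := by
      intro h
      apply he
      have : (b : E) * ((b : E)⁻¹ - a) = 0 := by rw [h, mul_zero]
      rwa [mul_sub, mul_inv_cancel₀ hb0, mul_comm (b : E) a] at this
    have h6 : (1 : E) - b * a ≠ 0 := by rwa [mul_comm (b : E) a]
    field_simp
  have hG2 : (((G / D) ^ (n + 1) : Eˣ) : E) * σ ((G / D) ^ (n + 1) : Eˣ) = 1 := by
    rw [Units.val_pow_eq_pow_val, map_pow, ← mul_pow, hG]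
    exact hn.add_one.neg_one_pow
  have hcG2 : (((G / D) ^ (n + 1) : Eˣ) : E) * c ((G / D) ^ (n + 1) : Eˣ) = 1 := by
    rw [Units.val_pow_eq_pow_val, map_pow, ← mul_pow, hcG, one_pow]
  obtain ⟨X, Y, hX, hY, hXY⟩ := dih_two hs hn σ c A1 ((G / D) ^ (n + 1)) hA hG2 hcA hcG2
  exact ⟨X, Y, hX, hY, hid2.trans hXY⟩

/-- the effect of a transposition on the quantities of the cubic identity -/
theorem Cub.swap {x y z A B C R U V : Eˣ} (h : Cub x y z A B C R U V) (c : E →+* E)
    (hx : c (x : E) = y) (hy : c (y : E) = x) (hz : c (z : E) = z) :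
    c ((x * y * z * R ^ 3 / (A * B * C) ^ 3 : Eˣ) : E) =
      -((x * y * z * R ^ 3 / (A * B * C) ^ 3 : Eˣ) : E) ∧
    ((U / V : Eˣ) : E) * c ((U / V : Eˣ) : E) = 1 := by
  have cA : c (A : E) = -A := by rw [h.hA, map_sub, hx, hy]; ring
  have cB : c (B : E) = -C := by rw [h.hB, h.hC, map_sub, hy, hz]; ring
  have cC : c (C : E) = -B := by rw [h.hC, h.hB, map_sub, hx, hz]; ring
  have cR : c (R : E) = R := by
    rw [h.hQ]
    simp only [map_sub, map_add, map_mul, map_pow, hx, hy, hz]
    ring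
  have cU : c (U : E) = V := by
    rw [h.hU, h.hV]
    simp only [map_sub, map_add, map_mul, map_pow, map_ofNat, hx, hy, hz]
    ring
  have cV : c (V : E) = U := by
    rw [h.hU, h.hV]
    simp only [map_sub, map_add, map_mul, map_pow, map_ofNat, hx, hy, hz]
    ring
  have hA0 := A.ne_zero
  have hB0 := B.ne_zero
  have hC0 := C.ne_zero
  have hU0 := U.ne_zero
  have hV0 := V.ne_zero
  constructor
  · simp only [Units.val_div_eq_div_val, Units.val_mul, Units.val_pow_eq_pow_val, map_div₀, map_mul,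
      map_pow, cA, cB, cC, cR, hx, hy, hz]
    field_simp
  · simp only [Units.val_div_eq_div_val, map_div₀, cU, cV]
    field_simp

/-- type `D_3` -/
theorem dih_three (hs : IsSymb n s) (hn : Odd n) (h3 : Nat.Coprime 3 n) (σ c : E →+* E) (a b : Eˣ)
    (hab : σ (a : E) = b) (hb : (a : E) * b * σ b = 1) (hca : (a : E) * c a = 1)
    (hcb : c (b : E) = a * b) :
    ∃ X Y : Eˣ, σ X = X ∧ c X = X ∧ s a b = s X Y := by
  have hσb : σ (b : E) = (a * b : E)⁻¹ := eq_inv_of_mul_eq_one_right hb
  have hca' : c (a : E) = (a : E)⁻¹ := eq_inv_of_mul_eq_one_right hca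
  have ha0 := a.ne_zero
  have hb0 := b.ne_zero
  by_cases hx : 1 + (a : E) + a * b = 0
  · refine slot_zero hs σ c ?_
    have h := hs.stein3 hn (a := 1) (b := a) (c := -(a * b)) (by
      push_cast
      linear_combination hx)
    rw [hs.one_left, hs.one_left, hs.neg_left hn, hs.mul_left, hs.self hn, hs.anti hn a b] at h
    simpa using h
  set x : Eˣ := Units.mk0 _ hx with hxdef
  have hσx : σ (x : E) = ((x / a : Eˣ) : E) := by
    rw [Units.val_div_eq_div_val, hxdef, Units.val_mk0]
    simp only [map_add, map_mul, map_one, hab, hσb]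
    field_simp
    ring
  have hσy : σ ((x / a : Eˣ) : E) = ((x / (a * b) : Eˣ) : E) := by
    rw [Units.val_div_eq_div_val, map_div₀, hσx, hab]
    simp only [Units.val_div_eq_div_val, Units.val_mul]
    field_simp
  have hσz : σ ((x / (a * b) : Eˣ) : E) = (x : E) := by
    rw [Units.val_div_eq_div_val, map_div₀, hσx]
    simp only [Units.val_div_eq_div_val, Units.val_mul, map_mul, hab, hσb]
    field_simp
  have hcx : c (x : E) = ((x / a : Eˣ) : E) := by
    rw [Units.val_div_eq_div_val, hxdef, Units.val_mk0]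
    simp only [map_add, map_mul, map_one, hca', hcb]
    field_simp
    ring
  have hcy : c ((x / a : Eˣ) : E) = (x : E) := by
    rw [Units.val_div_eq_div_val, map_div₀, hcx, hca']
    simp only [Units.val_div_eq_div_val]
    field_simp
  have hcz : c ((x / (a * b) : Eˣ) : E) = ((x / (a * b) : Eˣ) : E) := by
    rw [Units.val_div_eq_div_val, map_div₀, hcx]
    simp only [Units.val_div_eq_div_val, Units.val_mul, map_mul, hca', hcb]
    field_simp
  rw [cyc_sum hs hn a b x]
  set y : Eˣ := x / a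
  set z : Eˣ := x / (a * b)
  rcases hs.cub_cases hn h3 x y z with h | ⟨A, B, C, R, U, V, h⟩
  · rw [h]
    exact ⟨1, 1, by simp, by simp, by rw [hs.one_left]⟩
  have hW := hs.cub_identity hn h
  obtain ⟨hcW, -⟩ := h.swap c hcx hcy hcz
  have hσW : σ ((x * y * z * R ^ 3 / (A * B * C) ^ 3 : Eˣ) : E) =
      ((x * y * z * R ^ 3 / (A * B * C) ^ 3 : Eˣ) : E) := by
    simp only [Units.val_div_eq_div_val, Units.val_mul, Units.val_pow_eq_pow_val, map_div₀, map_mul,
      map_pow, h.hA, h.hB, h.hC, h.hQ, map_sub, map_add, hσx, hσy, hσz]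
    congr 1
    · ring
    · ring
  set W : Eˣ := x * y * z * R ^ 3 / (A * B * C) ^ 3
  refine ⟨W ^ (n + 1), U / V, ?_, ?_, ?_⟩
  · rw [Units.val_pow_eq_pow_val, map_pow, hσW]
  · rw [Units.val_pow_eq_pow_val, map_pow, hcW, hn.add_one.neg_pow]
  · rw [hs.pow_left, succ_nsmul, hs.tors, zero_add, hW]

/-- type `D_6` -/
theorem dih_six (hs : IsSymb n s) (hn : Odd n) (h3 : Nat.Coprime 3 n) (σ c : E →+* E) (a b : Eˣ)
    (hab : σ (a : E) = b) (hb : (a : E) * σ b = b) (hca : (a : E) * c a = 1)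
    (hcb : (a : E) * c b = b) (hcσ : ∀ e, σ (c (σ e)) = c e) :
    ∃ X Y : Eˣ, σ X = X ∧ c X = X ∧ s a b = s X Y := by
  have ha0 := a.ne_zero
  have hb0 := b.ne_zero
  have hσb : σ (b : E) = (b : E) / a := by
    rw [eq_div_iff ha0, mul_comm]
    exact hb
  have hca' : c (a : E) = (a : E)⁻¹ := eq_inv_of_mul_eq_one_right hca
  have hcb' : c (b : E) = (b : E) / a := by
    rw [eq_div_iff ha0, mul_comm]
    exact hcb
  by_cases hx1 : 1 + (a : E) + b = 0
  · refine slot_zero hs σ c ?_
    have h := hs.stein3 hn (a := 1) (b := a) (c := -b) (by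
      push_cast
      linear_combination hx1)
    rw [hs.one_left, hs.one_left, hs.neg_left hn, hs.anti hn a b] at h
    simpa using h
  by_cases hx2 : (a : E) * b + a + b = 0
  · refine slot_zero hs σ c ?_
    have h := hs.stein3 hn (a := 1) (b := a⁻¹) (c := -b⁻¹) (by
      push_cast
      field_simp
      linear_combination hx2)
    rw [hs.one_left, hs.one_left, hs.neg_left hn, hs.inv_left, hs.inv_right, hs.anti hn a b] at h
    simpa using h
  set x : Eˣ := Units.mk0 _ hx2 / Units.mk0 _ hx1 with hxdef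
  have hxv : (x : E) = (a * b + a + b) / (1 + a + b) := by
    rw [hxdef, Units.val_div_eq_div_val, Units.val_mk0, Units.val_mk0]
  set y : Eˣ := x / a with hy
  set z : Eˣ := x / b with hz
  have hx0 := x.ne_zero
  have hy0 := y.ne_zero
  have hz0 := z.ne_zero
  have hyv : (y : E) = x / a := by rw [hy, Units.val_div_eq_div_val]
  have hzv : (z : E) = x / b := by rw [hz, Units.val_div_eq_div_val]
  have h1 : (a : E) + b + 1 ≠ 0 := by
    intro h
    exact hx1 (by rw [← h]; ring)
  have hσx : σ (x : E) = (z : E)⁻¹ := by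
    have h2 : (1 : E) + b + b / a ≠ 0 := by
      intro h
      apply hx2
      have : (a : E) * (1 + b + b / a) = 0 := by rw [h, mul_zero]
      field_simp at this
      linear_combination this
    rw [hzv, hxv]
    simp only [map_add, map_mul, map_div₀, map_one, hab, hσb]
    rw [inv_div, div_div_eq_mul_div, div_eq_div_iff h2 hx2]
    field_simp
    ring
  have hσy : σ (y : E) = (x : E)⁻¹ := by
    rw [hyv, map_div₀, hσx, hab, hzv]
    field_simp
  have hσz : σ (z : E) = (y : E)⁻¹ := by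
    rw [hzv, map_div₀, hσx, hσb, hyv, hzv]
    field_simp
  have hcx : c (x : E) = y := by
    have h2 : (1 : E) + (a : E)⁻¹ + b / a ≠ 0 := by
      intro h
      apply hx1
      have : (a : E) * (1 + (a : E)⁻¹ + b / a) = 0 := by rw [h, mul_zero]
      field_simp at this
      linear_combination this
    rw [hyv, hxv]
    simp only [map_add, map_mul, map_div₀, map_one, hca', hcb']
    rw [div_div, div_eq_div_iff h2 (mul_ne_zero hx1 ha0)]
    field_simp
    ring
  have hcy : c (y : E) = x := by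
    rw [hyv, map_div₀, hcx, hca', hyv]
    field_simp
  have hcz : c (z : E) = z := by
    rw [hzv, map_div₀, hcx, hcb', hyv]
    field_simp
  have hD : s a b = s x y + s y z + s z x := by
    have h1 := cyc_sum hs hn a (b / a) x
    rw [mul_div_cancel, hs.div_right, hs.self hn, sub_zero] at h1
    exact h1
  rcases hs.cub_cases hn h3 x y z with h | ⟨A, B, C, R, U, V, h⟩
  · rw [hD, h]
    exact ⟨1, 1, by simp, by simp, by rw [hs.one_left]⟩
  obtain ⟨hcW, hcX⟩ := h.swap c hcx hcy hcz
  set m : Eˣ →* Eˣ := Units.map (σ : E →* E) with hm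
  have hmv : ∀ u : Eˣ, ((m u : Eˣ) : E) = σ (u : E) := fun u => rfl
  have hmx : m x = z⁻¹ := Units.ext (by rw [hmv, hσx, Units.val_inv_eq_inv_val])
  have hmy : m y = x⁻¹ := Units.ext (by rw [hmv, hσy, Units.val_inv_eq_inv_val])
  have hmz : m z = y⁻¹ := Units.ext (by rw [hmv, hσz, Units.val_inv_eq_inv_val])
  have h' : Cub (m x) (m y) (m z) (m A) (m B) (m C) (m R) (m U) (m V) := by
    constructor <;> simp only [hmv]
    · rw [h.hA, map_sub]
    · rw [h.hB, map_sub]
    · rw [h.hC, map_sub]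
    · rw [h.hQ]
      simp only [map_sub, map_add, map_mul, map_pow]
    · rw [h.hU]
      simp only [map_sub, map_add, map_mul, map_pow, map_ofNat]
    · rw [h.hV]
      simp only [map_sub, map_add, map_mul, map_pow, map_ofNat]
  set W : Eˣ := x * y * z * R ^ 3 / (A * B * C) ^ 3 with hW
  set X : Eˣ := U / V with hX
  have hD1 : s a b = s W X := hD.trans (hs.cub_identity hn h)
  have hD2 : s a b = s (m W) (m X) := by
    have h4 := hs.cub_identity hn h'
    have h5 : m x * m y * m z * m R ^ 3 / (m A * m B * m C) ^ 3 = m W := by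
      rw [hW]
      simp only [map_div, map_mul, map_pow]
    have h6 : m U / m V = m X := by rw [hX, map_div]
    rw [h5, h6] at h4
    rw [← h4, hmx, hmy, hmz, hD]
    simp only [hs.inv_left, hs.inv_right, neg_neg]
    abel
  have hmX : m X = X⁻¹ := by
    ext
    rw [hmv, hX]
    simp only [Units.val_inv_eq_inv_val, Units.val_div_eq_div_val, map_div₀, h.hU, h.hV, map_sub,
      map_add, map_mul, map_pow, map_ofNat, hσx, hσy, hσz]
    rw [inv_div]
    have e1 : ((z : E)⁻¹ ^ 2 * (x : E)⁻¹ + (x : E)⁻¹ ^ 2 * (y : E)⁻¹ + (y : E)⁻¹ ^ 2 * (z : E)⁻¹ -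
        3 * (z : E)⁻¹ * (x : E)⁻¹ * (y : E)⁻¹) = V * ((x * y * z : E)⁻¹ ^ 2) := by
      rw [h.hV]
      field_simp
    have e2 : ((z : E)⁻¹ * (x : E)⁻¹ ^ 2 + (x : E)⁻¹ * (y : E)⁻¹ ^ 2 + (y : E)⁻¹ * (z : E)⁻¹ ^ 2 -
        3 * (z : E)⁻¹ * (x : E)⁻¹ * (y : E)⁻¹) = U * ((x * y * z : E)⁻¹ ^ 2) := by
      rw [h.hU]
      field_simp
      ring
    rw [e1, e2, ← h.hU, ← h.hV]
    have e3 : ((x * y * z : E)⁻¹ ^ 2) ≠ 0 := by
      apply pow_ne_zero
      apply inv_ne_zero
      exact mul_ne_zero (mul_ne_zero hx0 hy0) hz0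
    rw [mul_div_mul_right _ _ e3]
  have hmmW : m (m W) = W := by
    have hmmx : m (m x) = y := by rw [hmx, map_inv, hmz, inv_inv]
    have hmmy : m (m y) = z := by rw [hmy, map_inv, hmx, inv_inv]
    have hmmz : m (m z) = x := by rw [hmz, map_inv, hmy, inv_inv]
    have kx : σ (σ (x : E)) = y := congrArg Units.val hmmx
    have ky : σ (σ (y : E)) = z := congrArg Units.val hmmy
    have kz : σ (σ (z : E)) = x := congrArg Units.val hmmz
    have hmmA : m (m A) = B := Units.ext (by
      rw [hmv, hmv, h.hA, h.hB, map_sub, map_sub, kx, ky])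
    have hmmB : m (m B) = C := Units.ext (by
      rw [hmv, hmv, h.hB, h.hC, map_sub, map_sub, ky, kz])
    have hmmC : m (m C) = A := Units.ext (by
      rw [hmv, hmv, h.hC, h.hA, map_sub, map_sub, kx, kz])
    have hmmR : m (m R) = R := Units.ext (by
      rw [hmv, hmv, h.hQ]
      simp only [map_sub, map_add, map_mul, map_pow, kx, ky, kz]
      ring)
    rw [hW]
    simp only [map_div, map_mul, map_pow, hmmx, hmmy, hmmz, hmmA, hmmB, hmmC, hmmR]
    rw [← mul_rotate x y z, ← mul_rotate A B C]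
  clear_value W X
  have hcσW : c (σ (W : E)) = -σ (W : E) := by
    have h7 := hcσ (σ (W : E))
    have h8 : σ (σ (W : E)) = W := congrArg Units.val hmmW
    rw [h8, hcW, map_neg] at h7
    exact h7.symm
  obtain ⟨k, hk⟩ := hn
  have hfin : s a b = s ((W / m W) ^ (k + 1)) X := by
    have h7 : (2 : ℕ) • s a b = s (W / m W) X := by
      rw [hs.div_left, two_nsmul]
      conv_lhs => rw [hD1]
      rw [← hD1]
      conv_lhs =>
        arg 2
        rw [hD2, hmX, hs.inv_right]
      rw [hD1]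
      abel
    rw [hs.pow_left, ← h7, smul_smul]
    have h8 : (k + 1) * 2 = n + 1 := by omega
    rw [h8, succ_nsmul, hs.tors, zero_add]
  have hW1 : (((W / m W) ^ (k + 1) : Eˣ) : E) * σ (((W / m W) ^ (k + 1) : Eˣ) : E) = 1 := by
    rw [← hmv, ← Units.val_mul, map_pow, map_div, hmmW, ← mul_pow, div_mul_div_cancel, div_self',
      one_pow, Units.val_one]
  have hX1 : (X : E) * σ X = 1 := by
    rw [← hmv, hmX, ← Units.val_mul, mul_inv_cancel, Units.val_one]
  have hcW1 : c (((W / m W) ^ (k + 1) : Eˣ) : E) = (((W / m W) ^ (k + 1) : Eˣ) : E) := by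
    rw [Units.val_pow_eq_pow_val, map_pow, Units.val_div_eq_div_val, map_div₀, hcW, hmv, hcσW,
      neg_div_neg_eq]
  obtain ⟨X', Y', hX', hY', hXY⟩ := dih_two hs ⟨k, hk⟩ σ c _ _ hW1 hX1 hcW1 hcX
  exact ⟨X', Y', hX', hY', hfin.trans hXY⟩

end Pool.Agent.Helper41.CF
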