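import Mathlib
import Pool.Agent.Helper41.CF.Cases
import Pool.Agent.Helper41.CF.St.D4
import Pool.Agent.Helper41.CF.St.G7
import Pool.Agent.Helper41.CF.St.G8
import Pool.Agent.Helper41.CF.St.F1

/-!
# Stable frame planes over cyclic extensions of degree 1, 2, 3, 4, 6
-/

set_option autoImplicit false

open TensorProduct

namespace Pool.Agent.Helper41.CF

universe u

variable {F L A : Type u} [Field F] [Field L] [Algebra F L] [Ring A] [Algebra F A] {n : ℕ}

/-- the action of a Galois automorphism on frames -/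
theorem IsFr.galois {ζ : F} {a b : Lˣ} {x y : L ⊗[F] A}
    (h : IsFr n (algebraMap F L ζ) (a, b) (x, y)) (g : L ≃ₐ[F] L) :
    IsFr n (algebraMap F L ζ)
      (Units.map ((g : L →+* L) : L →* L) a, Units.map ((g : L →+* L) : L →* L) b)
      (Algebra.TensorProduct.map (g : L →ₐ[F] L) (AlgHom.id F A) x,
        Algebra.TensorProduct.map (g : L →ₐ[F] L) (AlgHom.id F A) y) := by
  have hc : ∀ e : L, Algebra.TensorProduct.map (g : L →ₐ[F] L) (AlgHom.id F A)
      (algebraMap L (L ⊗[F] A) e) = algebraMap L (L ⊗[F] A) (g e) := by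
    intro e
    rw [Algebra.TensorProduct.algebraMap_apply, Algebra.TensorProduct.algebraMap_apply,
      Algebra.TensorProduct.map_tmul]
    simp
  refine ⟨?_, ?_, ?_⟩
  · show (Algebra.TensorProduct.map (g : L →ₐ[F] L) (AlgHom.id F A) x) ^ n = _
    rw [← map_pow, h.pow_fst, hc]
    rfl
  · show (Algebra.TensorProduct.map (g : L →ₐ[F] L) (AlgHom.id F A) y) ^ n = _
    rw [← map_pow, h.pow_snd, hc]
    rfl
  · show (Algebra.TensorProduct.map (g : L →ₐ[F] L) (AlgHom.id F A) x) *
      (Algebra.TensorProduct.map (g : L →ₐ[F] L) (AlgHom.id F A) y) = _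
    rw [← map_mul, h.comm, Algebra.smul_def, map_mul, hc, AlgEquiv.commutes, ← Algebra.smul_def,
      map_mul]

theorem main [Module.Finite F L] [IsGalois F L] [IsCyclic (L ≃ₐ[F] L)] [IsSimpleRing A]
    [Module.Finite F A] (hp : n.Prime) (h5 : 5 ≤ n)
    (hd : Module.finrank F L = 1 ∨ Module.finrank F L = 2 ∨ Module.finrank F L = 3 ∨
      Module.finrank F L = 4 ∨ Module.finrank F L = 6)
    (hA : Module.finrank F A = n ^ 2) {ζ : F} (hζ : IsPrimitiveRoot ζ n) {a b : Lˣ}
    {x y : L ⊗[F] A} (h : IsFr n (algebraMap F L ζ) (a, b) (x, y))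
    (ha : ∀ g : L ≃ₐ[F] L, ∃ (i j : ℤ) (c : Lˣ), g (a : L) = (a : L) ^ i * (b : L) ^ j * (c : L) ^ n)
    (hb : ∀ g : L ≃ₐ[F] L, ∃ (i j : ℤ) (c : Lˣ), g (b : L) = (a : L) ^ i * (b : L) ^ j * (c : L) ^ n) :
    ∃ (u v : A) (α β : Fˣ), IsFr n ζ (α, β) (u, v) := by
  have hn : 0 < n := hp.pos
  have hz : IsPrimitiveRoot (algebraMap F L ζ) n := hζ.map_of_injective (algebraMap F L).injective
  obtain ⟨g, hg⟩ := IsCyclic.exists_generator (α := L ≃ₐ[F] L)
  obtain ⟨Q, _, s, hs, hexact⟩ := exists_group hn hz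
  set φ : Lˣ →* Lˣ := Units.map ((g : L →+* L) : L →* L) with hφ
  have hinv : s (φ a) (φ b) = s a b := by
    rw [hexact]
    exact sp_of_two_frames hA (h.galois g) h
  have hiter : ∀ (k : ℕ) (u : Lˣ), (((φ^[k]) u : Lˣ) : L) = (g ^ k) (u : L) := by
    intro k u
    induction k with
    | zero => simp
    | succ k ih =>
      rw [Function.iterate_succ_apply', pow_succ']
      show g _ = g _
      rw [ih]
      rfl
  have hcard : g ^ Module.finrank F L = 1 := by
    rw [← IsGalois.card_aut_eq_finrank]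
    exact pow_card_eq_one'
  have hσ : ∀ u, (φ^[Module.finrank F L]) u = u := by
    intro u
    ext
    rw [hiter, hcard]
    rfl
  obtain ⟨i, j, c, hc⟩ := ha g
  obtain ⟨k, l, d, hd'⟩ := hb g
  have ha' : NP n (φ a) (a ^ i * b ^ j) := ⟨c, by
    ext
    push_cast
    exact hc⟩
  have hb' : NP n (φ b) (a ^ k * b ^ l) := ⟨d, by
    ext
    push_cast
    exact hd'⟩
  obtain ⟨X, Y, hX, hY, hXY⟩ := stable_inv hs hp h5 (g : L →+* L) hd hσ ha' hb' hinv
  have hfix : ∀ e : Lˣ, g (e : L) = e → ∃ r : Fˣ, Units.map (algebraMap F L : F →* L) r = e := by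
    intro e he
    have h1 : ∀ τ : L ≃ₐ[F] L, τ (e : L) = e := by
      intro τ
      obtain ⟨k, rfl⟩ := Subgroup.mem_zpowers_iff.mp (hg τ)
      have h2 : g ∈ MulAction.stabilizer (L ≃ₐ[F] L) (e : L) := he
      exact Subgroup.zpow_mem _ h2 k
    obtain ⟨r, hr⟩ := (IsGalois.mem_range_algebraMap_iff_fixed (F := F) (E := L) (e : L)).mpr h1
    have hr0 : r ≠ 0 := by
      rintro rfl
      rw [map_zero] at hr
      exact e.ne_zero hr.symm
    exact ⟨Units.mk0 r hr0, Units.ext hr⟩
  obtain ⟨α, rfl⟩ := hfix X hX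
  obtain ⟨β, rfl⟩ := hfix Y hY
  have hco : (Module.finrank F L).Coprime n := by
    rw [Nat.coprime_comm, Nat.Prime.coprime_iff_not_dvd hp]
    intro hdv
    have hpos : 0 < Module.finrank F L := Module.finrank_pos
    have hle := Nat.le_of_dvd hpos hdv
    rcases hd with h0 | h0 | h0 | h0 | h0
    · omega
    · omega
    · omega
    · omega
    · rw [h0] at hdv hle
      interval_cases n
      · omega
      · exact absurd hp (by decide)
  have h1 := (spl_of_frame hA h).transfer hn hz ((hexact a b _ _).mp hXY)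
  obtain ⟨u, v, huv⟩ := descent hn hζ hco hA α β h1
  exact ⟨u, v, α, β, huv⟩

end Pool.Agent.Helper41.CF
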