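import Mathlib
import Pool.Agent.Helper41.CF.Cases
import Pool.Agent.Helper41.CF.Dih
import Pool.Agent.Helper41.CF.St.M1
import Pool.Agent.Helper41.CF.St.M2
import Pool.Agent.Helper41.CF.St.M4
import Pool.Agent.Helper41.CF.St.M5

/-!
# Crystallographic actions: an invariant slot

If `Gal(L/F)` acts on the monomials in `a`, `b` through integral matrices, then (up to an integer
prime to `n`) the symbol of `a` and `b` equals `s X Y` with `X` in `F`.
-/

set_option autoImplicit false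

open Matrix

namespace Pool.Agent.Helper41.CF

universe u v

section ev

variable {E : Type u} [Field E] (a b : Eˣ)

theorem ev_zero : ev a b 0 = 1 := by simp [ev]

theorem ev_add (v w : Fin 2 → ℤ) : ev a b (v + w) = ev a b v * ev a b w := by
  simp only [ev, Pi.add_apply, _root_.zpow_add]
  rw [mul_mul_mul_comm]

theorem ev_neg (v : Fin 2 → ℤ) : ev a b (-v) = (ev a b v)⁻¹ := by
  simp only [ev, Pi.neg_apply, _root_.zpow_neg, mul_inv]

theorem ev_map {E' : Type v} [Field E'] (f : Eˣ →* E'ˣ) (v : Fin 2 → ℤ) :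
    f (ev a b v) = ev (f a) (f b) v := by
  simp only [ev, map_mul, map_zpow]

theorem ev_fst : ev a b ![1, 0] = a := by simp [ev]

theorem ev_snd : ev a b ![0, 1] = b := by simp [ev]

theorem symb_ev {Q : Type v} [AddCommGroup Q] {n : ℕ} {s : Eˣ → Eˣ → Q} (hs : IsSymb n s)
    (hn : Odd n) (v w : Fin 2 → ℤ) : s (ev a b v) (ev a b w) = dt v w • s a b := by
  simp only [ev, dt, hs.mul_left, hs.mul_right, hs.zpow_left, hs.zpow_right, hs.self hn]
  rw [hs.anti hn a b]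
  module

end ev

/-- the conjugation relation of a dihedral group, applied to a vector -/
theorem csv {S C : Matrix (Fin 2) (Fin 2) ℤ} {t ε : ℤ} (hS : S ^ 2 - t • S + 1 = 0)
    (hC : C ^ 2 = 1) (hCS : C * S * C * S = 1) {v : Fin 2 → ℤ} (hv : C *ᵥ v = ε • v) :
    C *ᵥ (S *ᵥ v) = ε • (t • v - S *ᵥ v) := by
  have h1 : (t • (1 : Matrix (Fin 2) (Fin 2) ℤ) - S) * S = 1 := by
    rw [sub_mul, smul_mul_assoc, one_mul]
    have h2 : t • S - S * S = 1 - (S ^ 2 - t • S + 1) := by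
      rw [pow_two]
      abel
    rw [h2, hS, sub_zero]
  have h2 : S * C * S = C := by
    have h3 : C * (C * S * C * S) = C * 1 := by rw [hCS]
    rw [mul_one] at h3
    have h4 : C * (C * S * C * S) = C ^ 2 * (S * C * S) := by
      rw [pow_two]
      simp only [mul_assoc]
    rwa [h4, hC, one_mul] at h3
  have h3 : C * S = (t • (1 : Matrix (Fin 2) (Fin 2) ℤ) - S) * C := by
    calc C * S = 1 * (C * S) := (one_mul _).symm
      _ = (t • (1 : Matrix (Fin 2) (Fin 2) ℤ) - S) * S * (C * S) := by rw [h1]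
      _ = (t • (1 : Matrix (Fin 2) (Fin 2) ℤ) - S) * (S * C * S) := by simp only [mul_assoc]
      _ = _ := by rw [h2]
  rw [mulVec_mulVec, h3, ← mulVec_mulVec, hv, mulVec_smul, sub_mulVec, smul_mulVec, one_mulVec]

theorem ssv {S : Matrix (Fin 2) (Fin 2) ℤ} {t : ℤ} (hS : S ^ 2 - t • S + 1 = 0)
    (v : Fin 2 → ℤ) : S *ᵥ (S *ᵥ v) = t • (S *ᵥ v) - v := by
  have h1 : S * S = t • S - 1 := by
    rw [← pow_two]
    have h2 : S ^ 2 = (S ^ 2 - t • S + 1) + (t • S - 1) := by abel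
    rw [h2, hS, zero_add]
  rw [mulVec_mulVec, h1, sub_mulVec, one_mulVec, smul_mulVec]

theorem det_cases {G : Type u} [Group G] (ρ : G →* Matrix (Fin 2) (Fin 2) ℤ) (g : G) :
    (ρ g).det = 1 ∨ (ρ g).det = -1 := by
  have h1 : (ρ g).det * (ρ g⁻¹).det = 1 := by
    rw [← det_mul, ← map_mul, mul_inv_cancel, map_one, det_one]
  exact Int.isUnit_iff.mp (IsUnit.of_mul_eq_one _ h1)

section slot

variable {F L : Type u} [Field F] [Field L] [Algebra F L] {Q : Type v} [AddCommGroup Q] {n : ℕ}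
  {s : Lˣ → Lˣ → Q}

theorem slot_exact [Finite (L ≃ₐ[F] L)] (hs : IsSymb n s) (hp : n.Prime) (h5 : 5 ≤ n)
    (ρ : (L ≃ₐ[F] L) →* Matrix (Fin 2) (Fin 2) ℤ) (a b : Lˣ)
    (hex : ∀ (g : L ≃ₐ[F] L) (v : Fin 2 → ℤ),
      g ((ev a b v : Lˣ) : L) = ((ev a b (ρ g *ᵥ v) : Lˣ) : L)) :
    ∃ (v w : Fin 2 → ℤ) (X Y : Lˣ), ¬ (n : ℤ) ∣ dt v w ∧ (∀ g : L ≃ₐ[F] L, g (X : L) = X) ∧
      s (ev a b v) (ev a b w) = s X Y := by
  have hn : Odd n := hp.odd_of_ne_two (by omega)
  have h3 : Nat.Coprime 3 n := by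
    rw [Nat.coprime_comm, Nat.Prime.coprime_iff_not_dvd hp]
    intro h
    have := Nat.le_of_dvd (by norm_num) h
    omega
  -- the field generated by `a` and `b`
  set K : IntermediateField F L := IntermediateField.adjoin F ({(a : L), (b : L)} : Set L) with hK
  have haK : (a : L) ∈ K := IntermediateField.subset_adjoin F _ (by simp)
  have hbK : (b : L) ∈ K := IntermediateField.subset_adjoin F _ (by simp)
  obtain ⟨aK, haK'⟩ : ∃ aK : Kˣ, ((aK : K) : L) = a :=
    ⟨Units.mk0 ⟨a, haK⟩ (fun h => a.ne_zero (congrArg Subtype.val h)), rfl⟩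
  obtain ⟨bK, hbK'⟩ : ∃ bK : Kˣ, ((bK : K) : L) = b :=
    ⟨Units.mk0 ⟨b, hbK⟩ (fun h => b.ne_zero (congrArg Subtype.val h)), rfl⟩
  obtain ⟨ι, hι⟩ : ∃ ι : Kˣ →* Lˣ, ∀ x : Kˣ, ((ι x : Lˣ) : L) = ((x : K) : L) :=
    ⟨Units.map (algebraMap K L : K →* L), fun x => rfl⟩
  have hιa : ι aK = a := Units.ext (by rw [hι, haK'])
  have hιb : ι bK = b := Units.ext (by rw [hι, hbK'])
  have hιev : ∀ v, ι (ev aK bK v) = ev a b v := fun v => by rw [ev_map, hιa, hιb]
  have hevL : ∀ v, (((ev aK bK v : Kˣ) : K) : L) = ((ev a b v : Lˣ) : L) := fun v => by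
    rw [← hι, hιev]
  have hsK : IsSymb n fun x y : Kˣ => s (ι x) (ι y) := by
    refine ⟨?_, ?_, ?_, ?_⟩
    · intro x x' y
      show s (ι (x * x')) (ι y) = _
      rw [map_mul, hs.mul_left]
    · intro x y y'
      show s (ι x) (ι (y * y')) = _
      rw [map_mul, hs.mul_right]
    · intro x y hxy
      refine hs.stein _ _ ?_
      rw [hι, hι]
      exact congrArg Subtype.val hxy
    · intro x y
      exact hs.tors _ _
  -- the automorphisms restricted to `K`
  have hga : ∀ g : L ≃ₐ[F] L, g (a : L) = ((ev a b (ρ g *ᵥ ![1, 0]) : Lˣ) : L) := fun g => by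
    rw [← hex, ev_fst]
  have hgb : ∀ g : L ≃ₐ[F] L, g (b : L) = ((ev a b (ρ g *ᵥ ![0, 1]) : Lˣ) : L) := fun g => by
    rw [← hex, ev_snd]
  have hres : ∀ g : L ≃ₐ[F] L, ∃ τ : K →+* K, ∀ x : K, ((τ x : K) : L) = g x := by
    intro g
    refine exists_restrict (a : L) b g ?_ ?_
    · rw [hga g, ← hevL]
      exact ((ev aK bK _ : Kˣ) : K).2
    · rw [hgb g, ← hevL]
      exact ((ev aK bK _ : Kˣ) : K).2
  choose τ hτ using hres
  have hτe : ∀ g v, τ g ((ev aK bK v : Kˣ) : K) = ((ev aK bK (ρ g *ᵥ v) : Kˣ) : K) := by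
    intro g v
    refine Subtype.ext ?_
    rw [hτ, hevL, hex, hevL]
  have hagree : ∀ g h : L ≃ₐ[F] L, ρ g = ρ h → ∀ x : K, g (x : L) = h (x : L) := by
    intro g h hgh x
    refine eq_on_adjoin (a : L) b g h ?_ ?_ x x.2
    · rw [hga, hga, hgh]
    · rw [hgb, hgb, hgh]
  have hpow : ∀ (g : L ≃ₐ[F] L) (X : L) (k : ℕ), g X = X → (g ^ k) X = X := by
    intro g X k h
    induction k with
    | zero => rfl
    | succ k ih =>
      rw [pow_succ]
      show (g ^ k) (g X) = X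
      rw [h, ih]
  -- choice of a rotation
  obtain ⟨σ, hσd, hσg, hσc⟩ := exists_rot ρ
  have hn1 : ¬ (n : ℤ) ∣ 1 := by
    intro h
    have := Int.le_of_dvd (by norm_num) h
    omega
  by_cases hc : ∃ c : L ≃ₐ[F] L, (ρ c).det = -1
  · obtain ⟨c, hc⟩ := hc
    have hC2 : (ρ c) ^ 2 = 1 := refl_sq ρ c hc
    have hCS : ρ c * ρ σ * ρ c * ρ σ = 1 := by
      have h1 : (ρ (c * σ)) ^ 2 = 1 := refl_sq ρ (c * σ) (by rw [map_mul, det_mul, hc, hσd, mul_one])
      rw [map_mul, pow_two] at h1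
      rw [← h1, ← mul_assoc]
    have hfix : ∀ X : Kˣ, τ σ (X : K) = X → τ c (X : K) = X →
        ∀ g : L ≃ₐ[F] L, g ((ι X : Lˣ) : L) = ((ι X : Lˣ) : L) := by
      intro X h1 h2 g
      rw [hι]
      have h1' : σ ((X : K) : L) = ((X : K) : L) := by rw [← hτ, h1]
      have h2' : c ((X : K) : L) = ((X : K) : L) := by rw [← hτ, h2]
      rcases det_cases ρ g with hg | hg
      · obtain ⟨k, hk⟩ := hσg g hg
        rw [hagree g (σ ^ k) (by rw [hk, map_pow])]
        exact hpow _ _ _ h1'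
      · obtain ⟨k, hk⟩ := hσg (c * g) (by rw [map_mul, det_mul, hc, hg]; norm_num)
        have h3 : ρ g = ρ (c * σ ^ k) := by
          rw [map_mul, map_pow, ← hk, map_mul, ← mul_assoc, ← pow_two, hC2, one_mul]
        rw [hagree g (c * σ ^ k) h3]
        show c ((σ ^ k) _) = _
        rw [hpow _ _ _ h1', h2']
    have hcσ : ∀ e, τ σ (τ c (τ σ e)) = τ c e := by
      intro e
      refine Subtype.ext ?_
      rw [hτ, hτ, hτ, hτ]
      have h4 : ρ (σ * c * σ) = ρ c := by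
        have h5 : ρ c * (ρ c * ρ σ * ρ c * ρ σ) = ρ c * 1 := by rw [hCS]
        rw [mul_one] at h5
        have h6 : ρ c * (ρ c * ρ σ * ρ c * ρ σ) = (ρ c) ^ 2 * (ρ σ * ρ c * ρ σ) := by
          rw [pow_two]
          simp only [mul_assoc]
        rw [h6, hC2, one_mul] at h5
        rw [map_mul, map_mul, h5]
      exact hagree (σ * c * σ) c h4 e
    rcases hσc with h | h | h | h | h
    · -- rotations act trivially
      obtain ⟨v, w, hv, hw, hd⟩ := vec_refl hp h5 (ρ c) hC2 hc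
      refine ⟨v, w, ev a b v, ev a b w, hd, ?_, rfl⟩
      have h1 := hfix (ev aK bK v) (by rw [hτe, h, one_mulVec]) (by rw [hτe, hv])
      intro g
      have := h1 g
      rwa [hιev] at this
    · obtain ⟨v, w, hv, hw, hd⟩ := vec_refl hp h5 (ρ c) hC2 hc
      obtain ⟨X, Y, hX, hX', hXY⟩ := dih_two hsK hn (τ σ) (τ c) (ev aK bK v) (ev aK bK w)
        (by rw [hτe, h, neg_mulVec, one_mulVec, ev_neg, ← Units.val_mul, mul_inv_cancel,
          Units.val_one])
        (by rw [hτe, h, neg_mulVec, one_mulVec, ev_neg, ← Units.val_mul, mul_inv_cancel,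
          Units.val_one])
        (by rw [hτe, hv])
        (by rw [hτe, hw, ev_neg, ← Units.val_mul, mul_inv_cancel, Units.val_one])
      refine ⟨v, w, ι X, ι Y, hd, hfix X hX hX', ?_⟩
      rw [← hιev, ← hιev]
      exact hXY
    · have hS : (ρ σ) ^ 2 - (-1 : ℤ) • ρ σ + 1 = 0 := by rw [← h, neg_smul, one_smul, sub_neg_eq_add]
      obtain ⟨v, hv, hd⟩ := vec_dih hp h5 (ρ σ) (ρ c) (-1) (by simp) hS hσd hC2 hc hCS (-1) (by simp)
      have hss := ssv hS v
      have hcs := csv hS hC2 hCS hv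
      obtain ⟨X, Y, hX, hX', hXY⟩ := dih_three hsK hn h3 (τ σ) (τ c) (ev aK bK v)
        (ev aK bK (ρ σ *ᵥ v)) (hτe _ _)
        (by
          rw [hτe, ← Units.val_mul, ← Units.val_mul, ← ev_add, ← ev_add, hss]
          have : v + ρ σ *ᵥ v + ((-1 : ℤ) • (ρ σ *ᵥ v) - v) = 0 := by module
          rw [this, ev_zero, Units.val_one])
        (by
          rw [hτe, ← Units.val_mul, ← ev_add, hv]
          have : v + (-1 : ℤ) • v = 0 := by module
          rw [this, ev_zero, Units.val_one])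
        (by
          rw [hτe, ← Units.val_mul, ← ev_add, hcs]
          have : (-1 : ℤ) • ((-1 : ℤ) • v - ρ σ *ᵥ v) = v + ρ σ *ᵥ v := by module
          rw [this])
      refine ⟨v, ρ σ *ᵥ v, ι X, ι Y, hd, hfix X hX hX', ?_⟩
      rw [← hιev, ← hιev]
      exact hXY
    · have hS : (ρ σ) ^ 2 - (0 : ℤ) • ρ σ + 1 = 0 := by rw [zero_smul, sub_zero, h]
      obtain ⟨v, hv, hd⟩ := vec_dih hp h5 (ρ σ) (ρ c) 0 (by simp) hS hσd hC2 hc hCS 1 (by simp)
      have hss := ssv hS v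
      have hcs := csv hS hC2 hCS hv
      obtain ⟨X, Y, hX, hX', hXY⟩ := dih_four hsK hn (τ σ) (τ c) (ev aK bK v)
        (ev aK bK (ρ σ *ᵥ v)) (hτe _ _)
        (by
          rw [hτe, ← Units.val_mul, ← ev_add, hss]
          have : v + ((0 : ℤ) • (ρ σ *ᵥ v) - v) = 0 := by module
          rw [this, ev_zero, Units.val_one])
        (by rw [hτe, hv, one_smul])
        (by
          rw [hτe, ← Units.val_mul, ← ev_add, hcs]
          have : ρ σ *ᵥ v + (1 : ℤ) • ((0 : ℤ) • v - ρ σ *ᵥ v) = 0 := by module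
          rw [this, ev_zero, Units.val_one])
      refine ⟨v, ρ σ *ᵥ v, ι X, ι Y, hd, hfix X hX hX', ?_⟩
      rw [← hιev, ← hιev]
      exact hXY
    · have hS : (ρ σ) ^ 2 - (1 : ℤ) • ρ σ + 1 = 0 := by rw [one_smul, h]
      obtain ⟨v, hv, hd⟩ := vec_dih hp h5 (ρ σ) (ρ c) 1 (by simp) hS hσd hC2 hc hCS (-1) (by simp)
      have hss := ssv hS v
      have hcs := csv hS hC2 hCS hv
      obtain ⟨X, Y, hX, hX', hXY⟩ := dih_six hsK hn h3 (τ σ) (τ c) (ev aK bK v)
        (ev aK bK (ρ σ *ᵥ v)) (hτe _ _)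
        (by
          rw [hτe, ← Units.val_mul, ← ev_add, hss]
          have : v + ((1 : ℤ) • (ρ σ *ᵥ v) - v) = ρ σ *ᵥ v := by module
          rw [this])
        (by
          rw [hτe, ← Units.val_mul, ← ev_add, hv]
          have : v + (-1 : ℤ) • v = 0 := by module
          rw [this, ev_zero, Units.val_one])
        (by
          rw [hτe, ← Units.val_mul, ← ev_add, hcs]
          have : v + (-1 : ℤ) • ((1 : ℤ) • v - ρ σ *ᵥ v) = ρ σ *ᵥ v := by module
          rw [this])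
        hcσ
      refine ⟨v, ρ σ *ᵥ v, ι X, ι Y, hd, hfix X hX hX', ?_⟩
      rw [← hιev, ← hιev]
      exact hXY
  · have hdet : ∀ g, (ρ g).det = 1 := fun g =>
      (det_cases ρ g).resolve_right fun h => hc ⟨g, h⟩
    have hfix : ∀ X : Kˣ, τ σ (X : K) = X →
        ∀ g : L ≃ₐ[F] L, g ((ι X : Lˣ) : L) = ((ι X : Lˣ) : L) := by
      intro X h1 g
      rw [hι]
      have h1' : σ ((X : K) : L) = ((X : K) : L) := by rw [← hτ, h1]
      obtain ⟨k, hk⟩ := hσg g (hdet g)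
      rw [hagree g (σ ^ k) (by rw [hk, map_pow])]
      exact hpow _ _ _ h1'
    have hd01 : ¬ (n : ℤ) ∣ dt ![1, 0] ![0, 1] := by simpa [dt] using hn1
    rcases hσc with h | h | h | h | h
    · refine ⟨![1, 0], ![0, 1], ev a b ![1, 0], ev a b ![0, 1], hd01, ?_, rfl⟩
      have h1 := hfix (ev aK bK ![1, 0]) (by rw [hτe, h, one_mulVec])
      intro g
      have := h1 g
      rwa [hιev] at this
    · obtain ⟨X, Y, hX, -, hXY⟩ := type_two hsK hn (τ σ) (ev aK bK ![1, 0]) (ev aK bK ![0, 1])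
        (by rw [hτe, h, neg_mulVec, one_mulVec, ev_neg, ← Units.val_mul, mul_inv_cancel,
          Units.val_one])
        (by rw [hτe, h, neg_mulVec, one_mulVec, ev_neg, ← Units.val_mul, mul_inv_cancel,
          Units.val_one])
      refine ⟨![1, 0], ![0, 1], ι X, ι Y, hd01, hfix X hX, ?_⟩
      rw [← hιev, ← hιev]
      exact hXY
    · have hS : (ρ σ) ^ 2 - (-1 : ℤ) • ρ σ + 1 = 0 := by rw [← h, neg_smul, one_smul, sub_neg_eq_add]
      obtain ⟨v, hd⟩ := vec_rot hp h5 (ρ σ) (-1) (by simp) hS hσd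
      have hss := ssv hS v
      obtain ⟨X, Y, hX, -, hXY⟩ := type_three hsK hn h3 (τ σ) (ev aK bK v)
        (ev aK bK (ρ σ *ᵥ v)) (hτe _ _)
        (by
          rw [hτe, ← Units.val_mul, ← Units.val_mul, ← ev_add, ← ev_add, hss]
          have : v + ρ σ *ᵥ v + ((-1 : ℤ) • (ρ σ *ᵥ v) - v) = 0 := by module
          rw [this, ev_zero, Units.val_one])
      refine ⟨v, ρ σ *ᵥ v, ι X, ι Y, hd, hfix X hX, ?_⟩
      rw [← hιev, ← hιev]
      exact hXY
    · have hS : (ρ σ) ^ 2 - (0 : ℤ) • ρ σ + 1 = 0 := by rw [zero_smul, sub_zero, h]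
      obtain ⟨v, hd⟩ := vec_rot hp h5 (ρ σ) 0 (by simp) hS hσd
      have hss := ssv hS v
      obtain ⟨X, Y, hX, -, hXY⟩ := type_four hsK hn (τ σ) (ev aK bK v)
        (ev aK bK (ρ σ *ᵥ v)) (hτe _ _)
        (by
          rw [hτe, ← Units.val_mul, ← ev_add, hss]
          have : v + ((0 : ℤ) • (ρ σ *ᵥ v) - v) = 0 := by module
          rw [this, ev_zero, Units.val_one])
      refine ⟨v, ρ σ *ᵥ v, ι X, ι Y, hd, hfix X hX, ?_⟩
      rw [← hιev, ← hιev]
      exact hXY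
    · have hS : (ρ σ) ^ 2 - (1 : ℤ) • ρ σ + 1 = 0 := by rw [one_smul, h]
      obtain ⟨v, hd⟩ := vec_rot hp h5 (ρ σ) 1 (by simp) hS hσd
      have hss := ssv hS v
      obtain ⟨X, Y, hX, -, hXY⟩ := type_six hsK hn h3 (τ σ) (ev aK bK v)
        (ev aK bK (ρ σ *ᵥ v)) (hτe _ _)
        (by
          rw [hτe, ← Units.val_mul, ← ev_add, hss]
          have : v + ((1 : ℤ) • (ρ σ *ᵥ v) - v) = ρ σ *ᵥ v := by module
          rw [this])
      refine ⟨v, ρ σ *ᵥ v, ι X, ι Y, hd, hfix X hX, ?_⟩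
      rw [← hιev, ← hιev]
      exact hXY

end slot

end Pool.Agent.Helper41.CF
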