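import Mathlib
import Pool.Agent.Helper41.CF.Slot
import Pool.Agent.Helper41.CF.Final
import Pool.Agent.Helper41.CF.St.D6
import Pool.Agent.Helper41.CF.St.D7
import Pool.Agent.Helper41.CF.St.G3
import Pool.Agent.Helper41.CF.St.G7
import Pool.Agent.Helper41.CF.St.G8
import Pool.Agent.Helper41.CF.St.F1

/-!
# Crystallographic frames over `L`: the final argument
-/

set_option autoImplicit false

open TensorProduct Matrix

namespace Pool.Agent.Helper41.CF

universe u v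

theorem gcd_of_not_dvd {n : ℕ} (hp : n.Prime) {z : ℤ} (hz : ¬ (n : ℤ) ∣ z) : Int.gcd z n = 1 := by
  have h1 : IsCoprime z (n : ℤ) := ((Nat.prime_iff_prime_int.mp hp).coprime_iff_not_dvd.mpr hz).symm
  exact Int.isCoprime_iff_gcd_eq_one.mp h1

theorem solve_zsmul {Q : Type v} [AddCommGroup Q] {n : ℕ} (hp : n.Prime) {D : Q} (hD : n • D = 0)
    {k : ℤ} (hk : ¬ (n : ℤ) ∣ k) : ∃ m : ℤ, D = m • (k • D) := by
  have h1 := Int.gcd_eq_gcd_ab k n
  rw [gcd_of_not_dvd hp hk] at h1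
  refine ⟨Int.gcdA k n, ?_⟩
  have h3 : ((n : ℤ) : ℤ) • D = 0 := by rw [natCast_zsmul, hD]
  calc D = ((1 : ℕ) : ℤ) • D := by simp
    _ = (k * Int.gcdA k n + n * Int.gcdB k n) • D := by rw [h1]
    _ = _ := by
      rw [add_smul, mul_comm (n : ℤ), mul_smul _ (n : ℤ), h3, smul_zero, add_zero, mul_comm,
        mul_smul]

section

variable {F L : Type u} [Field F] [Field L] [Algebra F L] {Q : Type v} [AddCommGroup Q] {n : ℕ}
  {s : Lˣ → Lˣ → Q}

/-- the slot of a crystallographic symbol -/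
theorem slot_of_integral [Finite (L ≃ₐ[F] L)] (hs : IsSymb n s) (hp : n.Prime) (h5 : 5 ≤ n)
    (hco : (Nat.card (L ≃ₐ[F] L)).Coprime n)
    (ρ : (L ≃ₐ[F] L) →* Matrix (Fin 2) (Fin 2) ℤ) (a b : Lˣ)
    (ha : ∀ g : L ≃ₐ[F] L, NP n (Units.map ((g : L →+* L) : L →* L) a)
      (a ^ (ρ g 0 0) * b ^ (ρ g 1 0)))
    (hb : ∀ g : L ≃ₐ[F] L, NP n (Units.map ((g : L →+* L) : L →* L) b)
      (a ^ (ρ g 0 1) * b ^ (ρ g 1 1))) :
    ∃ X Y : Lˣ, (∀ g : L ≃ₐ[F] L, g (X : L) = X) ∧ s a b = s X Y := by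
  have hn : Odd n := hp.odd_of_ne_two (by omega)
  have : Fintype (L ≃ₐ[F] L) := Fintype.ofFinite _
  obtain ⟨a', b', ha', hb', hex⟩ := exists_exact (G := L ≃ₐ[F] L)
    (fun g => Units.map ((g : L →+* L) : L →* L)) (fun x => Units.ext rfl)
    (fun g h x => Units.ext rfl) ρ a b ha hb
  obtain ⟨v, w, X, Y, hd, hX, hXY⟩ := slot_exact hs hp h5 ρ a' b'
    (fun g v => congrArg Units.val (hex g v))
  rw [symb_ev _ _ hs hn, ha'.left hs, hb'.right hs, hs.pow_left, hs.pow_right, smul_smul,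
    ← natCast_zsmul, smul_smul] at hXY
  have hnc : ¬ n ∣ Fintype.card (L ≃ₐ[F] L) := by
    rw [← Nat.card_eq_fintype_card]
    exact (Nat.Prime.coprime_iff_not_dvd hp).mp hco.symm
  have hk : ¬ (n : ℤ) ∣ dt v w * ((Fintype.card (L ≃ₐ[F] L) * Fintype.card (L ≃ₐ[F] L) : ℕ) : ℤ) := by
    intro h
    rcases (Nat.prime_iff_prime_int.mp hp).dvd_or_dvd h with h | h
    · exact hd h
    · rw [Int.natCast_dvd_natCast] at h
      rcases (Nat.Prime.dvd_mul hp).mp h with h | h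
      · exact hnc h
      · exact hnc h
  obtain ⟨m, hm⟩ := solve_zsmul hp (hs.tors a b) hk
  refine ⟨X ^ m, Y, ?_, ?_⟩
  · intro g
    rw [Units.val_zpow_eq_zpow_val, map_zpow₀, hX]
  · rw [hs.zpow_left, ← hXY, ← hm]

end

section

variable {F L A : Type u} [Field F] [Field L] [Algebra F L] [Ring A] [Algebra F A] {n : ℕ}

/-- from the slot to the `n`-central element -/
theorem of_slot [Module.Finite F L] [IsGalois F L] [IsSimpleRing A] [Algebra.IsCentral F A]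
    [Module.Finite F A] (hp : n.Prime) (hco : (Module.finrank F L).Coprime n)
    (hA : Module.finrank F A = n ^ 2) {z : L} (hz : IsPrimitiveRoot z n) {a b : Lˣ}
    {x y : L ⊗[F] A} (h : IsFr n z (a, b) (x, y)) {Q : Type u} [AddCommGroup Q]
    {s : Lˣ → Lˣ → Q} (hs : IsSymb n s)
    (hexact : ∀ a b c d, s a b = s c d ↔ Sp n z [(a, b), (d, c)]) {X Y : Lˣ}
    (hX : ∀ g : L ≃ₐ[F] L, g (X : L) = X) (hXY : s a b = s X Y) :
    ∃ u : A, (∀ c : F, u ≠ algebraMap F A c) ∧ ∃ c : F, c ≠ 0 ∧ u ^ n = algebraMap F A c := by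
  have hn : 0 < n := hp.pos
  obtain ⟨r, hr⟩ := (IsGalois.mem_range_algebraMap_iff_fixed (F := F) (E := L) (X : L)).mpr hX
  have hr0 : r ≠ 0 := by
    rintro rfl
    rw [map_zero] at hr
    exact X.ne_zero hr.symm
  have hinj : Function.Injective (algebraMap F A) := (algebraMap F A).injective
  by_cases hα : ∀ β : F, β ^ n ≠ r
  · have h1 := (spl_of_frame hA h).transfer hn hz ((hexact a b _ _).mp hXY)
    have hXr : X = Units.map (algebraMap F L : F →* L) (Units.mk0 r hr0) := Units.ext hr.symm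
    rw [hXr] at h1
    obtain ⟨u, hu⟩ := slot_descent hp hco hA (Units.mk0 r hr0) hα Y h1
    refine ⟨u, ?_, r, hr0, hu⟩
    rintro c rfl
    rw [← map_pow] at hu
    exact hα c (hinj hu)
  · push Not at hα
    obtain ⟨β, hβ⟩ := hα
    have hβ0 : β ≠ 0 := by
      rintro rfl
      rw [zero_pow hn.ne'] at hβ
      exact hr0 hβ.symm
    have h0 : s a b = s 1 1 := by
      have hXβ : X = (Units.map (algebraMap F L : F →* L) (Units.mk0 β hβ0)) ^ n := by
        ext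
        rw [Units.val_pow_eq_pow_val]
        show (X : L) = (algebraMap F L β) ^ n
        rw [← map_pow, hβ, hr]
      rw [hXY, hXβ, hs.pow_left, hs.tors, hs.one_left]
    have h1 := (spl_of_frame hA h).transfer hn hz ((hexact a b _ _).mp h0)
    obtain ⟨u, hu1, hu2⟩ := split_case hp.two_le hco hA (h1.drop_one hn hz)
    exact ⟨u, hu2, 1, one_ne_zero, by rw [hu1, map_one]⟩

/-- **Theorem E+.** -/
theorem mainPlus [Module.Finite F L] [IsGalois F L] [IsSimpleRing A] [Algebra.IsCentral F A]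
    [Module.Finite F A] (hp : n.Prime) (h5 : 5 ≤ n) (hco : (Module.finrank F L).Coprime n)
    (hA : Module.finrank F A = n ^ 2) {z : L} (hz : IsPrimitiveRoot z n) {a b : Lˣ}
    {x y : L ⊗[F] A} (h : IsFr n z (a, b) (x, y))
    (ρ : (L ≃ₐ[F] L) →* Matrix (Fin 2) (Fin 2) ℤ)
    (ha : ∀ g : L ≃ₐ[F] L, ∃ c : Lˣ, g (a : L) = (a : L) ^ (ρ g 0 0) * (b : L) ^ (ρ g 1 0) * (c : L) ^ n)
    (hb : ∀ g : L ≃ₐ[F] L, ∃ c : Lˣ, g (b : L) = (a : L) ^ (ρ g 0 1) * (b : L) ^ (ρ g 1 1) * (c : L) ^ n) :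
    ∃ u : A, (∀ c : F, u ≠ algebraMap F A c) ∧ ∃ c : F, c ≠ 0 ∧ u ^ n = algebraMap F A c := by
  obtain ⟨Q, _, s, hs, hexact⟩ := exists_group hp.pos hz
  obtain ⟨X, Y, hX, hXY⟩ := slot_of_integral hs hp h5
    (by rwa [IsGalois.card_aut_eq_finrank]) ρ a b
    (fun g => by
      obtain ⟨c, hc⟩ := ha g
      refine ⟨c, ?_⟩
      ext
      push_cast
      exact hc)
    (fun g => by
      obtain ⟨c, hc⟩ := hb g
      refine ⟨c, ?_⟩
      ext
      push_cast
      exact hc)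
  exact of_slot hp hco hA hz h hs hexact hX hXY

end

end Pool.Agent.Helper41.CF
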