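import Mathlib
import Pool.Agent.Helper41.CF.Slot

/-!
# Integral structures for the action on the plane

`Gam t` is the group of integral matrices which preserve the form `2x² + 2txy + 2y²`.
-/

set_option autoImplicit false

open Matrix

namespace Pool.Agent.Helper41.CF

universe u v w

/-- the invariant form -/
def qt (t : ℤ) : Matrix (Fin 2) (Fin 2) ℤ := !![2, t; t, 2]

/-- the integral orthogonal group of `qt t` -/
def Gam (t : ℤ) (M : Matrix (Fin 2) (Fin 2) ℤ) : Prop := Mᵀ * qt t * M = qt t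

theorem Gam.one (t : ℤ) : Gam t 1 := by simp [Gam]

theorem Gam.mul {t : ℤ} {M N : Matrix (Fin 2) (Fin 2) ℤ} (hM : Gam t M) (hN : Gam t N) :
    Gam t (M * N) := by
  unfold Gam at *
  rw [transpose_mul]
  calc Nᵀ * Mᵀ * qt t * (M * N) = Nᵀ * (Mᵀ * qt t * M) * N := by simp only [mul_assoc]
    _ = _ := by rw [hM, hN]

theorem Gam.pow {t : ℤ} {M : Matrix (Fin 2) (Fin 2) ℤ} (hM : Gam t M) (k : ℕ) : Gam t (M ^ k) := by
  induction k with
  | zero => rw [pow_zero]; exact Gam.one t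
  | succ k ih => rw [pow_succ]; exact ih.mul hM

theorem bound_aux {t x y : ℤ} (ht : t = -1 ∨ t = 0 ∨ t = 1) (h : x ^ 2 + t * x * y + y ^ 2 = 1) :
    |x| ≤ 1 ∧ |y| ≤ 1 := by
  have h1 : (4 - t ^ 2) * x ^ 2 ≤ 4 := by nlinarith [sq_nonneg (2 * y + t * x)]
  have h2 : (4 - t ^ 2) * y ^ 2 ≤ 4 := by nlinarith [sq_nonneg (2 * x + t * y)]
  have h3 : 3 ≤ 4 - t ^ 2 := by rcases ht with rfl | rfl | rfl <;> norm_num
  constructor
  · by_contra hc
    push Not at hc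
    have : 2 ≤ |x| := hc
    have h4 : 4 ≤ x ^ 2 := by rw [← sq_abs]; nlinarith
    nlinarith
  · by_contra hc
    push Not at hc
    have : 2 ≤ |y| := hc
    have h4 : 4 ≤ y ^ 2 := by rw [← sq_abs]; nlinarith
    nlinarith

theorem Gam.bound {t : ℤ} (ht : t = -1 ∨ t = 0 ∨ t = 1) {M : Matrix (Fin 2) (Fin 2) ℤ}
    (hM : Gam t M) (i j : Fin 2) : |M i j| ≤ 1 := by
  have h0 := congrFun (congrFun hM 0) 0
  have h1 := congrFun (congrFun hM 1) 1
  simp only [qt, mul_apply, Fin.sum_univ_two, transpose_apply, of_apply, cons_val', cons_val_zero,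
    cons_val_one, cons_val_fin_one] at h0 h1
  have e0 : (M 0 0) ^ 2 + t * M 0 0 * M 1 0 + (M 1 0) ^ 2 = 1 := by linarith
  have e1 : (M 0 1) ^ 2 + t * M 0 1 * M 1 1 + (M 1 1) ^ 2 = 1 := by linarith
  have b0 := bound_aux ht e0
  have b1 := bound_aux ht e1
  fin_cases i <;> fin_cases j
  · exact b0.1
  · exact b1.1
  · exact b0.2
  · exact b1.2

theorem Gam.inj {n : ℕ} (h5 : 5 ≤ n) {t : ℤ} (ht : t = -1 ∨ t = 0 ∨ t = 1)
    {M N : Matrix (Fin 2) (Fin 2) ℤ} (hM : Gam t M) (hN : Gam t N)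
    (h : ∀ i j, (n : ℤ) ∣ M i j - N i j) : M = N := by
  ext i j
  have h1 := hM.bound ht i j
  have h2 := hN.bound ht i j
  have h3 := Int.eq_zero_of_abs_lt_dvd (h i j) (by
    have : |M i j - N i j| ≤ |M i j| + |N i j| := abs_sub _ _
    have : (5 : ℤ) ≤ n := by exact_mod_cast h5
    linarith)
  linarith

section

variable {E : Type u} [Field E] {n : ℕ} {Q : Type v} [AddCommGroup Q] {s : Eˣ → Eˣ → Q}

theorem np_ev {a b : Eˣ} {v w : Fin 2 → ℤ} (h : ∀ i, (n : ℤ) ∣ v i - w i) :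
    NP n (ev a b v) (ev a b w) :=
  (NP.of_dvd (h 0) a).mul (NP.of_dvd (h 1) b)

theorem dvd_of_np (hs : IsSymb n s) (hp : n.Prime) (h5 : 5 ≤ n) {a b : Eˣ} (hne : s a b ≠ 0)
    {v w : Fin 2 → ℤ} (h : NP n (ev a b v) (ev a b w)) (i : Fin 2) : (n : ℤ) ∣ v i - w i := by
  have hn : Odd n := hp.odd_of_ne_two (by omega)
  have h1 := h.left hs b
  have h2 := h.right hs a
  simp only [ev, hs.mul_left, hs.mul_right, hs.zpow_left, hs.zpow_right, hs.self hn, smul_zero,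
    add_zero, zero_add] at h1 h2
  fin_cases i
  · refine dvd_of_zsmul hs hp hne ?_
    rw [sub_smul]
    exact sub_eq_zero.mpr h1
  · refine dvd_of_zsmul hs hp hne ?_
    rw [sub_smul]
    exact sub_eq_zero.mpr h2

theorem NP.symm' {x y : Eˣ} (h : NP n x y) : NP n y x := by
  obtain ⟨c, hc⟩ := h
  exact ⟨c⁻¹, by rw [hc, inv_pow, mul_inv_cancel_right]⟩

end

section

variable {G : Type w} [Group G] {E : Type u} [Field E] {n : ℕ} {Q : Type v} [AddCommGroup Q]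
  {s : Eˣ → Eˣ → Q}

theorem exists_rho (hs : IsSymb n s) (hp : n.Prime) (h5 : 5 ≤ n) (φ : G → Eˣ →* Eˣ)
    (h1 : ∀ x, φ 1 x = x) (hmul : ∀ g h x, φ (g * h) x = φ g (φ h x)) {a b : Eˣ}
    (hne : s a b ≠ 0) {t : ℤ} (ht : t = -1 ∨ t = 0 ∨ t = 1)
    (h : ∀ g : G, ∃ M : Matrix (Fin 2) (Fin 2) ℤ, Gam t M ∧
      ∀ v, NP n (φ g (ev a b v)) (ev a b (M *ᵥ v))) :
    ∃ ρ : G →* Matrix (Fin 2) (Fin 2) ℤ, ∀ g v, NP n (φ g (ev a b v)) (ev a b (ρ g *ᵥ v)) := by
  choose f hf hfv using h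
  have huniq : ∀ (g : G) (M : Matrix (Fin 2) (Fin 2) ℤ), Gam t M →
      (∀ v, NP n (φ g (ev a b v)) (ev a b (M *ᵥ v))) → f g = M := by
    intro g M hM hMv
    refine (hf g).inj h5 ht hM fun i j => ?_
    have h2 := ((hfv g (Pi.single j 1)).symm').trans (hMv (Pi.single j 1))
    have h3 := dvd_of_np hs hp h5 hne h2 i
    simpa using h3
  refine ⟨⟨⟨f, ?_⟩, ?_⟩, fun g v => hfv g v⟩
  · refine huniq 1 1 (Gam.one t) fun v => ?_
    rw [h1, one_mulVec]
    exact NP.refl _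
  · intro g g'
    refine huniq (g * g') (f g * f g') ((hf g).mul (hf g')) fun v => ?_
    rw [hmul, ← mulVec_mulVec]
    exact ((hfv g' v).map (φ g)).trans (hfv g _)

end

end Pool.Agent.Helper41.CF
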