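import Mathlib
import Pool.Agent.Helper41.CF.Lat

/-!
# Finite groups of 2 × 2 matrices over a field which lift to integral matrices
-/

set_option autoImplicit false

open Matrix

namespace Pool.Agent.Helper41.CF

universe u

variable {k : Type u} [Field k]

theorem ch2 (M : Matrix (Fin 2) (Fin 2) k) (hdet : M.det = 1) :
    M * M = M.trace • M - 1 := by
  rw [det_fin_two] at hdet
  rw [trace_fin_two]
  ext i j
  fin_cases i <;> fin_cases j <;>
    simp [mul_apply, Fin.sum_univ_two] <;> first | ring1 | linear_combination -hdet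

theorem scalar_cases (M : Matrix (Fin 2) (Fin 2) k) (hdet : M.det = 1) {c : k} (h : M = c • 1) :
    M = 1 ∨ M = -1 := by
  subst h
  rw [det_smul, det_one, mul_one, Fintype.card_fin] at hdet
  have h0 : (c - 1) * (c + 1) = 0 := by linear_combination hdet
  rcases mul_eq_zero.mp h0 with h | h
  · left; rw [sub_eq_zero.mp h, one_smul]
  · right; rw [eq_neg_of_add_eq_zero_left h, neg_smul, one_smul]

theorem trace_cases (h2 : (2 : k) ≠ 0) (M : Matrix (Fin 2) (Fin 2) k) (hdet : M.det = 1) {m : ℕ}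
    (hm : m = 1 ∨ m = 2 ∨ m = 3 ∨ m = 4 ∨ m = 6) (hM : M ^ m = 1) (hn : M ≠ 1) (hn' : M ≠ -1) :
    M.trace = -1 ∨ M.trace = 0 ∨ M.trace = 1 := by
  set t := M.trace with ht
  have hch : M * M = t • M - 1 := ch2 M hdet
  have key : ∀ p q : k, p • M = q • (1 : Matrix (Fin 2) (Fin 2) k) → p = 0 ∧ q = 0 := by
    intro p q h
    have hp : p = 0 := by
      by_contra hp
      have : M = (p⁻¹ * q) • 1 := by
        rw [mul_smul, ← h, smul_smul, inv_mul_cancel₀ hp, one_smul]
      rcases scalar_cases M hdet this with h' | h'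
      · exact hn h'
      · exact hn' h'
    refine ⟨hp, ?_⟩
    rw [hp, zero_smul] at h
    have := congrFun (congrFun h 0) 0
    simpa using this.symm
  have h3 : M ^ 3 = (t ^ 2 - 1) • M - t • 1 := by
    rw [pow_succ, pow_two, hch, sub_mul, smul_mul_assoc, hch, one_mul]
    module
  have h4 : M ^ 4 = (t ^ 3 - 2 * t) • M - (t ^ 2 - 1) • 1 := by
    rw [pow_succ, h3, sub_mul, smul_mul_assoc, smul_mul_assoc, hch, one_mul]
    module
  have h6 : M ^ 6 = (t ^ 5 - 4 * t ^ 3 + 3 * t) • M - (t ^ 4 - 3 * t ^ 2 + 1) • 1 := by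
    have : M ^ 6 = M ^ 4 * (M * M) := by rw [← pow_two, ← pow_add]
    rw [this, h4, hch, sub_mul, smul_mul_assoc, smul_mul_assoc, one_mul, mul_sub, mul_one,
      mul_smul_comm, hch]
    module
  rcases hm with rfl | rfl | rfl | rfl | rfl
  · rw [pow_one] at hM
    exact absurd hM hn
  · rw [pow_two, hch] at hM
    obtain ⟨-, h⟩ := key t 2 (by
      rw [sub_eq_iff_eq_add] at hM
      rw [hM]
      module)
    exact absurd h h2
  · rw [h3] at hM
    obtain ⟨e1, e2⟩ := key (t ^ 2 - 1) (t + 1) (by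
      rw [sub_eq_iff_eq_add] at hM
      rw [hM]
      module)
    left
    linear_combination e2
  · rw [h4] at hM
    obtain ⟨e1, e2⟩ := key (t ^ 3 - 2 * t) (t ^ 2) (by
      rw [sub_eq_iff_eq_add] at hM
      rw [hM]
      module)
    right; left
    exact pow_eq_zero_iff (two_ne_zero) |>.mp e2
  · rw [h6] at hM
    obtain ⟨e1, e2⟩ := key (t ^ 5 - 4 * t ^ 3 + 3 * t) (t ^ 4 - 3 * t ^ 2 + 2) (by
      rw [sub_eq_iff_eq_add] at hM
      rw [hM]
      module)
    have e3 : t ^ 2 = 1 := by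
      have h5 : (t ^ 2 - 1) * (t ^ 2 - 2) = 0 := by linear_combination e2
      rcases mul_eq_zero.mp h5 with h | h
      · linear_combination h
      · exfalso
        have h7 : t = 0 := by linear_combination (t ^ 3 - 2 * t) * h - e1
        rw [h7] at h
        apply h2
        linear_combination -h
    have h0 : (t - 1) * (t + 1) = 0 := by linear_combination e3
    rcases mul_eq_zero.mp h0 with h | h
    · right; right; exact sub_eq_zero.mp h
    · left; exact eq_neg_of_add_eq_zero_left h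

/-- the determinant of two vectors -/
def dk (v w : Fin 2 → k) : k := v 0 * w 1 - v 1 * w 0

theorem exists_dk (M : Matrix (Fin 2) (Fin 2) k) (hdet : M.det = 1) (hn : M ≠ 1) (hn' : M ≠ -1) :
    ∃ v, dk v (M *ᵥ v) ≠ 0 := by
  by_contra hc
  push Not at hc
  have h1 := hc ![1, 0]
  have h2 := hc ![0, 1]
  have h3 := hc ![1, 1]
  simp [dk, mulVec, dotProduct, Fin.sum_univ_two] at h1 h2 h3
  have h4 : M = M 0 0 • 1 := by
    ext i j
    fin_cases i <;> fin_cases j
    · simp
    · simpa using h2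
    · simpa using h1
    · simp
      linear_combination h3 - h1 + h2
  rcases scalar_cases M hdet h4 with h | h
  · exact hn h
  · exact hn' h

theorem eq_smul_of_dk {v w : Fin 2 → k} (hv : v ≠ 0) (h : dk v w = 0) : ∃ c : k, w = c • v := by
  unfold dk at h
  by_cases h0 : v 0 = 0
  · have h1 : v 1 ≠ 0 := by
      intro h1
      apply hv
      ext i
      fin_cases i
      · exact h0
      · exact h1
    refine ⟨w 1 / v 1, ?_⟩
    ext i
    fin_cases i
    · have : w 0 = 0 := by
        rw [h0, zero_mul, zero_sub, neg_eq_zero] at h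
        exact (mul_eq_zero.mp h).resolve_left h1
      simp [this, h0]
    · simp [h1]
  · refine ⟨w 0 / v 0, ?_⟩
    ext i
    fin_cases i
    · simp [h0]
    · simp only [Pi.smul_apply, smul_eq_mul, Fin.mk_one]
      field_simp
      linear_combination h

theorem exists_eig (h2 : (2 : k) ≠ 0) (C : Matrix (Fin 2) (Fin 2) k) (hdet : C.det = -1)
    (hC : C * C = 1) (ε : k) (hε : ε ^ 2 = 1) : ∃ v, v ≠ 0 ∧ C *ᵥ v = ε • v := by
  have htr : C 0 0 + C 1 1 = 0 := by
    rw [det_fin_two] at hdet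
    have e00 := congrFun (congrFun hC 0) 0
    have e01 := congrFun (congrFun hC 0) 1
    have e10 := congrFun (congrFun hC 1) 0
    have e11 := congrFun (congrFun hC 1) 1
    simp [mul_apply, Fin.sum_univ_two] at e00 e01 e10 e11
    have k1 : C 0 0 * (C 0 0 + C 1 1) = 0 := by linear_combination e00 + hdet
    have k2 : C 0 1 * (C 0 0 + C 1 1) = 0 := by linear_combination e01
    have k3 : C 1 1 * (C 0 0 + C 1 1) = 0 := by linear_combination e11 + hdet
    by_contra hne
    have z0 := (mul_eq_zero.mp k1).resolve_right hne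
    have z1 := (mul_eq_zero.mp k3).resolve_right hne
    exact hne (by rw [z0, z1, add_zero])
  have hd : C 0 0 * C 0 0 + C 0 1 * C 1 0 = 1 := by
    rw [det_fin_two] at hdet
    linear_combination C 0 0 * htr - hdet
  by_cases h : C 0 0 + ε = 0 ∧ C 1 0 = 0
  · refine ⟨![C 0 1, ε - C 0 0], ?_, ?_⟩
    · intro h0
      have h1 := congrFun h0 1
      simp at h1
      have h3 : 2 * ε = 0 := by linear_combination h1 + h.1
      rcases mul_eq_zero.mp h3 with h4 | h4
      · exact h2 h4
      · rw [h4] at hε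
        simp at hε
    · ext i
      fin_cases i
      · simp [mulVec, dotProduct, Fin.sum_univ_two]
        ring
      · simp [mulVec, dotProduct, Fin.sum_univ_two]
        linear_combination hd + (ε - C 0 0) * htr - hε
  · refine ⟨![C 0 0 + ε, C 1 0], ?_, ?_⟩
    · intro h0
      apply h
      have h1 := congrFun h0 0
      have h3 := congrFun h0 1
      simp at h1 h3
      exact ⟨h1, h3⟩
    · ext i
      fin_cases i
      · simp [mulVec, dotProduct, Fin.sum_univ_two]
        linear_combination hd - hε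
      · simp [mulVec, dotProduct, Fin.sum_univ_two]
        linear_combination C 1 0 * htr

/-- the matrix with columns `v`, `w` -/
def cols (v w : Fin 2 → k) : Matrix (Fin 2) (Fin 2) k := !![v 0, w 0; v 1, w 1]

theorem det_cols (v w : Fin 2 → k) : (cols v w).det = dk v w := by
  simp [cols, dk, det_fin_two_of]
  ring

theorem mul_cols (M : Matrix (Fin 2) (Fin 2) k) (v w : Fin 2 → k) :
    M * cols v w = cols (M *ᵥ v) (M *ᵥ w) := by
  ext i j
  fin_cases i <;> fin_cases j <;> simp [cols, mul_apply, mulVec, dotProduct, Fin.sum_univ_two]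

theorem cols_mul (v w : Fin 2 → k) (S : Matrix (Fin 2) (Fin 2) ℤ) :
    cols v w * S.map (Int.cast : ℤ → k) =
      cols (((S 0 0 : ℤ) : k) • v + ((S 1 0 : ℤ) : k) • w)
        (((S 0 1 : ℤ) : k) • v + ((S 1 1 : ℤ) : k) • w) := by
  ext i j
  fin_cases i <;> fin_cases j <;>
    simp [cols, mul_apply, Fin.sum_univ_two] <;> ring

theorem exists_lattice (h2 : (2 : k) ≠ 0) (M : Matrix (Fin 2) (Fin 2) k) (hdet : M.det = 1) {m : ℕ}
    (hm : m = 1 ∨ m = 2 ∨ m = 3 ∨ m = 4 ∨ m = 6) (hM : M ^ m = 1) :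
    ∃ (t : ℤ) (P : Matrix (Fin 2) (Fin 2) k) (S : Matrix (Fin 2) (Fin 2) ℤ),
      (t = -1 ∨ t = 0 ∨ t = 1) ∧ P.det ≠ 0 ∧ Gam t S ∧ M * P = P * S.map (Int.cast : ℤ → k) := by
  by_cases h1 : M = 1
  · exact ⟨0, 1, 1, by simp, by simp, Gam.one 0, by
      rw [h1, Matrix.map_one _ Int.cast_zero Int.cast_one]⟩
  by_cases h1' : M = -1
  · refine ⟨0, 1, -1, by simp, by simp, by simp [Gam], ?_⟩
    rw [h1', mul_one, one_mul]
    ext i j
    fin_cases i <;> fin_cases j <;> simp
  obtain ⟨v, hv⟩ := exists_dk M hdet h1 h1'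
  have htr := trace_cases h2 M hdet hm hM h1 h1'
  obtain ⟨t, ht, ht'⟩ : ∃ t : ℤ, (t = -1 ∨ t = 0 ∨ t = 1) ∧ ((t : ℤ) : k) = M.trace := by
    rcases htr with h | h | h
    · exact ⟨-1, by simp, by rw [h]; simp⟩
    · exact ⟨0, by simp, by rw [h]; simp⟩
    · exact ⟨1, by simp, by rw [h]; simp⟩
  refine ⟨t, cols v (M *ᵥ v), !![0, -1; 1, t], ht, by rw [det_cols]; exact hv, ?_, ?_⟩
  · unfold Gam qt
    rcases ht with rfl | rfl | rfl <;> decide
  · rw [mul_cols, cols_mul, mulVec_mulVec, ch2 M hdet, sub_mulVec, one_mulVec, smul_mulVec, ← ht']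
    congr 1
    · simp
    · ext i
      simp
      try ring

theorem exists_lattice_refl (h2 : (2 : k) ≠ 0) (h3 : (3 : k) ≠ 0) (M C : Matrix (Fin 2) (Fin 2) k)
    (hdet : M.det = 1) {m : ℕ} (hm : m = 1 ∨ m = 2 ∨ m = 3 ∨ m = 4 ∨ m = 6) (hM : M ^ m = 1)
    (hdC : C.det = -1) (hC : C * C = 1) (hCM : C * M * (C * M) = 1) :
    ∃ (t : ℤ) (P : Matrix (Fin 2) (Fin 2) k) (S C0 : Matrix (Fin 2) (Fin 2) ℤ),
      (t = -1 ∨ t = 0 ∨ t = 1) ∧ P.det ≠ 0 ∧ Gam t S ∧ Gam t C0 ∧
      M * P = P * S.map (Int.cast : ℤ → k) ∧ C * P = P * C0.map (Int.cast : ℤ → k) := by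
  obtain ⟨v, hv0, hv⟩ := exists_eig h2 C hdC hC 1 (by simp)
  rw [one_smul] at hv
  obtain ⟨w, hw0, hw⟩ := exists_eig h2 C hdC hC (-1) (by simp)
  rw [neg_smul, one_smul] at hw
  have hdvw : dk v w ≠ 0 := by
    intro h
    obtain ⟨c, rfl⟩ := eq_smul_of_dk hv0 h
    rw [mulVec_smul, hv] at hw
    have h4 : (2 : k) • (c • v) = 0 := by
      rw [two_smul]
      nth_rewrite 1 [hw]
      exact neg_add_cancel _
    rcases smul_eq_zero.mp h4 with h5 | h5
    · exact h2 h5
    · exact hw0 h5
  have hS0 : (Int.cast 0 : k) = 0 := Int.cast_zero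
  by_cases h1 : M = 1
  · refine ⟨0, cols v w, 1, !![1, 0; 0, -1], by simp, by rw [det_cols]; exact hdvw, Gam.one 0,
      by unfold Gam qt; decide, ?_, ?_⟩
    · rw [h1, Matrix.map_one _ Int.cast_zero Int.cast_one, mul_one, one_mul]
    · rw [mul_cols, cols_mul, hv, hw]
      congr 1 <;> simp
  by_cases h1' : M = -1
  · refine ⟨0, cols v w, -1, !![1, 0; 0, -1], by simp, by rw [det_cols]; exact hdvw,
      by simp [Gam], by unfold Gam qt; decide, ?_, ?_⟩
    · rw [mul_cols, cols_mul, h1', neg_mulVec, neg_mulVec, one_mulVec, one_mulVec]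
      congr 1 <;> simp
    · rw [mul_cols, cols_mul, hv, hw]
      congr 1 <;> simp
  have htr := trace_cases h2 M hdet hm hM h1 h1'
  obtain ⟨t, ht, ht'⟩ : ∃ t : ℤ, (t = -1 ∨ t = 0 ∨ t = 1) ∧ ((t : ℤ) : k) = M.trace := by
    rcases htr with h | h | h
    · exact ⟨-1, by simp, by rw [h]; simp⟩
    · exact ⟨0, by simp, by rw [h]; simp⟩
    · exact ⟨1, by simp, by rw [h]; simp⟩
  have hch := ch2 M hdet
  -- `C M C = t - M`
  have hCMC : C * M * C = M.trace • 1 - M := by
    have e1 : (M.trace • 1 - M) * M = 1 := by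
      rw [sub_mul, smul_mul_assoc, one_mul, hch]
      abel
    have e2 : C * M * C * M = 1 := by rw [← hCM]; simp only [mul_assoc]
    have e3 : M * (C * M * C) = 1 := mul_eq_one_comm.mp e2
    calc C * M * C = (M.trace • 1 - M) * M * (C * M * C) := by rw [e1, one_mul]
      _ = (M.trace • 1 - M) * (M * (C * M * C)) := by simp only [mul_assoc]
      _ = _ := by rw [e3, mul_one]
  have hCMv : C *ᵥ (M *ᵥ v) = M.trace • v - M *ᵥ v := by
    calc C *ᵥ (M *ᵥ v) = C *ᵥ (M *ᵥ (C *ᵥ v)) := by rw [hv]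
      _ = (C * M * C) *ᵥ v := by rw [mulVec_mulVec, mulVec_mulVec, mul_assoc]
      _ = _ := by rw [hCMC, sub_mulVec, smul_mulVec, one_mulVec]
  have hvM : dk v (M *ᵥ v) ≠ 0 := by
    intro h
    obtain ⟨c, hc⟩ := eq_smul_of_dk hv0 h
    have e1 : M *ᵥ (M *ᵥ v) = M.trace • (M *ᵥ v) - v := by
      rw [mulVec_mulVec, hch, sub_mulVec, one_mulVec, smul_mulVec]
    rw [hc, mulVec_smul, hc] at e1
    rw [hc, mulVec_smul, hv] at hCMv
    have e2 : (c * c - M.trace * c + 1) • v = 0 := by
      have : (c * c - M.trace * c + 1) • v = c • c • v - (M.trace • c • v - v) := by module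
      rw [this, e1, sub_self]
    have e3 : (2 * c - M.trace) • v = 0 := by
      have : (2 * c - M.trace) • v = c • v - (M.trace • v - c • v) := by module
      rw [this, ← hCMv, sub_self]
    have e4 := (smul_eq_zero.mp e2).resolve_right hv0
    have e5 := (smul_eq_zero.mp e3).resolve_right hv0
    have e6 : M.trace ^ 2 = 4 := by linear_combination (2 * c - M.trace) * e5 - 4 * e4
    rcases htr with h | h | h
    · rw [h] at e6
      apply h3
      linear_combination -e6
    · rw [h] at e6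
      have : (2 : k) * 2 = 0 := by linear_combination -e6
      rcases mul_eq_zero.mp this with h | h <;> exact h2 h
    · rw [h] at e6
      apply h3
      linear_combination -e6
  refine ⟨t, cols v (M *ᵥ v), !![0, -1; 1, t], !![1, t; 0, -1], ht,
    by rw [det_cols]; exact hvM, ?_, ?_, ?_, ?_⟩
  · unfold Gam qt
    rcases ht with rfl | rfl | rfl <;> decide
  · unfold Gam qt
    rcases ht with rfl | rfl | rfl <;> decide
  · rw [mul_cols, cols_mul, mulVec_mulVec, hch, sub_mulVec, one_mulVec, smul_mulVec, ← ht']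
    congr 1
    · simp
    · ext i
      simp
      try ring
  · rw [mul_cols, cols_mul, hv, hCMv, ← ht']
    congr 1
    · simp
    · generalize M *ᵥ v = y
      ext i
      simp
      try ring

end Pool.Agent.Helper41.CF
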