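import Mathlib
import Pool.Agent.Helper41.CF.MatK
import Pool.Agent.Helper41.CF.FinalPlus

/-!
# The plane spanned by `a`, `b` modulo `n`-th powers: uniform form of the theorem
-/

set_option autoImplicit false

open TensorProduct Matrix

namespace Pool.Agent.Helper41.CF

universe u v

section

variable {F L : Type u} [Field F] [Field L] [Algebra F L] {n : ℕ} {Q : Type v} [AddCommGroup Q]
  {s : Lˣ → Lˣ → Q}

/-- the action on units -/
def ph (g : L ≃ₐ[F] L) : Lˣ →* Lˣ := Units.map ((g : L →+* L) : L →* L)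

theorem ph_val (g : L ≃ₐ[F] L) (x : Lˣ) : ((ph g x : Lˣ) : L) = g x := rfl

theorem ph_one (x : Lˣ) : ph (1 : L ≃ₐ[F] L) x = x := rfl

theorem ph_mul (g h : L ≃ₐ[F] L) (x : Lˣ) : ph (g * h) x = ph g (ph h x) := rfl

/-- reduction of an integral vector -/
def red (n : ℕ) (v : Fin 2 → ℤ) : Fin 2 → ZMod n := fun i => ((v i : ℤ) : ZMod n)

theorem red_eq {v w : Fin 2 → ℤ} (h : red n v = red n w) (i : Fin 2) : (n : ℤ) ∣ v i - w i := by
  have h1 := congrFun h i
  simp only [red] at h1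
  rw [← ZMod.intCast_zmod_eq_zero_iff_dvd]
  push_cast
  rw [h1, sub_self]

theorem exists_red (v : Fin 2 → ZMod n) : ∃ w : Fin 2 → ℤ, red n w = v := by
  choose f hf using fun i => ZMod.intCast_surjective (v i)
  exact ⟨f, funext hf⟩

theorem red_mulVec (S : Matrix (Fin 2) (Fin 2) ℤ) (v : Fin 2 → ℤ) :
    red n (S *ᵥ v) = S.map (Int.cast : ℤ → ZMod n) *ᵥ red n v := by
  ext i
  simp [red, mulVec, dotProduct, Fin.sum_univ_two]

/-- `g` acts on the plane through the matrix `M` -/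
def RZ (n : ℕ) (a b : Lˣ) (g : L ≃ₐ[F] L) (M : Matrix (Fin 2) (Fin 2) (ZMod n)) : Prop :=
  ∀ v w : Fin 2 → ℤ, red n w = M *ᵥ red n v → NP n (ph g (ev a b v)) (ev a b w)

variable {a b : Lˣ}

theorem RZ.one : RZ n a b (1 : L ≃ₐ[F] L) 1 := by
  intro v w h
  rw [one_mulVec] at h
  rw [ph_one]
  exact np_ev (red_eq h.symm)

theorem RZ.mul {g h : L ≃ₐ[F] L} {M N : Matrix (Fin 2) (Fin 2) (ZMod n)} (hg : RZ n a b g M)
    (hh : RZ n a b h N) : RZ n a b (g * h) (M * N) := by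
  intro v w hw
  obtain ⟨v', hv'⟩ := exists_red (N *ᵥ red n v)
  rw [ph_mul]
  refine ((hh v v' hv').map (ph g)).trans (hg v' w ?_)
  rw [hw, hv', mulVec_mulVec]

theorem RZ.pow {g : L ≃ₐ[F] L} {M : Matrix (Fin 2) (Fin 2) (ZMod n)} (hg : RZ n a b g M) (k : ℕ) :
    RZ n a b (g ^ k) (M ^ k) := by
  induction k with
  | zero => rw [pow_zero, pow_zero]; exact RZ.one
  | succ k ih => rw [pow_succ, pow_succ]; exact ih.mul hg

theorem RZ.uniq (hs : IsSymb n s) (hp : n.Prime) (h5 : 5 ≤ n) (hne : s a b ≠ 0)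
    {g : L ≃ₐ[F] L} {M N : Matrix (Fin 2) (Fin 2) (ZMod n)} (hg : RZ n a b g M)
    (hh : RZ n a b g N) : M = N := by
  ext i j
  obtain ⟨w, hw⟩ := exists_red (M *ᵥ red n (Pi.single j 1))
  obtain ⟨w', hw'⟩ := exists_red (N *ᵥ red n (Pi.single j 1))
  have h1 := ((hg _ _ hw).symm').trans (hh _ _ hw')
  have h2 := dvd_of_np hs hp h5 hne h1 i
  rw [← ZMod.intCast_zmod_eq_zero_iff_dvd] at h2
  push_cast at h2
  have h3 : red n w i = red n w' i := sub_eq_zero.mp h2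
  have e : red n (Pi.single j 1) = Pi.single j 1 := by
    ext k
    by_cases hk : k = j
    · subst hk
      simp [red]
    · simp [red, hk]
  rw [hw, hw', e] at h3
  simpa using h3

theorem RZ.of {g : L ≃ₐ[F] L} {p q : Fin 2 → ℤ} (ha : NP n (ph g a) (ev a b p))
    (hb : NP n (ph g b) (ev a b q)) : RZ n a b g (cols (red n p) (red n q)) := by
  intro v w hw
  have h1 : ph g (ev a b v) = (ph g a) ^ v 0 * (ph g b) ^ v 1 := by
    rw [ev_map]
    rfl
  have h2 : (ev a b p) ^ v 0 * (ev a b q) ^ v 1 = ev a b (v 0 • p + v 1 • q) := by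
    simp only [ev, mul_zpow, ← _root_.zpow_mul, Pi.add_apply, Pi.smul_apply, smul_eq_mul,
      _root_.zpow_add, mul_comm (v 0), mul_comm (v 1)]
    rw [mul_mul_mul_comm]
  rw [h1]
  refine ((ha.zpow _).mul (hb.zpow _)).trans ?_
  rw [h2]
  refine np_ev (red_eq ?_)
  rw [hw]
  ext i
  fin_cases i <;> simp [red, cols, mulVec, dotProduct, Fin.sum_univ_two] <;> ring

theorem RZ.congr {g h : L ≃ₐ[F] L} {M : Matrix (Fin 2) (Fin 2) (ZMod n)} (hh : RZ n a b h M)
    (ha : NP n (ph g a) (ph h a)) (hb : NP n (ph g b) (ph h b)) : RZ n a b g M := by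
  intro v w hw
  refine NP.trans ?_ (hh v w hw)
  rw [ev_map, ev_map]
  exact (ha.zpow _).mul (hb.zpow _)

theorem RZ.basis {g : L ≃ₐ[F] L} {M P : Matrix (Fin 2) (Fin 2) (ZMod n)} (hg : RZ n a b g M)
    {p q : Fin 2 → ℤ} (hP : P = cols (red n p) (red n q)) {N : Matrix (Fin 2) (Fin 2) ℤ}
    (hN : M * P = P * N.map (Int.cast : ℤ → ZMod n)) (v : Fin 2 → ℤ) :
    NP n (ph g (ev (ev a b p) (ev a b q) v)) (ev (ev a b p) (ev a b q) (N *ᵥ v)) := by
  have h2 : ∀ v : Fin 2 → ℤ, ev (ev a b p) (ev a b q) v = ev a b (v 0 • p + v 1 • q) := by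
    intro v
    simp only [ev, mul_zpow, ← _root_.zpow_mul, Pi.add_apply, Pi.smul_apply, smul_eq_mul,
      _root_.zpow_add, mul_comm (v 0), mul_comm (v 1)]
    rw [mul_mul_mul_comm]
  have h3 : ∀ v : Fin 2 → ℤ, red n (v 0 • p + v 1 • q) = P *ᵥ red n v := by
    intro v
    rw [hP]
    ext i
    fin_cases i <;> simp [red, cols, mulVec, dotProduct, Fin.sum_univ_two] <;> ring
  rw [h2, h2]
  refine hg _ _ ?_
  rw [h3, h3, red_mulVec, mulVec_mulVec, mulVec_mulVec, hN]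

theorem slot_uniform [Finite (L ≃ₐ[F] L)] (hs : IsSymb n s) (hp : n.Prime) (h5 : 5 ≤ n)
    (hco : (Nat.card (L ≃ₐ[F] L)).Coprime n) {z : L} (hne : s a b ≠ 0)
    (hM : ∀ g : L ≃ₐ[F] L, ∃ M, RZ n a b g M ∧ (g z = z → M.det = 1) ∧ (g z = z⁻¹ → M.det = -1))
    (σ : L ≃ₐ[F] L) (hσz : σ z = z) {m : ℕ} (hm : m = 1 ∨ m = 2 ∨ m = 3 ∨ m = 4 ∨ m = 6)
    (hσm : RZ n a b (σ ^ m) 1)
    (hrot : ∀ g : L ≃ₐ[F] L, g z = z → ∃ k : ℕ, NP n (ph g a) (ph (σ ^ k) a) ∧
      NP n (ph g b) (ph (σ ^ k) b))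
    (href : ∀ g : L ≃ₐ[F] L, g z ≠ z → g z = z⁻¹ ∧ RZ n a b (g * g) 1) :
    ∃ X Y : Lˣ, (∀ g : L ≃ₐ[F] L, g (X : L) = X) ∧ s a b = s X Y := by
  have := Fact.mk hp
  have hn : Odd n := hp.odd_of_ne_two (by omega)
  have cast_ne : ∀ k : ℕ, 0 < k → k < 5 → ((k : ℕ) : ZMod n) ≠ 0 := by
    intro k hk hk5 h
    rw [ZMod.natCast_eq_zero_iff] at h
    have := Nat.le_of_dvd hk h
    omega
  have h2 : (2 : ZMod n) ≠ 0 := by exact_mod_cast cast_ne 2 (by norm_num) (by norm_num)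
  have h3 : (3 : ZMod n) ≠ 0 := by exact_mod_cast cast_ne 3 (by norm_num) (by norm_num)
  obtain ⟨M, hMσ, hMd, -⟩ := hM σ
  have hMd := hMd hσz
  have hMm : M ^ m = 1 := (hMσ.pow m).uniq hs hp h5 hne hσm
  -- the key: a basis and integral matrices
  have key : ∃ (t : ℤ) (P : Matrix (Fin 2) (Fin 2) (ZMod n)), (t = -1 ∨ t = 0 ∨ t = 1) ∧
      P.det ≠ 0 ∧ ∀ g : L ≃ₐ[F] L, ∃ (N : Matrix (Fin 2) (Fin 2) (ZMod n))
        (N0 : Matrix (Fin 2) (Fin 2) ℤ), RZ n a b g N ∧ Gam t N0 ∧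
        N * P = P * N0.map (Int.cast : ℤ → ZMod n) := by
    have hcast : ∀ A B : Matrix (Fin 2) (Fin 2) ℤ, (A * B).map (Int.cast : ℤ → ZMod n) =
        A.map (Int.cast : ℤ → ZMod n) * B.map (Int.cast : ℤ → ZMod n) := by
      intro A B
      exact Matrix.map_mul (f := Int.castRingHom (ZMod n))
    have hpw : ∀ (P : Matrix (Fin 2) (Fin 2) (ZMod n)) (S : Matrix (Fin 2) (Fin 2) ℤ),
        M * P = P * S.map (Int.cast : ℤ → ZMod n) → ∀ k : ℕ,
        M ^ k * P = P * (S ^ k).map (Int.cast : ℤ → ZMod n) := by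
      intro P S h k
      induction k with
      | zero =>
        rw [pow_zero, pow_zero, one_mul, Matrix.map_one _ Int.cast_zero Int.cast_one, mul_one]
      | succ k ih =>
        rw [pow_succ, mul_assoc, h, ← mul_assoc, ih, mul_assoc, ← hcast, ← pow_succ]
    by_cases hc : ∃ c : L ≃ₐ[F] L, c z ≠ z
    · obtain ⟨c, hcz⟩ := hc
      obtain ⟨hcz', hcc⟩ := href c hcz
      obtain ⟨C, hC, -, hCd⟩ := hM c
      have hCd := hCd hcz'
      have hC2 : C * C = 1 := (hC.mul hC).uniq hs hp h5 hne hcc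
      have hcσ : (c * σ) z ≠ z := by
        show c (σ z) ≠ z
        rw [hσz]
        exact hcz
      have hCM : C * M * (C * M) = 1 :=
        ((hC.mul hMσ).mul (hC.mul hMσ)).uniq hs hp h5 hne (href _ hcσ).2
      obtain ⟨t, P, S, C0, ht, hP, hS, hC0, hMP, hCP⟩ :=
        exists_lattice_refl h2 h3 M C hMd hm hMm hCd hC2 hCM
      refine ⟨t, P, ht, hP, fun g => ?_⟩
      by_cases hg : g z = z
      · obtain ⟨k, hk, hk'⟩ := hrot g hg
        exact ⟨M ^ k, S ^ k, (hMσ.pow k).congr hk hk', hS.pow k, hpw P S hMP k⟩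
      · obtain ⟨hgz, -⟩ := href g hg
        have hcg : (c * g) z = z := by
          show c (g z) = z
          rw [hgz, map_inv₀, hcz', inv_inv]
        obtain ⟨k, hk, hk'⟩ := hrot _ hcg
        obtain ⟨N, hN, -, -⟩ := hM g
        have h1 : C * N = M ^ k :=
          (hC.mul hN).uniq hs hp h5 hne ((hMσ.pow k).congr hk hk')
        have h4 : N = C * M ^ k := by rw [← h1, ← mul_assoc, hC2, one_mul]
        refine ⟨N, C0 * S ^ k, hN, hC0.mul (hS.pow k), ?_⟩
        rw [h4, mul_assoc, hpw P S hMP k, ← mul_assoc, hCP, mul_assoc, ← hcast]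
    · push Not at hc
      obtain ⟨t, P, S, ht, hP, hS, hMP⟩ := exists_lattice h2 M hMd hm hMm
      refine ⟨t, P, ht, hP, fun g => ?_⟩
      obtain ⟨k, hk, hk'⟩ := hrot g (hc g)
      exact ⟨M ^ k, S ^ k, (hMσ.pow k).congr hk hk', hS.pow k, hpw P S hMP k⟩
  obtain ⟨t, P, ht, hP, hall⟩ := key
  obtain ⟨p, hp'⟩ := exists_red (n := n) fun i => P i 0
  obtain ⟨q, hq'⟩ := exists_red (n := n) fun i => P i 1
  have hPc : P = cols (red n p) (red n q) := by
    ext i j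
    fin_cases i <;> fin_cases j <;> simp [cols, hp', hq']
  have hd : ¬ (n : ℤ) ∣ dt p q := by
    intro h
    apply hP
    rw [hPc, det_cols]
    rw [← ZMod.intCast_zmod_eq_zero_iff_dvd] at h
    rw [← h]
    simp [dt, dk, red]
  have hs1 : s (ev a b p) (ev a b q) = dt p q • s a b := symb_ev _ _ hs hn _ _
  have hne1 : s (ev a b p) (ev a b q) ≠ 0 := by
    rw [hs1]
    intro h
    exact hd (dvd_of_zsmul hs hp hne h)
  obtain ⟨ρ, hρ⟩ := exists_rho hs hp h5 (fun g : L ≃ₐ[F] L => ph g) (fun x => ph_one x)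
    (fun g h x => ph_mul g h x) hne1 ht (fun g => by
      obtain ⟨N, N0, hN, hN0, hNP⟩ := hall g
      exact ⟨N0, hN0, hN.basis hPc hNP⟩)
  obtain ⟨X, Y, hX, hXY⟩ := slot_of_integral hs hp h5 hco ρ (ev a b p) (ev a b q)
    (fun g => by
      have h := hρ g ![1, 0]
      rw [ev_fst] at h
      have e : ρ g *ᵥ ![1, 0] = fun i => ρ g i 0 := by
        ext i
        simp [mulVec, dotProduct, Fin.sum_univ_two]
      rw [e] at h
      exact h)
    (fun g => by
      have h := hρ g ![0, 1]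
      rw [ev_snd] at h
      have e : ρ g *ᵥ ![0, 1] = fun i => ρ g i 1 := by
        ext i
        simp [mulVec, dotProduct, Fin.sum_univ_two]
      rw [e] at h
      exact h)
  obtain ⟨k, hk⟩ := solve_zsmul hp (hs.tors a b) hd
  refine ⟨X ^ k, Y, ?_, ?_⟩
  · intro g
    rw [Units.val_zpow_eq_zpow_val, map_zpow₀, hX]
  · rw [hs.zpow_left, ← hXY, hs1, ← hk]

end

section

variable {F L A : Type u} [Field F] [Field L] [Algebra F L] [Ring A] [Algebra F A] {n : ℕ}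

/-- the action of a Galois automorphism on frames -/
theorem IsFr.gal {z : L} {a b : Lˣ} {x y : L ⊗[F] A}
    (h : IsFr n z (a, b) (x, y)) (g : L ≃ₐ[F] L) :
    IsFr n (g z) (ph g a, ph g b)
      (Algebra.TensorProduct.map (g : L →ₐ[F] L) (AlgHom.id F A) x,
        Algebra.TensorProduct.map (g : L →ₐ[F] L) (AlgHom.id F A) y) := by
  have hc : ∀ e : L, Algebra.TensorProduct.map (g : L →ₐ[F] L) (AlgHom.id F A)
      (algebraMap L (L ⊗[F] A) e) = algebraMap L (L ⊗[F] A) (g e) := by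
    intro e
    rw [Algebra.TensorProduct.algebraMap_apply, Algebra.TensorProduct.algebraMap_apply,
      Algebra.TensorProduct.map_tmul]
    simp
  refine ⟨?_, ?_, ?_⟩
  · show (Algebra.TensorProduct.map (g : L →ₐ[F] L) (AlgHom.id F A) x) ^ n = _
    rw [← map_pow, h.pow_fst, hc]
    rfl
  · show (Algebra.TensorProduct.map (g : L →ₐ[F] L) (AlgHom.id F A) y) ^ n = _
    rw [← map_pow, h.pow_snd, hc]
    rfl
  · show (Algebra.TensorProduct.map (g : L →ₐ[F] L) (AlgHom.id F A) x) *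
      (Algebra.TensorProduct.map (g : L →ₐ[F] L) (AlgHom.id F A) y) = _
    rw [← map_mul, h.comm, Algebra.smul_def, map_mul, hc, ← Algebra.smul_def, map_mul]

theorem IsFr.inv_swap {z : L} (hz : z ≠ 0) {E : Type v} [Ring E] [Algebra L E] {a b : Lˣ} {x y : E}
    (h : IsFr n z⁻¹ (a, b) (x, y)) : IsFr n z (b, a) (y, x) := by
  refine ⟨h.pow_snd, h.pow_fst, ?_⟩
  show y * x = z • (x * y)
  have h1 : x * y = z⁻¹ • (y * x) := h.comm
  rw [h1, smul_smul, mul_inv_cancel₀ hz, one_smul]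

/-- **Uniform theorem.** -/
theorem mainUni [Module.Finite F L] [IsGalois F L] [IsSimpleRing A] [Algebra.IsCentral F A]
    [Module.Finite F A] (hp : n.Prime) (h5 : 5 ≤ n) (hco : (Module.finrank F L).Coprime n)
    (hA : Module.finrank F A = n ^ 2) {z : L} (hz : IsPrimitiveRoot z n) {a b : Lˣ}
    {x y : L ⊗[F] A} (h : IsFr n z (a, b) (x, y))
    (hV : ∀ g : L ≃ₐ[F] L, (∃ p : Fin 2 → ℤ, NP n (ph g a) (ev a b p)) ∧
      ∃ q : Fin 2 → ℤ, NP n (ph g b) (ev a b q))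
    (σ : L ≃ₐ[F] L) (hσz : σ z = z) {m : ℕ} (hm : m = 1 ∨ m = 2 ∨ m = 3 ∨ m = 4 ∨ m = 6)
    (hσm : NP n (ph (σ ^ m) a) a ∧ NP n (ph (σ ^ m) b) b)
    (hrot : ∀ g : L ≃ₐ[F] L, g z = z → ∃ k : ℕ, NP n (ph g a) (ph (σ ^ k) a) ∧
      NP n (ph g b) (ph (σ ^ k) b))
    (href : ∀ g : L ≃ₐ[F] L, g z ≠ z → g z = z⁻¹ ∧ NP n (ph g (ph g a)) a ∧
      NP n (ph g (ph g b)) b) :
    ∃ u : A, (∀ c : F, u ≠ algebraMap F A c) ∧ ∃ c : F, c ≠ 0 ∧ u ^ n = algebraMap F A c := by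
  have := Fact.mk hp
  have hn : Odd n := hp.odd_of_ne_two (by omega)
  obtain ⟨Q, _, s, hs, hexact⟩ := exists_group hp.pos hz
  by_cases hne : s a b = 0
  · exact of_slot hp hco hA hz h hs hexact (X := 1) (Y := 1) (by simp)
      (by rw [hne, hs.one_left])
  have hsg : ∀ g : L ≃ₐ[F] L, (g z = z → s (ph g a) (ph g b) = s a b) ∧
      (g z = z⁻¹ → s (ph g a) (ph g b) = -s a b) := by
    intro g
    constructor
    · intro hg
      have h1 := h.gal g
      rw [hg] at h1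
      rw [hexact]
      exact sp_of_two_frames hA h1 h
    · intro hg
      have h1 := h.gal g
      rw [hg] at h1
      rw [hs.anti hn (ph g b) (ph g a), neg_inj, hexact]
      exact sp_of_two_frames hA (h1.inv_swap (hz.ne_zero hp.pos.ne')) h
  have hone : ∀ {g : L ≃ₐ[F] L}, NP n (ph g a) a → NP n (ph g b) b → RZ n a b g 1 :=
    fun h1 h2 => RZ.one.congr h1 h2
  obtain ⟨X, Y, hX, hXY⟩ := slot_uniform hs hp h5 (by rwa [IsGalois.card_aut_eq_finrank]) hne
    (fun g => by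
      obtain ⟨⟨p, hpa⟩, q, hqb⟩ := hV g
      have hval : s (ph g a) (ph g b) = dt p q • s a b := by
        rw [hpa.left hs, hqb.right hs, symb_ev _ _ hs hn]
      have hdet : ((dt p q : ℤ) : ZMod n) = (cols (red n p) (red n q)).det := by
        rw [det_cols]
        simp [dt, dk, red]
      refine ⟨_, RZ.of hpa hqb, fun hg => ?_, fun hg => ?_⟩
      · have h1 := (hsg g).1 hg
        rw [hval] at h1
        have h2 : (dt p q - 1) • s a b = 0 := by rw [sub_smul, h1, one_smul, sub_self]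
        have h3 := (ZMod.intCast_zmod_eq_zero_iff_dvd _ _).mpr (dvd_of_zsmul hs hp hne h2)
        push_cast at h3
        rw [← hdet]
        exact sub_eq_zero.mp h3
      · have h1 := (hsg g).2 hg
        rw [hval] at h1
        have h2 : (dt p q + 1) • s a b = 0 := by rw [add_smul, h1, one_smul, neg_add_cancel]
        have h3 := (ZMod.intCast_zmod_eq_zero_iff_dvd _ _).mpr (dvd_of_zsmul hs hp hne h2)
        push_cast at h3
        rw [← hdet]
        exact eq_neg_of_add_eq_zero_left h3)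
    σ hσz hm (hone hσm.1 hσm.2) hrot
    (fun g hg => ⟨(href g hg).1, hone (href g hg).2.1 (href g hg).2.2⟩)
  exact of_slot hp hco hA hz h hs hexact hX hXY

end

end Pool.Agent.Helper41.CF
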